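import Mathlib

set_option autoImplicit false

/-!
Dirichlet eigenvalues of a compact Riemannian surface with boundary.
-/

open MeasureTheory Bundle
open scoped Manifold ContDiff ENNReal

namespace Pool.Agent.Helper23.Dir

/-- The plane `ℝ²`. -/
abbrev E2 : Type := EuclideanSpace ℝ (Fin 2)

/-- Linear forms on the plane. -/
abbrev Lin : Type := E2 →L[ℝ] ℝ

/-- Bilinear forms on the plane. -/
abbrev Bil : Type := E2 →L[ℝ] Lin

/-- Linear endomorphisms of the plane. -/
abbrev Lin2 : Type := E2 →L[ℝ] E2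

/-- Smooth Riemannian metrics on a smooth surface with boundary (Mathlib's notion). -/
abbrev RMetric (M : Type) [TopologicalSpace M] [ChartedSpace (EuclideanHalfSpace 2) M]
    [IsManifold (𝓡∂ 2) ∞ M] : Type :=
  ContMDiffRiemannianMetric (𝓡∂ 2) ∞ E2 (fun x : M => TangentSpace (𝓡∂ 2) x)

variable {M : Type} [TopologicalSpace M] [ChartedSpace (EuclideanHalfSpace 2) M]
  [IsManifold (𝓡∂ 2) ∞ M]

/-- The scalar product `g_x` on the tangent space at `x`, as a bilinear form. (In Mathlib the
tangent space of a surface at a point is a copy of the plane.) -/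
noncomputable def form (g : RMetric M) (x : M) : Bil := g.inner x

/-- The value of a linear form at a vector. -/
noncomputable def pairing (ℓ : Lin) (v : E2) : ℝ := ℓ v

/-- The linear form `w ↦ B(v, w)`. -/
noncomputable def lower (B : Bil) (v : E2) : Lin := B v

/-- The scalar product `g_x(v, w)` of two tangent vectors at `x`. -/
noncomputable def ip (g : RMetric M) (x : M) (v w : E2) : ℝ := pairing (lower (form g x) v) w

/-- The squared length `|ℓ|_g²` of a covector `ℓ` at `x`, i.e. the maximum of `(ℓ v)²` over all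
tangent vectors `v` with `g(v, v) ≤ 1`. -/
noncomputable def conormSq (g : RMetric M) (x : M) (ℓ : Lin) : ℝ :=
  sSup {t : ℝ | ∃ v : E2, ip g x v v ≤ 1 ∧ t = (pairing ℓ v) ^ 2}

/-- The inverse of the chart at `x₀`: the point of coordinates `y`. -/
noncomputable def par (x₀ : M) (y : E2) : M := (extChartAt (𝓡∂ 2) x₀).symm y

/-- The differential of the inverse of the chart at `x₀`, at the point of coordinates `y`. -/
noncomputable def dpar (x₀ : M) (y : E2) : Lin2 :=
  mfderivWithin 𝓘(ℝ, E2) (𝓡∂ 2) (extChartAt (𝓡∂ 2) x₀).symm (Set.range (𝓡∂ 2)) y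

/-- The coordinate vector fields `∂_i` of the chart at `x₀`, at the point of coordinates `y`. -/
noncomputable def cvec (x₀ : M) (y : E2) (i : Fin 2) : E2 :=
  dpar x₀ y (EuclideanSpace.single i (1 : ℝ))

/-- The matrix `g_ij = g(∂_i, ∂_j)` of the metric in the coordinates given by the chart at `x₀`, at
the point of coordinates `y`. -/
noncomputable def gram (g : RMetric M) (x₀ : M) (y : E2) : Matrix (Fin 2) (Fin 2) ℝ := fun i j =>
  ip g (par x₀ y) (cvec x₀ y i) (cvec x₀ y j)

/-- `μ` is the Riemannian area measure of `g`: in every chart it is given by the density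
`√(det (g_ij))` with respect to the Lebesgue measure of the plane. -/
def IsArea (g : RMetric M) [MeasurableSpace M] (μ : Measure M) : Prop :=
  ∀ (x₀ : M) (A : Set M), MeasurableSet A → A ⊆ (chartAt (EuclideanHalfSpace 2) x₀).source →
    μ A = ∫⁻ y in extChartAt (𝓡∂ 2) x₀ '' A, ENNReal.ofReal (Real.sqrt (gram g x₀ y).det)

variable (M) in
/-- Smooth functions with compact support contained in the interior of `M`. -/
def testFun : Submodule ℝ (M → ℝ) where
  carrier := {u | ContMDiff (𝓡∂ 2) 𝓘(ℝ, ℝ) ∞ u ∧ HasCompactSupport u ∧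
    tsupport u ⊆ (𝓡∂ 2).interior M}
  add_mem' := by
    rintro u v ⟨hu1, hu2, hu3⟩ ⟨hv1, hv2, hv3⟩
    refine ⟨hu1.add hv1, hu2.add hv2, (tsupport_add u v).trans (Set.union_subset hu3 hv3)⟩
  zero_mem' := ⟨contMDiff_const, HasCompactSupport.zero, by
    simp [tsupport]⟩
  smul_mem' := by
    rintro c u ⟨hu1, hu2, hu3⟩
    have hs : tsupport (c • u) ⊆ tsupport u :=
      closure_mono (Function.support_const_smul_subset c u)
    have h1 : ContMDiff (𝓡∂ 2) 𝓘(ℝ, ℝ) ∞ (c • u) :=
      (contMDiff_const (c := c) (I := 𝓡∂ 2) (I' := 𝓘(ℝ, ℝ))).smul hu1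
    exact ⟨h1, hu2.mono' (subset_closure.trans hs), hs.trans hu3⟩

/-- The differential `du` of a function at `x`, a linear form on the tangent space. -/
noncomputable def diff (u : M → ℝ) (x : M) : Lin := mfderiv (𝓡∂ 2) 𝓘(ℝ, ℝ) u x

/-- The Dirichlet energy `∫ |du|²`. -/
noncomputable def energy (g : RMetric M) [MeasurableSpace M] (μ : Measure M) (u : M → ℝ) : ℝ :=
  ∫ x, conormSq g x (diff u x) ∂μ

/-- The squared `L²` norm `∫ u²`. -/
noncomputable def mass [MeasurableSpace M] (μ : Measure M) (u : M → ℝ) : ℝ :=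
  ∫ x, u x ^ 2 ∂μ

/-- The `k`-th Dirichlet eigenvalue `ν_k` (`k = 0, 1, 2, …`, with multiplicity), given by the
Courant-Fischer formula: the infimum, over all `(k+1)`-dimensional spaces `L` of test functions, of
the maximum over `L` of the Rayleigh quotient `∫ |du|² / ∫ u²`. -/
noncomputable def nu (g : RMetric M) [MeasurableSpace M] (μ : Measure M) (k : ℕ) : ℝ :=
  sInf {r : ℝ | ∃ L : Submodule ℝ (M → ℝ), L ≤ testFun M ∧ Module.finrank ℝ L = k + 1 ∧
    ∀ u ∈ L, energy g μ u ≤ r * mass μ u}

/-- The multiplicity `m_k` of the number `ν_k` in the sequence `ν_0 ≤ ν_1 ≤ …`. -/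
noncomputable def mult (g : RMetric M) [MeasurableSpace M] (μ : Measure M) (k : ℕ) : ℕ∞ :=
  {j : ℕ | nu g μ j = nu g μ k}.encard

end Pool.Agent.Helper23.Dir
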