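import Mathlib
import Pool.Agent.Helper23.Dir.Defs

set_option autoImplicit false

open Set Metric
open scoped Manifold ContDiff

namespace Pool.Agent.Helper23.Dir

/-- Cartesian coordinates on `ℂ`. -/
noncomputable def kap : ℂ ≃ₗᵢ[ℝ] E2 := Complex.orthonormalBasisOneI.repr

lemma kap_zero (z : ℂ) : kap z 0 = z.re := by
  have := congrFun (Complex.orthonormalBasisOneI_repr_apply z) 0
  exact this

lemma kap_one (z : ℂ) : kap z 1 = z.im := by
  have := congrFun (Complex.orthonormalBasisOneI_repr_apply z) 1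
  exact this

/-- The planar domain: the disk of radius `10` without two open disks of radius `1/2`. -/
def Qset : Set ℂ := {z | ‖z‖ ≤ 10 ∧ 1 / 2 ≤ ‖z - 9‖ ∧ 1 / 2 ≤ ‖z + 9‖}

/-- Its interior. -/
def Qint : Set ℂ := {z | ‖z‖ < 10 ∧ 1 / 2 < ‖z - 9‖ ∧ 1 / 2 < ‖z + 9‖}

lemma Qint_subset : Qint ⊆ Qset := fun _ h => ⟨h.1.le, h.2.1.le, h.2.2.le⟩

lemma isOpen_Qint : IsOpen Qint := by
  change IsOpen ({z : ℂ | ‖z‖ < 10} ∩ ({z : ℂ | 1 / 2 < ‖z - 9‖} ∩ {z : ℂ | 1 / 2 < ‖z + 9‖}))
  apply IsOpen.inter (isOpen_lt (by fun_prop) (by fun_prop))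
  exact IsOpen.inter (isOpen_lt (by fun_prop) (by fun_prop)) (isOpen_lt (by fun_prop) (by fun_prop))

lemma isClosed_Qset : IsClosed Qset := by
  change IsClosed ({z : ℂ | ‖z‖ ≤ 10} ∩ ({z : ℂ | 1 / 2 ≤ ‖z - 9‖} ∩ {z : ℂ | 1 / 2 ≤ ‖z + 9‖}))
  apply IsClosed.inter (isClosed_le (by fun_prop) (by fun_prop))
  exact IsClosed.inter (isClosed_le (by fun_prop) (by fun_prop))
    (isClosed_le (by fun_prop) (by fun_prop))

lemma isCompact_Qset : IsCompact Qset := by
  apply (isCompact_closedBall (0 : ℂ) 10).of_isClosed_subset isClosed_Qset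
  intro z hz
  simpa using hz.1

/-- A chart of the plane in which the domain `Qset` becomes the half-plane `0 ≤ y 0`. -/
structure BChart where
  /-- the local diffeomorphism -/
  Φ : OpenPartialHomeomorph ℂ E2
  mem_iff : ∀ z ∈ Φ.source, z ∈ Qset ↔ 0 ≤ Φ z 0
  mem_iff' : ∀ z ∈ Φ.source, z ∈ Qint ↔ 0 < Φ z 0
  smooth : ContDiffOn ℝ ∞ Φ Φ.source
  smooth_symm : ContDiffOn ℝ ∞ Φ.symm Φ.target

/-- restriction to an open set -/
noncomputable def BChart.ofRestr (Φ : OpenPartialHomeomorph ℂ E2) (s : Set ℂ) (hs : IsOpen s)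
    (h1 : ContDiffOn ℝ ∞ Φ Φ.source) (h2 : ContDiffOn ℝ ∞ Φ.symm Φ.target)
    (h3 : ∀ z ∈ Φ.source, z ∈ s → (z ∈ Qset ↔ 0 ≤ Φ z 0))
    (h4 : ∀ z ∈ Φ.source, z ∈ s → (z ∈ Qint ↔ 0 < Φ z 0)) : BChart where
  Φ := Φ.restrOpen s hs
  mem_iff z hz := by
    rw [OpenPartialHomeomorph.restrOpen_source] at hz
    exact h3 z hz.1 hz.2
  mem_iff' z hz := by
    rw [OpenPartialHomeomorph.restrOpen_source] at hz
    exact h4 z hz.1 hz.2
  smooth := by
    rw [OpenPartialHomeomorph.restrOpen_source]
    exact h1.mono inter_subset_left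
  smooth_symm := by
    apply h2.mono
    intro y hy
    exact hy.1

/-- the Möbius chart -/
noncomputable def mob (c w : ℂ) (hw : w ≠ 0) (ε : ℝ) (hε : ε * ε = 1) :
    OpenPartialHomeomorph ℂ E2 where
  toFun z := kap (ε * ((z - c - w) / (z - c + w)))
  invFun y := c + w * ((1 + ε * kap.symm y) / (1 - ε * kap.symm y))
  source := {z | z - c + w ≠ 0}
  target := {y | 1 - ε * kap.symm y ≠ 0}
  map_source' z hz := by
    simp only [mem_ofPred_eq] at hz ⊢
    rw [LinearIsometryEquiv.symm_apply_apply]
    have hε' : (ε : ℂ) * ε = 1 := by exact_mod_cast hε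
    rw [← mul_assoc, hε', one_mul]
    have : 1 - (z - c - w) / (z - c + w) = 2 * w / (z - c + w) := by
      field_simp; ring
    rw [this]
    exact div_ne_zero (mul_ne_zero two_ne_zero hw) hz
  map_target' y hy := by
    simp only [mem_ofPred_eq] at hy ⊢
    have : c + w * ((1 + ε * kap.symm y) / (1 - ε * kap.symm y)) - c + w =
        2 * w / (1 - ε * kap.symm y) := by
      field_simp; ring
    rw [this]
    exact div_ne_zero (mul_ne_zero two_ne_zero hw) hy
  left_inv' z hz := by
    simp only [mem_ofPred_eq] at hz ⊢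
    rw [LinearIsometryEquiv.symm_apply_apply]
    have hε' : (ε : ℂ) * ε = 1 := by exact_mod_cast hε
    rw [← mul_assoc, hε', one_mul]
    have h2 : 1 - (z - c - w) / (z - c + w) = 2 * w / (z - c + w) := by
      field_simp; ring
    rw [h2]
    field_simp
    ring
  right_inv' y hy := by
    simp only [mem_ofPred_eq] at hy ⊢
    have hε' : (ε : ℂ) * ε = 1 := by exact_mod_cast hε
    have h1 : c + w * ((1 + ε * kap.symm y) / (1 - ε * kap.symm y)) - c + w =
        2 * w / (1 - ε * kap.symm y) := by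
      field_simp; ring
    have h2 : c + w * ((1 + ε * kap.symm y) / (1 - ε * kap.symm y)) - c - w =
        2 * w * (ε * kap.symm y) / (1 - ε * kap.symm y) := by
      field_simp; ring
    rw [h1, h2]
    have h3 : ε * (2 * w * (ε * kap.symm y) / (1 - ε * kap.symm y) /
        (2 * w / (1 - ε * kap.symm y))) = (ε * ε) * kap.symm y := by
      field_simp
    rw [h3, hε', one_mul, LinearIsometryEquiv.apply_symm_apply]
  open_source := isOpen_ne_fun (by fun_prop) continuous_const
  open_target := isOpen_ne_fun (by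
    have := kap.symm.continuous
    fun_prop) continuous_const
  continuousOn_toFun := by
    apply kap.continuous.comp_continuousOn
    apply ContinuousOn.mul continuousOn_const
    apply ContinuousOn.div (by fun_prop) (by fun_prop)
    intro z hz
    exact hz
  continuousOn_invFun := by
    have := kap.symm.continuous
    apply ContinuousOn.add continuousOn_const
    apply ContinuousOn.mul continuousOn_const
    apply ContinuousOn.div (by fun_prop) (by fun_prop)
    intro z hz
    exact hz

lemma mob_apply (c w : ℂ) (hw : w ≠ 0) (ε : ℝ) (hε : ε * ε = 1) (z : ℂ) :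
    mob c w hw ε hε z = kap (ε * ((z - c - w) / (z - c + w))) := rfl

lemma mob_zero (c w : ℂ) (hw : w ≠ 0) (ε : ℝ) (hε : ε * ε = 1) (z : ℂ) :
    mob c w hw ε hε z 0 = ε * (‖z - c‖ ^ 2 - ‖w‖ ^ 2) / ‖z - c + w‖ ^ 2 := by
  rw [mob_apply, kap_zero, Complex.re_ofReal_mul, Complex.div_re, ← Complex.normSq_eq_norm_sq,
    ← Complex.normSq_eq_norm_sq, ← Complex.normSq_eq_norm_sq, ← add_div, mul_div_assoc]
  congr 2
  simp only [Complex.normSq_apply, Complex.sub_re, Complex.add_re, Complex.sub_im, Complex.add_im]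
  ring

lemma mob_smooth (c w : ℂ) (hw : w ≠ 0) (ε : ℝ) (hε : ε * ε = 1) :
    ContDiffOn ℝ ∞ (mob c w hw ε hε) (mob c w hw ε hε).source := by
  have h : ContDiffOn ℝ ∞ (fun z : ℂ => (ε : ℂ) * ((z - c - w) / (z - c + w)))
      (mob c w hw ε hε).source := by
    apply ContDiffOn.mul contDiffOn_const
    simp only [div_eq_mul_inv]
    apply ContDiffOn.mul (by fun_prop)
    apply ContDiffOn.inv (by fun_prop)
    intro z hz
    exact hz
  exact kap.contDiff.comp_contDiffOn h

lemma mob_smooth_symm (c w : ℂ) (hw : w ≠ 0) (ε : ℝ) (hε : ε * ε = 1) :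
    ContDiffOn ℝ ∞ (mob c w hw ε hε).symm (mob c w hw ε hε).target := by
  have h1 : ContDiff ℝ ∞ (kap.symm : E2 → ℂ) := kap.symm.contDiff
  apply ContDiffOn.add contDiffOn_const
  apply ContDiffOn.mul contDiffOn_const
  simp only [div_eq_mul_inv]
  apply ContDiffOn.mul (by fun_prop)
  apply ContDiffOn.inv (by fun_prop)
  intro z hz
  exact hz

/-- charts at the boundary of the holes -/
noncomputable def holeChart (c w : ℂ) (hc : c = 9 ∨ c = -9) (hw : ‖w‖ = 1 / 2) : BChart :=
  BChart.ofRestr (mob c w (by rintro rfl; norm_num at hw) 1 (by norm_num))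
    (ball c 1) isOpen_ball (mob_smooth _ _ _ _ _) (mob_smooth_symm _ _ _ _ _)
    (by
      intro z hz hz1
      have hpos : 0 < ‖z - c + w‖ ^ 2 := by
        have : z - c + w ≠ 0 := hz
        positivity
      rw [mob_zero, one_mul, le_div_iff₀ hpos, zero_mul, hw]
      rw [mem_ball, dist_eq_norm] at hz1
      have hn9 : ‖(9 : ℂ)‖ = 9 := by simp
      have hn18 : ‖(18 : ℂ)‖ = 18 := by simp
      have hzc : ‖z‖ < 10 := by
        have h1 : ‖z‖ ≤ ‖z - c‖ + ‖c‖ := by simpa using norm_add_le (z - c) c
        have h2 : ‖c‖ = 9 := by rcases hc with rfl | rfl <;> simp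
        linarith
      constructor
      · intro h
        have : 1 / 2 ≤ ‖z - c‖ := by
          rcases hc with rfl | rfl
          · exact h.2.1
          · simpa using h.2.2
        nlinarith
      · intro h
        have h1 : 1 / 2 ≤ ‖z - c‖ := by nlinarith [norm_nonneg (z - c)]
        refine ⟨hzc.le, ?_, ?_⟩
        · rcases hc with rfl | rfl
          · exact h1
          · have h2 : ‖(18 : ℂ)‖ ≤ ‖z - -9‖ + ‖z - 9‖ := by
              have e : (18 : ℂ) = (z - -9) - (z - 9) := by ring
              rw [e]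
              exact norm_sub_le _ _
            linarith
        · rcases hc with rfl | rfl
          · have h2 : ‖(18 : ℂ)‖ ≤ ‖z + 9‖ + ‖z - 9‖ := by
              have e : (18 : ℂ) = (z + 9) - (z - 9) := by ring
              rw [e]
              exact norm_sub_le _ _
            linarith
          · simpa using h1)
    (by
      intro z hz hz1
      have hpos : 0 < ‖z - c + w‖ ^ 2 := by
        have : z - c + w ≠ 0 := hz
        positivity
      rw [mob_zero, one_mul, lt_div_iff₀ hpos, zero_mul, hw]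
      rw [mem_ball, dist_eq_norm] at hz1
      have hn9 : ‖(9 : ℂ)‖ = 9 := by simp
      have hn18 : ‖(18 : ℂ)‖ = 18 := by simp
      have hzc : ‖z‖ < 10 := by
        have h1 : ‖z‖ ≤ ‖z - c‖ + ‖c‖ := by simpa using norm_add_le (z - c) c
        have h2 : ‖c‖ = 9 := by rcases hc with rfl | rfl <;> simp
        linarith
      constructor
      · intro h
        have : 1 / 2 < ‖z - c‖ := by
          rcases hc with rfl | rfl
          · exact h.2.1
          · simpa using h.2.2
        nlinarith
      · intro h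
        have h1 : 1 / 2 < ‖z - c‖ := by nlinarith [norm_nonneg (z - c)]
        refine ⟨hzc, ?_, ?_⟩
        · rcases hc with rfl | rfl
          · exact h1
          · have h2 : ‖(18 : ℂ)‖ ≤ ‖z - -9‖ + ‖z - 9‖ := by
              have e : (18 : ℂ) = (z - -9) - (z - 9) := by ring
              rw [e]
              exact norm_sub_le _ _
            linarith
        · rcases hc with rfl | rfl
          · have h2 : ‖(18 : ℂ)‖ ≤ ‖z + 9‖ + ‖z - 9‖ := by
              have e : (18 : ℂ) = (z + 9) - (z - 9) := by ring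
              rw [e]
              exact norm_sub_le _ _
            linarith
          · simpa using h1)

/-- charts at the outer boundary -/
noncomputable def outerChart (w : ℂ) (hw : ‖w‖ = 10) : BChart :=
  BChart.ofRestr (mob 0 w (by rintro rfl; norm_num at hw) (-1) (by norm_num))
    {z | 19 / 2 < ‖z‖} (isOpen_lt (by fun_prop) (by fun_prop)) (mob_smooth _ _ _ _ _)
    (mob_smooth_symm _ _ _ _ _)
    (by
      intro z hz hz1
      have hpos : 0 < ‖z - 0 + w‖ ^ 2 := by
        have : z - 0 + w ≠ 0 := hz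
        positivity
      rw [mob_zero, le_div_iff₀ hpos, zero_mul, hw, sub_zero]
      simp only [mem_ofPred_eq] at hz1
      have hn9 : ‖(9 : ℂ)‖ = 9 := by simp
      constructor
      · intro h
        have := h.1
        nlinarith [norm_nonneg z]
      · intro h
        have h1 : ‖z‖ ≤ 10 := by nlinarith [norm_nonneg z]
        refine ⟨h1, ?_, ?_⟩
        · have h2 : ‖z‖ ≤ ‖z - 9‖ + ‖(9 : ℂ)‖ := by simpa using norm_add_le (z - 9) 9
          linarith
        · have h2 : ‖z‖ ≤ ‖z + 9‖ + ‖(9 : ℂ)‖ := by simpa using norm_sub_le (z + 9) 9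
          linarith)
    (by
      intro z hz hz1
      have hpos : 0 < ‖z - 0 + w‖ ^ 2 := by
        have : z - 0 + w ≠ 0 := hz
        positivity
      rw [mob_zero, lt_div_iff₀ hpos, zero_mul, hw, sub_zero]
      simp only [mem_ofPred_eq] at hz1
      have hn9 : ‖(9 : ℂ)‖ = 9 := by simp
      constructor
      · intro h
        have := h.1
        nlinarith [norm_nonneg z]
      · intro h
        have h1 : ‖z‖ < 10 := by nlinarith [norm_nonneg z]
        refine ⟨h1, ?_, ?_⟩
        · have h2 : ‖z‖ ≤ ‖z - 9‖ + ‖(9 : ℂ)‖ := by simpa using norm_add_le (z - 9) 9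
          linarith
        · have h2 : ‖z‖ ≤ ‖z + 9‖ + ‖(9 : ℂ)‖ := by simpa using norm_sub_le (z + 9) 9
          linarith)

/-- the chart of the interior -/
noncomputable def intChart : BChart :=
  BChart.ofRestr ((Homeomorph.addRight (20 : ℂ)).trans kap.toHomeomorph).toOpenPartialHomeomorph
    Qint isOpen_Qint
    (by
      have h1 : ContDiff ℝ ∞ (kap : ℂ → E2) := kap.contDiff
      exact (h1.comp (contDiff_id.add contDiff_const)).contDiffOn)
    (by
      have h1 : ContDiff ℝ ∞ (kap.symm : E2 → ℂ) := kap.symm.contDiff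
      exact (h1.add contDiff_const).contDiffOn)
    (by
      intro z _ hz
      have h1 : 0 ≤ kap (z + 20) 0 := by
        rw [kap_zero]
        have := abs_le.1 (Complex.abs_re_le_norm z)
        have := hz.1
        simp only [Complex.add_re, Complex.re_ofNat]
        linarith
      exact ⟨fun _ => h1, fun _ => Qint_subset hz⟩)
    (by
      intro z _ hz
      have h1 : 0 < kap (z + 20) 0 := by
        rw [kap_zero]
        have := abs_le.1 (Complex.abs_re_le_norm z)
        have := hz.1
        simp only [Complex.add_re, Complex.re_ofNat]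
        linarith
      exact ⟨fun _ => h1, fun _ => hz⟩)

/-- charts exist at every point of the domain -/
lemma exists_bchart (z : ℂ) (hz : z ∈ Qset) : ∃ c : BChart, z ∈ c.Φ.source := by
  by_cases h10 : ‖z‖ = 10
  · refine ⟨outerChart z h10, ?_⟩
    refine ⟨?_, ?_⟩
    · show z - 0 + z ≠ 0
      intro h
      have : z = 0 := by
        have : (2 : ℂ) * z = 0 := by linear_combination h
        simpa using this
      rw [this] at h10; simp at h10
    · show 19 / 2 < ‖z‖
      rw [h10]; norm_num
  by_cases h9 : ‖z - 9‖ = 1 / 2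
  · refine ⟨holeChart 9 (z - 9) (Or.inl rfl) h9, ?_⟩
    refine ⟨?_, ?_⟩
    · show z - 9 + (z - 9) ≠ 0
      intro h
      have : z - 9 = 0 := by
        have : (2 : ℂ) * (z - 9) = 0 := by linear_combination h
        simpa using this
      rw [this] at h9; simp at h9
    · rw [mem_ball, dist_eq_norm, h9]; norm_num
  by_cases h9' : ‖z + 9‖ = 1 / 2
  · refine ⟨holeChart (-9) (z + 9) (Or.inr rfl) h9', ?_⟩
    refine ⟨?_, ?_⟩
    · show z - -9 + (z + 9) ≠ 0
      intro h
      have : z + 9 = 0 := by
        have : (2 : ℂ) * (z + 9) = 0 := by linear_combination h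
        simpa using this
      rw [this] at h9'; simp at h9'
    · rw [mem_ball, dist_eq_norm, sub_neg_eq_add, h9']; norm_num
  · refine ⟨intChart, ?_⟩
    refine ⟨mem_univ _, ?_⟩
    exact ⟨lt_of_le_of_ne hz.1 h10, lt_of_le_of_ne hz.2.1 (Ne.symm h9),
      lt_of_le_of_ne hz.2.2 (Ne.symm h9')⟩

end Pool.Agent.Helper23.Dir
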