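import Mathlib
import Pool.Agent.Helper23.Dir.Base

set_option autoImplicit false

open Set Metric Bundle Topology
open scoped Manifold ContDiff

namespace Pool.Agent.Helper23.Dir

/-- sign -/
def sg (i : Bool) : ℝ := if i then 1 else -1

@[simp] lemma sg_true : sg true = 1 := rfl
@[simp] lemma sg_false : sg false = -1 := rfl

/-- The slits: rays issuing from `9` and `-9`. -/
def slit (i : Bool) : Set ℂ := {z | |z.re| = 9 + |z.im| ∧ sg i * z.im ≤ 0}

lemma isClosed_slit (i : Bool) : IsClosed (slit i) := by
  change IsClosed ({z : ℂ | |z.re| = 9 + |z.im|} ∩ {z : ℂ | sg i * z.im ≤ 0})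
  exact (isClosed_eq (by fun_prop) (by fun_prop)).inter (isClosed_le (by fun_prop) (by fun_prop))

lemma norm_sub_nine_of {z : ℂ} (h1 : |z.re| = 9 + |z.im|) (h2 : z.im = 0) : z = 9 ∨ z = -9 := by
  rw [h2, abs_zero, add_zero] at h1
  rcases abs_eq (by norm_num : (0 : ℝ) ≤ 9) |>.1 h1 with h | h
  · left; apply Complex.ext <;> simp [h, h2]
  · right; apply Complex.ext <;> simp [h, h2]

lemma nine_notMem : (9 : ℂ) ∉ Qset := by
  intro h
  have := h.2.1
  norm_num at this

lemma neg_nine_notMem : (-9 : ℂ) ∉ Qset := by
  intro h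
  have := h.2.2
  norm_num at this

/-- points of the domain with `±Im z ≥ 0` avoid the slit `±` -/
lemma notMem_slit {i : Bool} {z : ℂ} (hz : z ∈ Qset) (h : 0 ≤ sg i * z.im) : z ∉ slit i := by
  rintro ⟨h1, h2⟩
  have h3 : z.im = 0 := by
    cases i
    · simp only [sg_false] at h h2; linarith
    · simp only [sg_true] at h h2; linarith
  rcases norm_sub_nine_of h1 h3 with rfl | rfl
  · exact nine_notMem hz
  · exact neg_nine_notMem hz

lemma slit_inter {z : ℂ} (hz : z ∈ Qset) (h1 : z ∈ slit true) (h2 : z ∈ slit false) : False := by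
  have h3 := h1.2
  have h4 := h2.2
  simp only [sg_true, sg_false] at h3 h4
  rcases norm_sub_nine_of h1.1 (by linarith) with rfl | rfl
  · exact nine_notMem hz
  · exact neg_nine_notMem hz

section core

variable {G : Type} [Group G] [TopologicalSpace G] [DiscreteTopology G] (a b : G)

/-- the transition function -/
noncomputable def hfun (z : ℂ) : G :=
  if |z.re| < 9 + |z.im| then a else if 0 < z.re then b else 1

omit [DiscreteTopology G] in
lemma hfun_continuousAt (z : ℂ) (hz : |z.re| ≠ 9 + |z.im|) : ContinuousAt (hfun a b) z := by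
  rcases lt_or_gt_of_ne hz with h | h
  · have : hfun a b =ᶠ[𝓝 z] fun _ => a := by
      have ho : IsOpen {z : ℂ | |z.re| < 9 + |z.im|} := isOpen_lt (by fun_prop) (by fun_prop)
      filter_upwards [ho.mem_nhds h] with y hy
      replace hy : |y.re| < 9 + |y.im| := hy
      simp [hfun, hy]
    exact continuousAt_const.congr this.symm
  · have ho : IsOpen {z : ℂ | 9 + |z.im| < |z.re|} := isOpen_lt (by fun_prop) (by fun_prop)
    rcases lt_trichotomy 0 z.re with h0 | h0 | h0
    · have : hfun a b =ᶠ[𝓝 z] fun _ => b := by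
        have ho2 : IsOpen {z : ℂ | 0 < z.re} := isOpen_lt (by fun_prop) (by fun_prop)
        filter_upwards [ho.mem_nhds h, ho2.mem_nhds h0] with y hy hy2
        replace hy : 9 + |y.im| < |y.re| := hy
        replace hy2 : 0 < y.re := hy2
        simp [hfun, hy.le.not_gt, hy2]
      exact continuousAt_const.congr this.symm
    · rw [← h0, abs_zero] at h
      exfalso
      have := abs_nonneg z.im
      linarith
    · have : hfun a b =ᶠ[𝓝 z] fun _ => 1 := by
        have ho2 : IsOpen {z : ℂ | z.re < 0} := isOpen_lt (by fun_prop) (by fun_prop)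
        filter_upwards [ho.mem_nhds h, ho2.mem_nhds h0] with y hy hy2
        replace hy : 9 + |y.im| < |y.re| := hy
        replace hy2 : y.re < 0 := hy2
        simp [hfun, hy.le.not_gt, hy2.le.not_gt]
      exact continuousAt_const.congr this.symm

/-- the gauge functions -/
noncomputable def tt (i : Bool) (z : ℂ) : G := if i then 1 else hfun a b z

omit [TopologicalSpace G] [DiscreteTopology G] in
@[simp] lemma tt_true (z : ℂ) : tt a b true z = 1 := rfl
omit [TopologicalSpace G] [DiscreteTopology G] in
@[simp] lemma tt_false (z : ℂ) : tt a b false z = hfun a b z := rfl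

omit [DiscreteTopology G] in
lemma tt_continuousOn (i j : Bool) (hij : i ≠ j) (k : Bool) :
    ContinuousOn (tt a b k) ((slit i)ᶜ ∩ (slit j)ᶜ) := by
  intro z hz
  have hne : |z.re| ≠ 9 + |z.im| := by
    intro h
    have h1 : ¬ (sg i * z.im ≤ 0) := fun h' => hz.1 ⟨h, h'⟩
    have h2 : ¬ (sg j * z.im ≤ 0) := fun h' => hz.2 ⟨h, h'⟩
    cases i <;> cases j <;> simp_all
    · linarith
    · linarith
  cases k
  · exact (hfun_continuousAt a b z hne).continuousWithinAt
  · exact continuousWithinAt_const

/-- index -/
noncomputable def ind (z : ℂ) : Bool := if 0 ≤ z.im then true else false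

lemma ind_notMem {z : ℂ} (hz : z ∈ Qset) : z ∉ slit (ind z) := by
  unfold ind
  split_ifs with h
  · exact notMem_slit hz (by simpa using h)
  · exact notMem_slit hz (by simp only [sg_false]; linarith)

/-- The covering space of the planar domain with monodromy given by `a` and `b`. -/
noncomputable def core : FiberBundleCore Bool Qset G where
  baseSet i := {q | (q : ℂ) ∉ slit i}
  isOpen_baseSet i := (isClosed_slit i).isOpen_compl.preimage continuous_subtype_val
  indexAt q := ind q
  mem_baseSet_at q := ind_notMem q.2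
  coordChange i j q g := g * (tt a b i q)⁻¹ * tt a b j q
  coordChange_self i q _ g := by simp
  continuousOn_coordChange i j := by
    by_cases hij : i = j
    · subst hij
      have : (fun p : Qset × G => p.2 * (tt a b i p.1)⁻¹ * tt a b i p.1) = fun p => p.2 := by
        ext p; simp
      rw [this]
      exact continuous_snd.continuousOn
    · have h1 : ∀ k, ContinuousOn (fun p : Qset × G => tt a b k (p.1 : ℂ))
          (({q : Qset | (q : ℂ) ∉ slit i} ∩ {q : Qset | (q : ℂ) ∉ slit j}) ×ˢ univ) := by
        intro k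
        apply (tt_continuousOn a b i j hij k).comp (by fun_prop)
        intro p hp
        exact ⟨hp.1.1, hp.1.2⟩
      have h2 : ContinuousOn (fun p : Qset × G => (p.2, tt a b i (p.1 : ℂ), tt a b j (p.1 : ℂ)))
          (({q : Qset | (q : ℂ) ∉ slit i} ∩ {q : Qset | (q : ℂ) ∉ slit j}) ×ˢ univ) :=
        continuous_snd.continuousOn.prodMk ((h1 i).prodMk (h1 j))
      have h3 : Continuous (fun t : G × G × G => t.1 * t.2.1⁻¹ * t.2.2) :=
        continuous_of_discreteTopology
      exact h3.comp_continuousOn h2
  coordChange_comp i j k q _ g := by simp [mul_assoc]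

/-- The surface. -/
abbrev Surf : Type := TotalSpace G (core a b).Fiber

variable {a b}

/-- the projection to the plane -/
def pr (x : Surf a b) : ℂ := (x.proj : Qset)

lemma continuous_pr : Continuous (pr : Surf a b → ℂ) :=
  continuous_subtype_val.comp (core a b).continuous_proj

lemma pr_mem (x : Surf a b) : pr x ∈ Qset := x.proj.2

/-- the raw fibre coordinate -/
def rawf (x : Surf a b) : G := x.snd

/-- the fibre coordinate in the gauge `i` -/
noncomputable def fib (i : Bool) (x : Surf a b) : G :=
  rawf x * (tt a b (ind (pr x)) (pr x))⁻¹ * tt a b i (pr x)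

variable (a b) in
/-- the sheets -/
noncomputable def sec (i : Bool) (g : G) (q : Qset) : Surf a b :=
  ⟨q, (g * (tt a b i q)⁻¹ * tt a b (ind q) q : G)⟩

@[simp] lemma pr_sec (i : Bool) (g : G) (q : Qset) : pr (sec a b i g q) = q := rfl

@[simp] lemma proj_sec (i : Bool) (g : G) (q : Qset) : (sec a b i g q).proj = q := rfl

@[simp] lemma rawf_sec (i : Bool) (g : G) (q : Qset) :
    rawf (sec a b i g q) = g * (tt a b i q)⁻¹ * tt a b (ind q) q := rfl

@[simp] lemma fib_sec (i : Bool) (g : G) (q : Qset) : fib i (sec a b i g q) = g := by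
  simp [fib, mul_assoc]

lemma surf_ext {x y : Surf a b} (h1 : x.proj = y.proj) (h2 : rawf x = rawf y) : x = y := by
  obtain ⟨q, g⟩ := x
  obtain ⟨q', g'⟩ := y
  obtain rfl : q = q' := h1
  obtain rfl : g = g' := h2
  rfl

@[simp] lemma sec_fib (i : Bool) (x : Surf a b) : sec a b i (fib i x) x.proj = x := by
  apply surf_ext
  · rfl
  · rw [rawf_sec, fib]
    change rawf x * _ * _ * (tt a b i (pr x))⁻¹ * tt a b (ind (pr x)) (pr x) = rawf x
    simp [mul_assoc]

lemma sec_true_eq (g : G) (q : Qset) : sec a b true g q = sec a b false (g * hfun a b q) q := by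
  simp [sec]

lemma localTriv_eq (i : Bool) (x : Surf a b) :
    (core a b).localTriv i x = (x.proj, fib i x) := rfl

lemma localTriv_symm_eq (i : Bool) (q : Qset) (g : G) :
    ((core a b).localTriv i).toOpenPartialHomeomorph.symm (q, g) = sec a b i g q := rfl

lemma sec_continuousOn (i : Bool) (g : G) :
    ContinuousOn (sec a b i g) {q | (q : ℂ) ∉ slit i} := by
  have h := ((core a b).localTriv i).toOpenPartialHomeomorph.continuousOn_symm
  have h2 : ContinuousOn (fun q : Qset => (q, g)) {q | (q : ℂ) ∉ slit i} := by fun_prop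
  exact h.comp h2 (fun q hq => ((core a b).mem_localTriv_target i (q, g)).2 hq)

lemma fib_continuousOn (i : Bool) : ContinuousOn (fib i : Surf a b → G) {x | pr x ∉ slit i} := by
  have h := ((core a b).localTriv i).toOpenPartialHomeomorph.continuousOn
  have h2 := continuous_snd.comp_continuousOn h
  exact h2

/-- The surface is Hausdorff. -/
instance : T2Space (Surf a b) := by
  refine ⟨fun x y hxy => ?_⟩
  by_cases h : x.proj = y.proj
  · have hx : x ∈ ((core a b).localTrivAt x.proj).source :=
      ((core a b).mem_localTrivAt_source x x.proj).2 ((core a b).mem_localTrivAt_baseSet _)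
    have hy : y ∈ ((core a b).localTrivAt x.proj).source := by
      rw [h]
      exact ((core a b).mem_localTrivAt_source y y.proj).2 ((core a b).mem_localTrivAt_baseSet _)
    set e := ((core a b).localTrivAt x.proj).toOpenPartialHomeomorph
    have hne : e x ≠ e y := fun he => hxy (e.injOn hx hy he)
    obtain ⟨u, v, hu, hv, hxu, hyv, huv⟩ := t2_separation hne
    refine ⟨e.source ∩ e ⁻¹' u, e.source ∩ e ⁻¹' v, e.isOpen_inter_preimage hu,
      e.isOpen_inter_preimage hv, ⟨hx, hxu⟩, ⟨hy, hyv⟩, ?_⟩
    rw [Set.disjoint_left]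
    rintro z ⟨_, hz1⟩ ⟨_, hz2⟩
    exact Set.disjoint_left.1 huv hz1 hz2
  · obtain ⟨u, v, hu, hv, hxu, hyv, huv⟩ := t2_separation h
    exact ⟨_, _, hu.preimage (core a b).continuous_proj, hv.preimage (core a b).continuous_proj,
      hxu, hyv, huv.preimage _⟩

/-- The surface is compact. -/
instance [Finite G] : CompactSpace (Surf a b) := by
  refine ⟨?_⟩
  let K : Bool → Set Qset := fun i => {q | 0 ≤ sg i * (q : ℂ).im}
  have hK : ∀ i, IsCompact (K i) := by
    intro i
    have : CompactSpace Qset := isCompact_iff_compactSpace.1 isCompact_Qset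
    exact (isClosed_le (by fun_prop) (by fun_prop)).isCompact
  have hcov : (univ : Set (Surf a b)) = ⋃ p : Bool × G, sec a b p.1 p.2 '' K p.1 := by
    symm
    rw [eq_univ_iff_forall]
    intro x
    rw [mem_iUnion]
    by_cases h : 0 ≤ (pr x).im
    · refine ⟨(true, fib true x), x.proj, ?_, by simp⟩
      simp only [K, sg_true, mem_ofPred_eq]
      change 0 ≤ 1 * (pr x).im
      linarith
    · refine ⟨(false, fib false x), x.proj, ?_, by simp⟩
      simp only [K, sg_false, mem_ofPred_eq]
      change 0 ≤ -1 * (pr x).im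
      linarith
  rw [hcov]
  apply isCompact_iUnion
  rintro ⟨i, g⟩
  apply (hK i).image_of_continuousOn
  apply (sec_continuousOn i g).mono
  intro q hq
  exact notMem_slit q.2 hq

end core

end Pool.Agent.Helper23.Dir
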