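import Mathlib
import Pool.Agent.Helper23.Dir.Cover

set_option autoImplicit false

open Set Metric Bundle Topology
open scoped Manifold ContDiff

namespace Pool.Agent.Helper23.Dir

/-- the slit disk -/
def Dset (i : Bool) : Set ℂ := {z | ‖z‖ ≤ 10 ∧ z ∉ slit i}

/-- the centre of the star -/
noncomputable def ctr (i : Bool) : ℂ := ((9 * sg i : ℝ) : ℂ) * Complex.I

lemma ctr_re (i : Bool) : (ctr i).re = 0 := by simp [ctr]
lemma ctr_im (i : Bool) : (ctr i).im = 9 * sg i := by simp [ctr]

lemma sg_sq (i : Bool) : sg i * sg i = 1 := by cases i <;> simp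

lemma abs_eq_of_sg {i : Bool} {y : ℝ} (h : sg i * y ≤ 0) : |y| = -(sg i * y) := by
  cases i
  · simp only [sg_false] at h ⊢
    rw [abs_of_nonneg (by linarith)]; ring
  · simp only [sg_true] at h ⊢
    rw [abs_of_nonpos (by linarith)]; ring

lemma ctr_mem (i : Bool) : ctr i ∈ Dset i := by
  constructor
  · have : ‖ctr i‖ = 9 := by
      cases i <;> simp [ctr]
    rw [this]; norm_num
  · rintro ⟨h, _⟩
    rw [ctr_re, ctr_im, abs_zero] at h
    have := abs_nonneg (9 * sg i)
    linarith

lemma starConvex_Dset (i : Bool) : StarConvex ℝ (ctr i) (Dset i) := by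
  intro y hy α β hα hβ hαβ
  have hball : α • ctr i + β • y ∈ closedBall (0 : ℂ) 10 := by
    apply (convex_closedBall (0 : ℂ) 10) _ _ hα hβ hαβ
    · simpa using (ctr_mem i).1
    · simpa using hy.1
  refine ⟨by simpa using hball, ?_⟩
  rintro ⟨h1, h2⟩
  have hre : (α • ctr i + β • y).re = β * y.re := by
    simp [ctr_re]
  have him : (α • ctr i + β • y).im = 9 * α * sg i + β * y.im := by
    simp [ctr_im]; ring
  rw [him] at h2
  have h2' : 9 * α + β * (sg i * y.im) ≤ 0 := by
    have : sg i * (9 * α * sg i + β * y.im) = 9 * α * (sg i * sg i) + β * (sg i * y.im) := by ring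
    rw [this, sg_sq] at h2
    linarith
  have habs : |(α • ctr i + β • y).im| = -(9 * α + β * (sg i * y.im)) := by
    rw [him, abs_eq_of_sg h2]
    have : sg i * (9 * α * sg i + β * y.im) = 9 * α * (sg i * sg i) + β * (sg i * y.im) := by ring
    rw [this, sg_sq]; ring
  rw [habs, hre, abs_mul, abs_of_nonneg hβ] at h1
  have hα' : α = 1 - β := by linarith
  subst hα'
  have hβ0 : 0 < β := by
    rcases hβ.lt_or_eq with h | h
    · exact h
    · rw [← h] at h2'; norm_num at h2'
  have hY : sg i * y.im ≤ 0 := by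
    have : β * (sg i * y.im) ≤ 0 := by linarith
    by_contra hcon
    push Not at hcon
    have := mul_pos hβ0 hcon
    linarith
  apply hy.2
  refine ⟨?_, hY⟩
  rw [abs_eq_of_sg hY]
  have : β * |y.re| = β * (9 - sg i * y.im) := by linarith
  have := mul_left_cancel₀ hβ0.ne' this
  linarith

/-- radial retraction out of the holes -/
noncomputable def retr (z : ℂ) : ℂ :=
  z + (max 0 (1 / 2 - ‖z - 9‖) / ‖z - 9‖ : ℝ) • (z - 9) +
    (max 0 (1 / 2 - ‖z + 9‖) / ‖z + 9‖ : ℝ) • (z + 9)

lemma nine_mem_slit (i : Bool) : (9 : ℂ) ∈ slit i := by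
  constructor <;> simp

lemma neg_nine_mem_slit (i : Bool) : (-9 : ℂ) ∈ slit i := by
  constructor <;> simp

lemma retr_continuousOn (i : Bool) : ContinuousOn retr (Dset i) := by
  have h1 : ∀ z ∈ Dset i, ‖z - 9‖ ≠ 0 := by
    intro z hz h
    rw [norm_eq_zero, sub_eq_zero] at h
    rw [h] at hz
    exact hz.2 (nine_mem_slit i)
  have h2 : ∀ z ∈ Dset i, ‖z + 9‖ ≠ 0 := by
    intro z hz h
    rw [norm_eq_zero, add_eq_zero_iff_eq_neg] at h
    rw [h] at hz
    exact hz.2 (neg_nine_mem_slit i)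
  unfold retr
  apply ContinuousOn.add
  · apply ContinuousOn.add continuousOn_id
    apply ContinuousOn.fun_smul _ (by fun_prop)
    exact ContinuousOn.div (by fun_prop) (by fun_prop) h1
  · apply ContinuousOn.fun_smul _ (by fun_prop)
    exact ContinuousOn.div (by fun_prop) (by fun_prop) h2

lemma norm_18 : ∀ z : ℂ, 18 ≤ ‖z + 9‖ + ‖z - 9‖ := by
  intro z
  have h : ‖(18 : ℂ)‖ ≤ ‖z + 9‖ + ‖z - 9‖ := by
    have e : (18 : ℂ) = (z + 9) - (z - 9) := by ring
    rw [e]
    exact norm_sub_le _ _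
  simpa using h

lemma retr_of_mem {z : ℂ} (hz : z ∈ Qset) : retr z = z := by
  unfold retr
  rw [max_eq_left (by linarith [hz.2.1]), max_eq_left (by linarith [hz.2.2])]
  simp

lemma retr_mem {i : Bool} {z : ℂ} (hz : z ∈ Dset i) : retr z ∈ Qset ∧ retr z ∉ slit i := by
  have h18 := norm_18 z
  have hn9 : ‖(9 : ℂ)‖ = 9 := by simp
  by_cases h1 : ‖z - 9‖ < 1 / 2
  · have hne : ‖z - 9‖ ≠ 0 := by
      intro h
      rw [norm_eq_zero, sub_eq_zero] at h
      rw [h] at hz
      exact hz.2 (nine_mem_slit i)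
    have hpos : 0 < ‖z - 9‖ := lt_of_le_of_ne (norm_nonneg _) hne.symm
    set lam : ℝ := 1 / (2 * ‖z - 9‖) with hlam
    have hlam1 : 0 < lam := by positivity
    have hF : retr z = 9 + lam • (z - 9) := by
      unfold retr
      rw [max_eq_left (by linarith : (1 / 2 - ‖z + 9‖) ≤ 0),
        max_eq_right (by linarith : 0 ≤ (1 / 2 - ‖z - 9‖)), zero_div, zero_smul, add_zero]
      have : (1 / 2 - ‖z - 9‖) / ‖z - 9‖ = lam - 1 := by
        rw [hlam]; field_simp
      rw [this, sub_smul, one_smul]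
      ring
    have hnorm : ‖retr z - 9‖ = 1 / 2 := by
      rw [hF, add_sub_cancel_left, norm_smul, Real.norm_eq_abs, abs_of_pos hlam1, hlam]
      field_simp
    have h18' := norm_18 (retr z)
    refine ⟨⟨?_, ?_, ?_⟩, ?_⟩
    · have : ‖retr z‖ ≤ ‖retr z - 9‖ + ‖(9 : ℂ)‖ := by simpa using norm_add_le (retr z - 9) 9
      rw [hnorm, hn9] at this
      linarith
    · rw [hnorm]
    · rw [hnorm] at h18'; linarith
    · rintro ⟨h2, h3⟩
      have hre : (retr z).re = 9 + lam * (z.re - 9) := by rw [hF]; simp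
      have him : (retr z).im = lam * z.im := by rw [hF]; simp
      have hzre : |z.re - 9| < 1 / 2 := by
        have := Complex.abs_re_le_norm (z - 9)
        simp only [Complex.sub_re, Complex.re_ofNat] at this
        linarith
      have hFre : |(retr z).re - 9| ≤ 1 / 2 := by
        have := Complex.abs_re_le_norm (retr z - 9)
        simp only [Complex.sub_re, Complex.re_ofNat] at this
        linarith
      rw [abs_lt] at hzre
      rw [abs_le] at hFre
      apply hz.2
      rw [abs_of_pos (by linarith : 0 < (retr z).re), hre, him, abs_mul, abs_of_pos hlam1] at h2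
      constructor
      · rw [abs_of_pos (by linarith : 0 < z.re)]
        have : lam * (z.re - 9) = lam * |z.im| := by linarith
        have := mul_left_cancel₀ hlam1.ne' this
        linarith
      · rw [him] at h3
        by_contra hcon
        push Not at hcon
        have := mul_pos hlam1 hcon
        nlinarith
  by_cases h2 : ‖z + 9‖ < 1 / 2
  · have hne : ‖z + 9‖ ≠ 0 := by
      intro h
      rw [norm_eq_zero, add_eq_zero_iff_eq_neg] at h
      rw [h] at hz
      exact hz.2 (neg_nine_mem_slit i)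
    have hpos : 0 < ‖z + 9‖ := lt_of_le_of_ne (norm_nonneg _) hne.symm
    set lam : ℝ := 1 / (2 * ‖z + 9‖) with hlam
    have hlam1 : 0 < lam := by positivity
    have hF : retr z = -9 + lam • (z + 9) := by
      unfold retr
      rw [max_eq_left (by linarith : (1 / 2 - ‖z - 9‖) ≤ 0),
        max_eq_right (by linarith : 0 ≤ (1 / 2 - ‖z + 9‖)), zero_div, zero_smul, add_zero]
      have : (1 / 2 - ‖z + 9‖) / ‖z + 9‖ = lam - 1 := by
        rw [hlam]; field_simp
      rw [this, sub_smul, one_smul]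
      ring
    have hnorm : ‖retr z + 9‖ = 1 / 2 := by
      have : retr z + 9 = lam • (z + 9) := by rw [hF]; ring
      rw [this, norm_smul, Real.norm_eq_abs, abs_of_pos hlam1, hlam]
      field_simp
    have h18' := norm_18 (retr z)
    refine ⟨⟨?_, ?_, ?_⟩, ?_⟩
    · have : ‖retr z‖ ≤ ‖retr z + 9‖ + ‖(9 : ℂ)‖ := by simpa using norm_sub_le (retr z + 9) 9
      rw [hnorm, hn9] at this
      linarith
    · rw [hnorm] at h18'; linarith
    · rw [hnorm]
    · rintro ⟨h2, h3⟩
      have hre : (retr z).re = -9 + lam * (z.re + 9) := by rw [hF]; simp; ring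
      have him : (retr z).im = lam * z.im := by rw [hF]; simp
      have hzre : |z.re + 9| < 1 / 2 := by
        have := Complex.abs_re_le_norm (z + 9)
        simp only [Complex.add_re, Complex.re_ofNat] at this
        linarith
      have hFre : |(retr z).re + 9| ≤ 1 / 2 := by
        have := Complex.abs_re_le_norm (retr z + 9)
        simp only [Complex.add_re, Complex.re_ofNat] at this
        linarith
      rw [abs_lt] at hzre
      rw [abs_le] at hFre
      apply hz.2
      rw [abs_of_neg (by linarith : (retr z).re < 0), hre, him, abs_mul, abs_of_pos hlam1] at h2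
      constructor
      · rw [abs_of_neg (by linarith : z.re < 0)]
        have : lam * (-(z.re + 9)) = lam * |z.im| := by linarith
        have := mul_left_cancel₀ hlam1.ne' this
        linarith
      · rw [him] at h3
        by_contra hcon
        push Not at hcon
        have := mul_pos hlam1 hcon
        nlinarith
  · push Not at h1 h2
    have hQ : z ∈ Qset := ⟨hz.1, h1, h2⟩
    rw [retr_of_mem hQ]
    exact ⟨hQ, hz.2⟩

lemma isPreconnected_slitQ (i : Bool) : IsPreconnected (Qset ∩ (slit i)ᶜ) := by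
  have h1 : IsPreconnected (Dset i) :=
    ((starConvex_Dset i).isPathConnected (ctr_mem i)).isConnected.isPreconnected
  have h2 := h1.image retr (retr_continuousOn i)
  have h3 : retr '' Dset i = Qset ∩ (slit i)ᶜ := by
    apply Subset.antisymm
    · rintro _ ⟨z, hz, rfl⟩
      exact retr_mem hz
    · rintro z ⟨hz1, hz2⟩
      exact ⟨z, ⟨hz1.1, hz2⟩, retr_of_mem hz1⟩
  rwa [h3] at h2

section core

variable {G : Type} [Group G] [TopologicalSpace G] [DiscreteTopology G] {a b : G}

lemma isPreconnected_sheet (i : Bool) (g : G) :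
    IsPreconnected (sec a b i g '' {q | (q : ℂ) ∉ slit i}) := by
  apply IsPreconnected.image _ _ (sec_continuousOn i g)
  rw [← IsInducing.subtypeVal.isPreconnected_image]
  have : (Subtype.val : Qset → ℂ) '' {q | (q : ℂ) ∉ slit i} = Qset ∩ (slit i)ᶜ := by
    ext z
    constructor
    · rintro ⟨q, hq, rfl⟩
      exact ⟨q.2, hq⟩
    · rintro ⟨h1, h2⟩
      exact ⟨⟨z, h1⟩, h2, rfl⟩
  rw [this]
  exact isPreconnected_slitQ i

lemma sheet_subset {i : Bool} {g : G} {x₀ : Surf a b} {q : Qset} (hq : (q : ℂ) ∉ slit i)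
    (h : sec a b i g q ∈ connectedComponent x₀) :
    sec a b i g '' {q | (q : ℂ) ∉ slit i} ⊆ connectedComponent x₀ := by
  rw [connectedComponent_eq h]
  exact (isPreconnected_sheet i g).subset_connectedComponent ⟨q, hq, rfl⟩

lemma norm_re (x : ℝ) : ‖(x : ℂ)‖ = |x| := by rw [Complex.norm_real, Real.norm_eq_abs]

/-- base points -/
noncomputable def qL : Qset := ⟨((-39 / 4 : ℝ) : ℂ), by
  refine ⟨?_, ?_, ?_⟩
  · rw [norm_re]; norm_num [abs_of_neg]
  · rw [show (((-39 / 4 : ℝ) : ℂ) - 9) = ((-75 / 4 : ℝ) : ℂ) by push_cast; ring, norm_re]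
    norm_num [abs_of_neg]
  · rw [show (((-39 / 4 : ℝ) : ℂ) + 9) = ((-3 / 4 : ℝ) : ℂ) by push_cast; ring, norm_re]
    norm_num [abs_of_neg]⟩

/-- base points -/
noncomputable def qR : Qset := ⟨((39 / 4 : ℝ) : ℂ), by
  refine ⟨?_, ?_, ?_⟩
  · rw [norm_re]; norm_num [abs_of_pos]
  · rw [show (((39 / 4 : ℝ) : ℂ) - 9) = ((3 / 4 : ℝ) : ℂ) by push_cast; ring, norm_re]
    norm_num [abs_of_pos]
  · rw [show (((39 / 4 : ℝ) : ℂ) + 9) = ((75 / 4 : ℝ) : ℂ) by push_cast; ring, norm_re]
    norm_num [abs_of_pos]⟩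

/-- base points -/
def qM : Qset := ⟨0, by
  refine ⟨?_, ?_, ?_⟩ <;> norm_num⟩

lemma qL_notMem (i : Bool) : (qL : ℂ) ∉ slit i := by
  rintro ⟨h, _⟩
  have h1 : (qL : ℂ) = ((-39 / 4 : ℝ) : ℂ) := rfl
  rw [h1, Complex.ofReal_re, Complex.ofReal_im] at h
  norm_num [abs_of_neg] at h

lemma qR_notMem (i : Bool) : (qR : ℂ) ∉ slit i := by
  rintro ⟨h, _⟩
  have h1 : (qR : ℂ) = ((39 / 4 : ℝ) : ℂ) := rfl
  rw [h1, Complex.ofReal_re, Complex.ofReal_im] at h
  norm_num [abs_of_pos] at h

lemma qM_notMem (i : Bool) : (qM : ℂ) ∉ slit i := by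
  rintro ⟨h, _⟩
  simp [qM] at h

omit [TopologicalSpace G] [DiscreteTopology G] in
lemma hfun_qL : hfun a b (qL : ℂ) = 1 := by
  have h1 : (qL : ℂ) = ((-39 / 4 : ℝ) : ℂ) := rfl
  rw [h1]
  unfold hfun
  rw [Complex.ofReal_re, Complex.ofReal_im]
  norm_num [abs_of_neg]

omit [TopologicalSpace G] [DiscreteTopology G] in
lemma hfun_qR : hfun a b (qR : ℂ) = b := by
  have h1 : (qR : ℂ) = ((39 / 4 : ℝ) : ℂ) := rfl
  rw [h1]
  unfold hfun
  rw [Complex.ofReal_re, Complex.ofReal_im]
  norm_num [abs_of_pos]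

omit [TopologicalSpace G] [DiscreteTopology G] in
lemma hfun_qM : hfun a b (qM : ℂ) = a := by
  simp [hfun, qM]

/-- The surface is connected if `a` and `b` generate the group. -/
theorem connectedSpace_surf (hab : Subgroup.closure ({a, b} : Set G) = ⊤) :
    ConnectedSpace (Surf a b) := by
  set x₀ : Surf a b := sec a b true 1 qM
  have hup : ∀ g : G, sec a b true g '' {q | (q : ℂ) ∉ slit true} ⊆ connectedComponent x₀ →
      ∀ g' : G, (∃ q : Qset, (q : ℂ) ∉ slit true ∧ (q : ℂ) ∉ slit false ∧ g' = g * hfun a b q) →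
      sec a b false g' '' {q | (q : ℂ) ∉ slit false} ⊆ connectedComponent x₀ := by
    rintro g hg g' ⟨q, hq1, hq2, rfl⟩
    apply sheet_subset hq2
    rw [← sec_true_eq]
    exact hg ⟨q, hq1, rfl⟩
  have hdown : ∀ g : G, ∀ g' : G,
      sec a b false g' '' {q | (q : ℂ) ∉ slit false} ⊆ connectedComponent x₀ →
      (∃ q : Qset, (q : ℂ) ∉ slit true ∧ (q : ℂ) ∉ slit false ∧ g' = g * hfun a b q) →
      sec a b true g '' {q | (q : ℂ) ∉ slit true} ⊆ connectedComponent x₀ := by
    rintro g g' hg ⟨q, hq1, hq2, rfl⟩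
    apply sheet_subset hq1
    rw [sec_true_eq]
    exact hg ⟨q, hq2, rfl⟩
  have hL : ∀ g : G, ∃ q : Qset, (q : ℂ) ∉ slit true ∧ (q : ℂ) ∉ slit false ∧
      g = g * hfun a b q := fun g => ⟨qL, qL_notMem _, qL_notMem _, by rw [hfun_qL, mul_one]⟩
  have hM : ∀ g : G, ∃ q : Qset, (q : ℂ) ∉ slit true ∧ (q : ℂ) ∉ slit false ∧
      g * a = g * hfun a b q := fun g => ⟨qM, qM_notMem _, qM_notMem _, by rw [hfun_qM]⟩
  have hR : ∀ g : G, ∃ q : Qset, (q : ℂ) ∉ slit true ∧ (q : ℂ) ∉ slit false ∧
      g * b = g * hfun a b q := fun g => ⟨qR, qR_notMem _, qR_notMem _, by rw [hfun_qR]⟩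
  have hall : ∀ g : G,
      sec a b true g '' {q | (q : ℂ) ∉ slit true} ⊆ connectedComponent x₀ := by
    intro g
    have hg : g ∈ Subgroup.closure ({a, b} : Set G) := by rw [hab]; trivial
    induction hg using Subgroup.closure_induction_right with
    | one => exact sheet_subset (qM_notMem _) mem_connectedComponent
    | mul_right x hx y hy ih =>
      rcases hy with hy | hy
      · rw [hy]
        exact hdown _ _ (hup _ ih _ (hM x)) (hL _)
      · rw [hy]
        exact hdown _ _ (hup _ ih _ (hR x)) (hL _)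
    | mul_inv_cancel x hx y hy ih =>
      have h1 := hup _ ih _ (hL x)
      rcases hy with hy | hy
      · rw [hy]
        apply hdown _ _ h1
        have := hM (x * a⁻¹)
        rwa [inv_mul_cancel_right] at this
      · rw [hy]
        apply hdown _ _ h1
        have := hR (x * b⁻¹)
        rwa [inv_mul_cancel_right] at this
  have hall2 : ∀ g : G,
      sec a b false g '' {q | (q : ℂ) ∉ slit false} ⊆ connectedComponent x₀ :=
    fun g => hup _ (hall g) _ (hL g)
  have huniv : connectedComponent x₀ = univ := by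
    rw [eq_univ_iff_forall]
    intro x
    by_cases h : (x.proj : ℂ) ∈ slit true
    · have h2 : (x.proj : ℂ) ∉ slit false := fun h2 => slit_inter x.proj.2 h h2
      exact hall2 (fib false x) ⟨x.proj, h2, sec_fib _ _⟩
    · exact hall (fib true x) ⟨x.proj, h, sec_fib _ _⟩
  have hpre : PreconnectedSpace (Surf a b) := by
    refine ⟨?_⟩
    rw [← huniv]
    exact isPreconnected_connectedComponent
  exact { toNonempty := ⟨x₀⟩ }

end core

end Pool.Agent.Helper23.Dir
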