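import Mathlib
import Pool.Agent.Helper23.Dir.Conn

set_option autoImplicit false

open Set Metric Bundle Topology
open scoped Manifold ContDiff

namespace Pool.Agent.Helper23.Dir

/-- half-plane coordinates -/
lemma val_symm {y : E2} (hy : 0 ≤ y 0) : ((𝓡∂ 2).symm y : EuclideanHalfSpace 2).1 = y := by
  apply (𝓡∂ 2).right_inv
  rw [range_modelWithCornersEuclideanHalfSpace]
  exact hy

lemma symm_val (y : EuclideanHalfSpace 2) : (𝓡∂ 2).symm y.1 = y := (𝓡∂ 2).left_inv y

namespace BChart

variable (c : BChart)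

lemma symm_mem {y : E2} (hy : y ∈ c.Φ.target) (h0 : 0 ≤ y 0) : c.Φ.symm y ∈ Qset := by
  rw [c.mem_iff _ (c.Φ.map_target hy), c.Φ.right_inv hy]
  exact h0

lemma symm_mem' {y : E2} (hy : y ∈ c.Φ.target) (h0 : 0 < y 0) : c.Φ.symm y ∈ Qint := by
  rw [c.mem_iff' _ (c.Φ.map_target hy), c.Φ.right_inv hy]
  exact h0

open Classical in
/-- the inverse chart, as a map to the domain -/
noncomputable def invQ (y : EuclideanHalfSpace 2) : Qset :=
  if h : c.Φ.symm y.1 ∈ Qset then ⟨_, h⟩ else qM

lemma invQ_val {y : EuclideanHalfSpace 2} (hy : y.1 ∈ c.Φ.target) :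
    (c.invQ y : ℂ) = c.Φ.symm y.1 := by
  have : c.Φ.symm y.1 ∈ Qset := c.symm_mem hy y.2
  simp [invQ, this]

/-- the chart of the domain with values in the half-plane -/
noncomputable def toQ : OpenPartialHomeomorph Qset (EuclideanHalfSpace 2) where
  toFun q := (𝓡∂ 2).symm (c.Φ q)
  invFun y := c.invQ y
  source := {q | (q : ℂ) ∈ c.Φ.source}
  target := {y | y.1 ∈ c.Φ.target}
  map_source' q hq := by
    have h := (c.mem_iff q hq).1 q.2
    simp only [mem_ofPred_eq]
    rw [val_symm h]
    exact c.Φ.map_source hq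
  map_target' y hy := by
    simp only [mem_ofPred_eq]
    rw [c.invQ_val hy]
    exact c.Φ.map_target hy
  left_inv' q hq := by
    have h := (c.mem_iff q hq).1 q.2
    apply Subtype.ext
    rw [c.invQ_val]
    · rw [val_symm h, c.Φ.left_inv hq]
    · rw [val_symm h]
      exact c.Φ.map_source hq
  right_inv' y hy := by
    rw [c.invQ_val hy, c.Φ.right_inv hy]
    exact symm_val y
  open_source := c.Φ.open_source.preimage continuous_subtype_val
  open_target := c.Φ.open_target.preimage continuous_subtype_val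
  continuousOn_toFun := by
    apply (𝓡∂ 2).continuous_symm.comp_continuousOn
    exact c.Φ.continuousOn.comp continuous_subtype_val.continuousOn fun q hq => hq
  continuousOn_invFun := by
    rw [IsInducing.subtypeVal.continuousOn_iff]
    have h : ContinuousOn (fun y : EuclideanHalfSpace 2 => c.Φ.symm y.1)
        {y | y.1 ∈ c.Φ.target} :=
      c.Φ.continuousOn_symm.comp continuous_subtype_val.continuousOn fun q hq => hq
    exact h.congr fun y hy => c.invQ_val hy

end BChart

section surf

variable {G : Type} [Group G] [TopologicalSpace G] [DiscreteTopology G] {a b : G}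

variable (a b) in
/-- sheets as open partial homeomorphisms -/
noncomputable def sheet (i : Bool) (g : G) : OpenPartialHomeomorph (Surf a b) Qset where
  toFun x := x.proj
  invFun q := sec a b i g q
  source := {x | pr x ∉ slit i ∧ fib i x = g}
  target := {q | (q : ℂ) ∉ slit i}
  map_source' x hx := hx.1
  map_target' q hq := ⟨hq, fib_sec i g q⟩
  left_inv' x hx := by
    rw [← hx.2]; exact sec_fib i x
  right_inv' q hq := rfl
  open_source := by
    have ho : IsOpen {x : Surf a b | pr x ∉ slit i} :=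
      (isClosed_slit i).isOpen_compl.preimage continuous_pr
    exact (fib_continuousOn i).isOpen_inter_preimage ho (isOpen_discrete {g})
  open_target := (isClosed_slit i).isOpen_compl.preimage continuous_subtype_val
  continuousOn_toFun := (core a b).continuous_proj.continuousOn
  continuousOn_invFun := sec_continuousOn i g

variable (a b) in
/-- charts of the surface -/
noncomputable def mchart (i : Bool) (g : G) (c : BChart) :
    OpenPartialHomeomorph (Surf a b) (EuclideanHalfSpace 2) :=
  (sheet a b i g).trans c.toQ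

lemma mem_mchart_source {i : Bool} {g : G} {c : BChart} {x : Surf a b} :
    x ∈ (mchart a b i g c).source ↔ pr x ∉ slit i ∧ fib i x = g ∧ pr x ∈ c.Φ.source := by
  constructor
  · rintro ⟨h1, h2⟩
    exact ⟨h1.1, h1.2, h2⟩
  · rintro ⟨h1, h2, h3⟩
    exact ⟨⟨h1, h2⟩, h3⟩

lemma mchart_val {i : Bool} {g : G} {c : BChart} {x : Surf a b}
    (hx : x ∈ (mchart a b i g c).source) : (mchart a b i g c x).1 = c.Φ (pr x) := by
  rw [mem_mchart_source] at hx
  change ((𝓡∂ 2).symm (c.Φ (pr x)) : EuclideanHalfSpace 2).1 = _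
  exact val_symm ((c.mem_iff _ hx.2.2).1 (pr_mem x))

lemma pr_mchart_symm {i : Bool} {g : G} {c : BChart} {y : EuclideanHalfSpace 2}
    (hy : y ∈ (mchart a b i g c).target) :
    y.1 ∈ c.Φ.target ∧ pr ((mchart a b i g c).symm y) = c.Φ.symm y.1 := by
  have h1 := (mchart a b i g c).map_target hy
  have h2 := mchart_val h1
  rw [(mchart a b i g c).right_inv hy] at h2
  rw [mem_mchart_source] at h1
  constructor
  · rw [h2]; exact c.Φ.map_source h1.2.2
  · rw [h2, c.Φ.left_inv h1.2.2]

/-- a choice of base charts -/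
noncomputable def bc (x : Surf a b) : BChart := Classical.choose (exists_bchart (pr x) (pr_mem x))

lemma bc_mem (x : Surf a b) : pr x ∈ (bc x).Φ.source :=
  Classical.choose_spec (exists_bchart (pr x) (pr_mem x))

/-- The charts of the surface. -/
noncomputable instance : ChartedSpace (EuclideanHalfSpace 2) (Surf a b) where
  atlas := {e | ∃ i g c, e = mchart a b i g c}
  chartAt x := mchart a b (ind (pr x)) (fib (ind (pr x)) x) (bc x)
  mem_chart_source x := mem_mchart_source.2 ⟨ind_notMem (pr_mem x), rfl, bc_mem x⟩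
  chart_mem_atlas x := ⟨_, _, _, rfl⟩

lemma chartAt_def (x : Surf a b) : chartAt (EuclideanHalfSpace 2) x =
    mchart a b (ind (pr x)) (fib (ind (pr x)) x) (bc x) := rfl

/-- The surface is a smooth surface with boundary. -/
instance : IsManifold (𝓡∂ 2) ∞ (Surf a b) := by
  apply isManifold_of_contDiffOn
  rintro _ _ ⟨i, g, c, rfl⟩ ⟨j, h, d, rfl⟩
  have h1 : ContDiffOn ℝ ∞ (fun y => d.Φ (c.Φ.symm y)) (c.Φ.target ∩ c.Φ.symm ⁻¹' d.Φ.source) := by
    apply d.smooth.comp (c.smooth_symm.mono inter_subset_left)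
    exact fun y hy => hy.2
  have key : ∀ y ∈ (𝓡∂ 2).symm ⁻¹' ((mchart a b i g c).symm ≫ₕ mchart a b j h d).source ∩
      range (𝓡∂ 2), y ∈ c.Φ.target ∧ c.Φ.symm y ∈ d.Φ.source ∧
        ((𝓡∂ 2) ∘ ((mchart a b i g c).symm ≫ₕ mchart a b j h d) ∘ (𝓡∂ 2).symm) y =
          d.Φ (c.Φ.symm y) := by
    rintro y ⟨hy1, hy2⟩
    rw [range_modelWithCornersEuclideanHalfSpace] at hy2
    have hv := val_symm hy2
    set y' : EuclideanHalfSpace 2 := (𝓡∂ 2).symm y
    have hy1' : y' ∈ (mchart a b i g c).target ∧
        (mchart a b i g c).symm y' ∈ (mchart a b j h d).source := by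
      rw [mem_preimage, OpenPartialHomeomorph.trans_source] at hy1
      exact hy1
    have h2 := pr_mchart_symm hy1'.1
    have h3 := mem_mchart_source.1 hy1'.2
    have h4 := mchart_val hy1'.2
    rw [hv] at h2
    refine ⟨h2.1, ?_, ?_⟩
    · rw [← h2.2]; exact h3.2.2
    · change (mchart a b j h d ((mchart a b i g c).symm y')).1 = _
      rw [h4, h2.2]
  exact (h1.mono fun y hy => ⟨(key y hy).1, (key y hy).2.1⟩).congr fun y hy => (key y hy).2.2

/-- the extended chart in terms of the base chart -/
lemma ext_apply {x y : Surf a b} (hy : y ∈ (chartAt (EuclideanHalfSpace 2) x).source) :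
    extChartAt (𝓡∂ 2) x y = (bc x).Φ (pr y) :=
  mchart_val hy

lemma mem_ext_target {x : Surf a b} {y : E2} (hy : y ∈ (extChartAt (𝓡∂ 2) x).target) :
    0 ≤ y 0 ∧ y ∈ (bc x).Φ.target ∧ pr ((extChartAt (𝓡∂ 2) x).symm y) = (bc x).Φ.symm y := by
  rw [extChartAt_target] at hy
  obtain ⟨hy1, hy2⟩ := hy
  rw [range_modelWithCornersEuclideanHalfSpace] at hy2
  have hv := val_symm hy2
  have h := pr_mchart_symm (a := a) (b := b) hy1
  rw [hv] at h
  exact ⟨hy2, h.1, h.2⟩

/-- the interior of the surface lies over the interior of the domain -/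
lemma mem_interior_iff (x : Surf a b) : x ∈ (𝓡∂ 2).interior (Surf a b) ↔ pr x ∈ Qint := by
  have h1 : x ∈ (chartAt (EuclideanHalfSpace 2) x).source := mem_chart_source _ x
  change extChartAt (𝓡∂ 2) x x ∈ interior (range (𝓡∂ 2)) ↔ _
  rw [interior_range_modelWithCornersEuclideanHalfSpace, ext_apply h1]
  exact ((bc x).mem_iff' _ (bc_mem x)).symm

end surf

end Pool.Agent.Helper23.Dir
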