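import Mathlib
import Pool.Agent.Helper23.Dir.Defs

set_option autoImplicit false

open Set Metric Bundle Topology
open scoped Manifold ContDiff

namespace Pool.Agent.Helper23.Dir

section generic

variable {M : Type} [TopologicalSpace M] [ChartedSpace (EuclideanHalfSpace 2) M]
  [IsManifold (𝓡∂ 2) ∞ M]

/-- the differential, as a linear map between vector spaces -/
noncomputable def Df (f : M → ℂ) (x : M) : E2 →L[ℝ] ℂ := mfderiv (𝓡∂ 2) 𝓘(ℝ, ℂ) f x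

/-- the bilinear form `⟨A v, A w⟩` -/
noncomputable def bil (A : E2 →L[ℝ] ℂ) : E2 →L[ℝ] E2 →L[ℝ] ℝ :=
  (innerSL ℝ : ℂ →L[ℝ] ℂ →L[ℝ] ℝ).bilinearComp A A

lemma bil_apply (A : E2 →L[ℝ] ℂ) (v w : E2) : bil A v w = inner ℝ (A v) (A w) := rfl

lemma contDiff_bil : ContDiff ℝ ∞ bil := by
  have hflip : ContDiff ℝ ∞ (ContinuousLinearMap.flipₗᵢ ℝ E2 ℂ ℝ) := by fun_prop
  have hflip3 : ContDiff ℝ ∞ (ContinuousLinearMap.flipₗᵢ ℝ E2 E2 ℝ) := by fun_prop
  have h1 : ContDiff ℝ ∞ (fun A : E2 →L[ℝ] ℂ => (innerSL ℝ : ℂ →L[ℝ] ℂ →L[ℝ] ℝ).comp A) :=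
    contDiff_const.clm_comp contDiff_id
  have h2 : ContDiff ℝ ∞ (fun A : E2 →L[ℝ] ℂ =>
      ((innerSL ℝ : ℂ →L[ℝ] ℂ →L[ℝ] ℝ).comp A).flip) := hflip.comp h1
  have h3 : ContDiff ℝ ∞ (fun A : E2 →L[ℝ] ℂ =>
      (((innerSL ℝ : ℂ →L[ℝ] ℂ →L[ℝ] ℝ).comp A).flip).comp A) := h2.clm_comp contDiff_id
  exact hflip3.comp h3

/-- the pulled back scalar product -/
noncomputable def pullInner (f : M → ℂ) (x : M) :
    TangentSpace (𝓡∂ 2) x →L[ℝ] TangentSpace (𝓡∂ 2) x →L[ℝ] ℝ := bil (Df f x)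

omit [IsManifold (𝓡∂ 2) ∞ M] in
lemma pullInner_apply (f : M → ℂ) (x : M) (v w : TangentSpace (𝓡∂ 2) x) :
    pullInner f x v w = inner ℝ (Df f x v) (Df f x w) := rfl

lemma contMDiff_pullInner (f : M → ℂ) (hf : ContMDiff (𝓡∂ 2) 𝓘(ℝ, ℂ) ∞ f) :
    ContMDiff (𝓡∂ 2) ((𝓡∂ 2).prod 𝓘(ℝ, E2 →L[ℝ] E2 →L[ℝ] ℝ)) ∞
      (fun x : M => TotalSpace.mk' (E2 →L[ℝ] E2 →L[ℝ] ℝ)
        (E := fun x : M => TangentSpace (𝓡∂ 2) x →L[ℝ] TangentSpace (𝓡∂ 2) x →L[ℝ] ℝ)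
        x (pullInner f x)) := by
  intro x₀
  have h1 := (hf x₀).mfderiv_const (m := ∞) (by simp)
  rw [contMDiffAt_section]
  have h2 : ContMDiffAt (𝓡∂ 2) 𝓘(ℝ, E2 →L[ℝ] E2 →L[ℝ] ℝ) ∞
      (fun x => bil (inTangentCoordinates (𝓡∂ 2) 𝓘(ℝ, ℂ) id f
        (mfderiv (𝓡∂ 2) 𝓘(ℝ, ℂ) f) x₀ x)) x₀ :=
    contDiff_bil.contMDiff.contMDiffAt.comp x₀ h1
  apply h2.congr_of_eventuallyEq
  have hmem : (trivializationAt E2 (TangentSpace (𝓡∂ 2) : M → Type) x₀).baseSet ∈ 𝓝 x₀ :=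
    (trivializationAt E2 (TangentSpace (𝓡∂ 2) : M → Type) x₀).open_baseSet.mem_nhds
      (mem_baseSet_trivializationAt _ _ _)
  filter_upwards [hmem] with x hx
  ext v w
  have hx' : x ∈ (trivializationAt (E2 →L[ℝ] ℝ)
      (fun x : M => TangentSpace (𝓡∂ 2) x →L[ℝ] ℝ) x₀).baseSet := by
    simpa using hx
  simp only [hom_trivializationAt_apply, ContinuousLinearMap.inCoordinates, inTangentCoordinates]
  simp only [ContinuousLinearMap.comp_apply, Trivialization.continuousLinearMapAt_apply]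
  rw [Trivialization.coe_linearMapAt_of_mem _ hx']
  simp [hom_trivializationAt_apply, ContinuousLinearMap.inCoordinates]
  rfl

omit [IsManifold (𝓡∂ 2) ∞ M] in
lemma pullInner_self (f : M → ℂ) (x : M) (v : TangentSpace (𝓡∂ 2) x) :
    pullInner f x v v = ‖Df f x v‖ ^ 2 := by
  rw [pullInner_apply, real_inner_self_eq_norm_sq]

/-- The Riemannian metric pulled back by an immersion into the plane. -/
noncomputable def pullMetric (f : M → ℂ) (hf : ContMDiff (𝓡∂ 2) 𝓘(ℝ, ℂ) ∞ f)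
    (hinj : ∀ x, Function.Injective (Df f x)) : RMetric M where
  inner x := pullInner f x
  symm x v w := by
    rw [pullInner_apply, pullInner_apply, real_inner_comm]
  pos x v hv := by
    rw [pullInner_self]
    have h1 : Df f x v ≠ 0 := by
      intro h
      apply hv
      apply hinj x
      rw [h]
      exact (map_zero (Df f x)).symm
    positivity
  isVonNBounded x := by
    obtain ⟨K, hK, hKa⟩ := LinearMap.exists_antilipschitzWith (Df f x).toLinearMap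
      (LinearMap.ker_eq_bot.2 (hinj x))
    have hb : Bornology.IsBounded {v : E2 | ‖Df f x v‖ ^ 2 < 1} := by
      rw [isBounded_iff_forall_norm_le]
      refine ⟨K, fun v hv => ?_⟩
      have h1 : ‖Df f x v‖ < 1 := by
        have h2 : ‖Df f x v‖ ^ 2 < 1 ^ 2 := by simpa using hv
        exact lt_of_pow_lt_pow_left₀ 2 zero_le_one h2
      have h3 : ‖v‖ ≤ K * ‖Df f x v‖ := hKa.le_mul_norm (map_zero _) v
      have h4 : (K : ℝ) * ‖Df f x v‖ ≤ K * 1 := mul_le_mul_of_nonneg_left h1.le K.2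
      linarith
    have h2 : Bornology.IsVonNBounded ℝ {v : E2 | ‖Df f x v‖ ^ 2 < 1} :=
      NormedSpace.isVonNBounded_of_isBounded ℝ hb
    have h3 : {v : TangentSpace (𝓡∂ 2) x | pullInner f x v v < 1} =
        {v : E2 | ‖Df f x v‖ ^ 2 < 1} := by
      ext v
      change pullInner f x v v < 1 ↔ ‖Df f x v‖ ^ 2 < 1
      rw [pullInner_self]
    rw [h3]
    exact h2
  contMDiff := contMDiff_pullInner f hf

lemma pullMetric_inner (f : M → ℂ) (hf : ContMDiff (𝓡∂ 2) 𝓘(ℝ, ℂ) ∞ f)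
    (hinj : ∀ x, Function.Injective (Df f x)) (x : M) :
    (pullMetric f hf hinj).inner x = pullInner f x := rfl

end generic

end Pool.Agent.Helper23.Dir
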