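import Mathlib
import Pool.Agent.Helper23.Dir.Charts
import Pool.Agent.Helper23.Dir.Metric

set_option autoImplicit false

open Set Metric Bundle Topology
open scoped Manifold ContDiff

namespace Pool.Agent.Helper23.Dir

lemma BChart.hasFDerivAt_symm (c : BChart) {y : E2} (hy : y ∈ c.Φ.target) :
    HasFDerivAt c.Φ.symm (fderiv ℝ c.Φ.symm y) y :=
  ((c.smooth_symm.contDiffAt (c.Φ.open_target.mem_nhds hy)).differentiableAt (by simp)).hasFDerivAt

lemma BChart.hasFDerivAt (c : BChart) {z : ℂ} (hz : z ∈ c.Φ.source) :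
    HasFDerivAt c.Φ (fderiv ℝ c.Φ z) z :=
  ((c.smooth.contDiffAt (c.Φ.open_source.mem_nhds hz)).differentiableAt (by simp)).hasFDerivAt

lemma BChart.fderiv_comp (c : BChart) {y : E2} (hy : y ∈ c.Φ.target) :
    (fderiv ℝ c.Φ (c.Φ.symm y)).comp (fderiv ℝ c.Φ.symm y) = ContinuousLinearMap.id ℝ E2 := by
  have h1 := (c.hasFDerivAt (c.Φ.map_target hy)).comp y (c.hasFDerivAt_symm hy)
  have h2 : (c.Φ ∘ c.Φ.symm) =ᶠ[𝓝 y] id := by
    filter_upwards [c.Φ.open_target.mem_nhds hy] with w hw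
    exact c.Φ.right_inv hw
  exact (h1.congr_of_eventuallyEq h2.symm).unique (hasFDerivAt_id y)

lemma BChart.injective_fderiv_symm (c : BChart) {y : E2} (hy : y ∈ c.Φ.target) :
    Function.Injective (fderiv ℝ c.Φ.symm y) := by
  intro v w hvw
  have h := c.fderiv_comp hy
  have h1 := congrArg (fun L : E2 →L[ℝ] E2 => L v) h
  have h2 := congrArg (fun L : E2 →L[ℝ] E2 => L w) h
  simp only [ContinuousLinearMap.comp_apply, ContinuousLinearMap.id_apply] at h1 h2
  rw [← h1, ← h2, hvw]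

section surf

variable {G : Type} [Group G] [TopologicalSpace G] [DiscreteTopology G] {a b : G}

lemma pr_comp_symm_eq (x : Surf a b) : EqOn (pr ∘ (extChartAt (𝓡∂ 2) x).symm) (bc x).Φ.symm
    (extChartAt (𝓡∂ 2) x).target := fun _ hy => (mem_ext_target hy).2.2

theorem contMDiff_pr : ContMDiff (𝓡∂ 2) 𝓘(ℝ, ℂ) ∞ (pr : Surf a b → ℂ) := by
  intro x
  rw [contMDiffAt_iff]
  refine ⟨continuous_pr.continuousAt, ?_⟩
  have hx : extChartAt (𝓡∂ 2) x x ∈ (extChartAt (𝓡∂ 2) x).target := mem_extChartAt_target x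
  have h1 := mem_ext_target hx
  have h2 : ContDiffAt ℝ ∞ (bc x).Φ.symm (extChartAt (𝓡∂ 2) x x) :=
    (bc x).smooth_symm.contDiffAt ((bc x).Φ.open_target.mem_nhds h1.2.1)
  refine h2.contDiffWithinAt.congr_of_eventuallyEq ?_ ?_
  · filter_upwards [extChartAt_target_mem_nhdsWithin (I := 𝓡∂ 2) x] with y hy
    exact pr_comp_symm_eq x hy
  · exact pr_comp_symm_eq x hx

lemma Df_comp (x : Surf a b) {y : E2} (hy : y ∈ (extChartAt (𝓡∂ 2) x).target) (v : E2) :
    Df pr ((extChartAt (𝓡∂ 2) x).symm y)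
      (mfderivWithin 𝓘(ℝ, E2) (𝓡∂ 2) (extChartAt (𝓡∂ 2) x).symm (range (𝓡∂ 2)) y v) =
    fderiv ℝ (bc x).Φ.symm y v := by
  have hU : UniqueMDiffWithinAt 𝓘(ℝ, E2) (range (𝓡∂ 2)) y :=
    (𝓡∂ 2).uniqueMDiffOn _ (extChartAt_target_subset_range x hy)
  have hU' : UniqueDiffWithinAt ℝ (range (𝓡∂ 2)) y :=
    (𝓡∂ 2).uniqueDiffOn _ (extChartAt_target_subset_range x hy)
  have h1 := mfderiv_comp_mfderivWithin (I := 𝓘(ℝ, E2)) (I' := 𝓡∂ 2) (I'' := 𝓘(ℝ, ℂ))
    (g := (pr : Surf a b → ℂ)) (f := (extChartAt (𝓡∂ 2) x).symm) y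
    ((contMDiff_pr _).mdifferentiableAt (by simp))
    (mdifferentiableWithinAt_extChartAt_symm (I := 𝓡∂ 2) hy) hU
  have h2 : mfderivWithin 𝓘(ℝ, E2) 𝓘(ℝ, ℂ) ((pr : Surf a b → ℂ) ∘ (extChartAt (𝓡∂ 2) x).symm)
      (range (𝓡∂ 2)) y = fderiv ℝ (bc x).Φ.symm y := by
    rw [mfderivWithin_eq_fderivWithin]
    rw [← ((bc x).hasFDerivAt_symm (mem_ext_target hy).2.1).differentiableAt.fderivWithin hU']
    apply Filter.EventuallyEq.fderivWithin_eq
    · filter_upwards [extChartAt_target_mem_nhdsWithin_of_mem (I := 𝓡∂ 2) hy] with w hw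
      exact pr_comp_symm_eq x hw
    · exact pr_comp_symm_eq x hy
  rw [h2] at h1
  rw [h1]
  rfl

lemma injective_Df (x : Surf a b) : Function.Injective (Df (pr : Surf a b → ℂ) x) := by
  set y := extChartAt (𝓡∂ 2) x x with hydef
  have hy : y ∈ (extChartAt (𝓡∂ 2) x).target := mem_extChartAt_target x
  have hxy : (extChartAt (𝓡∂ 2) x).symm y = x := extChartAt_to_inv x
  obtain ⟨S, P, hSP, hS⟩ : ∃ S P : E2 →L[ℝ] E2, (∀ v, S (P v) = v) ∧
      ∀ v, Df (pr : Surf a b → ℂ) x (S v) = fderiv ℝ (bc x).Φ.symm y v := by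
    refine ⟨mfderivWithin 𝓘(ℝ, E2) (𝓡∂ 2) (extChartAt (𝓡∂ 2) x).symm (range (𝓡∂ 2)) y,
      mfderiv (𝓡∂ 2) 𝓘(ℝ, E2) (extChartAt (𝓡∂ 2) x) ((extChartAt (𝓡∂ 2) x).symm y), ?_, ?_⟩
    · intro v
      have h2 := mfderivWithin_extChartAt_symm_comp_mfderiv_extChartAt (I := 𝓡∂ 2) hy
      exact congrArg (fun L : E2 →L[ℝ] E2 => L v) h2
    · intro v
      have h1 := Df_comp x hy v
      rw [hxy] at h1
      exact h1
  intro v w hvw
  rw [← hSP v, ← hSP w] at hvw
  rw [hS, hS] at hvw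
  have h3 := (bc x).injective_fderiv_symm (mem_ext_target hy).2.1 hvw
  rw [← hSP v, ← hSP w, h3]

/-- The flat metric of the surface. -/
noncomputable def gm : RMetric (Surf a b) := pullMetric pr contMDiff_pr injective_Df

open Classical in
variable (a b) in
/-- sections defined on the whole plane (with a junk value outside the domain) -/
noncomputable def secC (i : Bool) (g : G) (z : ℂ) : Surf a b :=
  if h : z ∈ Qset then sec a b i g ⟨z, h⟩ else sec a b i g qM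

lemma secC_of_mem {i : Bool} {g : G} {z : ℂ} (h : z ∈ Qset) :
    secC a b i g z = sec a b i g ⟨z, h⟩ := by
  simp [secC, h]

lemma pr_secC {i : Bool} {g : G} {z : ℂ} (h : z ∈ Qset) : pr (secC a b i g z) = z := by
  rw [secC_of_mem h]; rfl

lemma fib_secC {i : Bool} {g : G} {z : ℂ} (h : z ∈ Qset) : fib i (secC a b i g z) = g := by
  rw [secC_of_mem h, fib_sec]

lemma secC_fib {i : Bool} (x : Surf a b) : secC a b i (fib i x) (pr x) = x := by
  rw [secC_of_mem (pr_mem x)]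
  exact sec_fib i x

lemma secC_continuousOn (i : Bool) (g : G) : ContinuousOn (secC a b i g) (Qset ∩ (slit i)ᶜ) := by
  rw [continuousOn_iff_continuous_domRestrict]
  have h1 : Continuous (fun z : (Qset ∩ (slit i)ᶜ : Set ℂ) => (⟨z.1, z.2.1⟩ : Qset)) := by
    fun_prop
  have h2 := (sec_continuousOn (a := a) (b := b) i g).comp_continuous h1 (fun z => z.2.2)
  convert h2 using 1
  ext1 z
  exact secC_of_mem z.2.1

/-- The smooth part of the sheets. -/
def Oset (i : Bool) : Set ℂ := Qint ∩ (slit i)ᶜ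

lemma isOpen_Oset (i : Bool) : IsOpen (Oset i) := isOpen_Qint.inter (isClosed_slit i).isOpen_compl

lemma secC_continuousAt {i : Bool} (g : G) {z : ℂ} (hz : z ∈ Oset i) :
    ContinuousAt (secC a b i g) z :=
  ((secC_continuousOn i g).mono (inter_subset_inter_left _ Qint_subset)).continuousAt
    ((isOpen_Oset i).mem_nhds hz)

lemma secC_contMDiffAt {i : Bool} (g : G) {z : ℂ} (hz : z ∈ Oset i) :
    ContMDiffAt 𝓘(ℝ, ℂ) (𝓡∂ 2) ∞ (secC a b i g) z := by
  have hzQ : z ∈ Qset := Qint_subset hz.1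
  rw [contMDiffAt_iff_target]
  refine ⟨secC_continuousAt g hz, ?_⟩
  set x := secC a b i g z with hx
  have hbc : z ∈ (bc x).Φ.source := by
    have := bc_mem x
    rwa [hx, pr_secC hzQ] at this
  have h2 : ContMDiffAt 𝓘(ℝ, ℂ) 𝓘(ℝ, E2) ∞ (bc x).Φ z :=
    ((bc x).smooth.contDiffAt ((bc x).Φ.open_source.mem_nhds hbc)).contMDiffAt
  apply h2.congr_of_eventuallyEq
  have h3 : (secC a b i g) ⁻¹' (chartAt (EuclideanHalfSpace 2) x).source ∈ 𝓝 z :=
    (secC_continuousAt g hz).preimage_mem_nhds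
      ((chartAt (EuclideanHalfSpace 2) x).open_source.mem_nhds (mem_chart_source _ x))
  filter_upwards [h3, (isOpen_Oset i).mem_nhds hz] with w hw1 hw2
  change extChartAt (𝓡∂ 2) x (secC a b i g w) = _
  rw [ext_apply hw1, pr_secC (Qint_subset hw2.1)]

end surf

end Pool.Agent.Helper23.Dir
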