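import Mathlib
import Pool.Agent.Helper23.Dir.Smooth

set_option autoImplicit false

open Set Metric Bundle Topology MeasureTheory
open scoped Manifold ContDiff ENNReal

namespace Pool.Agent.Helper23.Dir

/-- upper and lower halves of the interior of the domain -/
def Hset (i : Bool) : Set ℂ := {z | z ∈ Qint ∧ 0 < sg i * z.im}

lemma isOpen_Hset (i : Bool) : IsOpen (Hset i) := by
  change IsOpen (Qint ∩ {z : ℂ | 0 < sg i * z.im})
  exact isOpen_Qint.inter (isOpen_lt (by fun_prop) (by fun_prop))

lemma measurableSet_Hset (i : Bool) : MeasurableSet (Hset i) := (isOpen_Hset i).measurableSet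

lemma Hset_subset_Oset (i : Bool) : Hset i ⊆ Oset i := fun _ hz =>
  ⟨hz.1, notMem_slit (Qint_subset hz.1) hz.2.le⟩

lemma Hset_subset_Q (i : Bool) : Hset i ⊆ Qset := fun _ hz => Qint_subset hz.1

lemma Hset_disjoint {i j : Bool} (hij : i ≠ j) {z : ℂ} (h1 : z ∈ Hset i) (h2 : z ∈ Hset j) :
    False := by
  have h3 := h1.2
  have h4 := h2.2
  cases i <;> cases j <;> simp at h3 h4 hij
  · linarith
  · linarith

/-- the two halves have full measure in the domain -/
lemma ae_Hset : volume (Qset \ (Hset true ∪ Hset false)) = 0 := by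
  have h1 : Qset \ (Hset true ∪ Hset false) ⊆
      (sphere 0 10 ∪ sphere 9 (1 / 2) ∪ sphere (-9) (1 / 2)) ∪
        ((LinearMap.ker Complex.imLm : Submodule ℝ ℂ) : Set ℂ) := by
    rintro z ⟨hz, hz2⟩
    by_cases hint : z ∈ Qint
    · right
      rw [SetLike.mem_coe, LinearMap.mem_ker]
      by_contra hne
      change z.im ≠ 0 at hne
      apply hz2
      rcases lt_or_gt_of_ne hne with h | h
      · right
        exact ⟨hint, by simp only [sg_false]; linarith⟩
      · left
        exact ⟨hint, by simp only [sg_true]; linarith⟩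
    · left
      by_contra hcon
      simp only [mem_union, mem_sphere_iff_norm, not_or, sub_zero, sub_neg_eq_add] at hcon
      apply hint
      exact ⟨lt_of_le_of_ne hz.1 hcon.1.1, lt_of_le_of_ne hz.2.1 (Ne.symm hcon.1.2),
        lt_of_le_of_ne hz.2.2 (Ne.symm hcon.2)⟩
  apply measure_mono_null h1
  rw [measure_union_null_iff, measure_union_null_iff, measure_union_null_iff]
  refine ⟨⟨⟨Measure.addHaar_sphere _ _ _, Measure.addHaar_sphere _ _ _⟩,
    Measure.addHaar_sphere _ _ _⟩, ?_⟩
  apply Measure.addHaar_submodule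
  intro h
  have : Complex.I ∈ (LinearMap.ker Complex.imLm : Submodule ℝ ℂ) := by rw [h]; trivial
  rw [LinearMap.mem_ker] at this
  simp at this

section surf

variable {G : Type} [Group G] [TopologicalSpace G] [DiscreteTopology G] {a b : G}

noncomputable instance : MeasurableSpace (Surf a b) := borel _
instance : BorelSpace (Surf a b) := ⟨rfl⟩

variable (a b) in
/-- a piece of the surface -/
noncomputable def pc (i : Bool) (g : G) (z : Hset i) : Surf a b := secC a b i g z

lemma isOpenEmbedding_pc (i : Bool) (g : G) : IsOpenEmbedding (pc a b i g) := by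
  apply IsOpenEmbedding.of_continuous_injective_isOpenMap
  · rw [continuous_iff_continuousAt]
    intro z
    exact (secC_continuousAt g (Hset_subset_Oset i z.2)).comp continuous_subtype_val.continuousAt
  · intro z w h
    have h2 := congrArg pr h
    unfold pc at h2
    rw [pr_secC (Hset_subset_Q i z.2), pr_secC (Hset_subset_Q i w.2)] at h2
    exact Subtype.ext h2
  · intro U hU
    have hV : IsOpen ((Subtype.val : Hset i → ℂ) '' U) :=
      (isOpen_Hset i).isOpenMap_subtype_val U hU
    have : pc a b i g '' U = (sheet a b i g).source ∩ pr ⁻¹' ((Subtype.val : Hset i → ℂ) '' U) := by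
      ext x
      constructor
      · rintro ⟨z, hz, rfl⟩
        have hzQ := Hset_subset_Q i z.2
        refine ⟨⟨?_, ?_⟩, ?_⟩
        · unfold pc
          rw [pr_secC hzQ]
          exact (Hset_subset_Oset i z.2).2
        · exact fib_secC hzQ
        · rw [mem_preimage]
          unfold pc
          rw [pr_secC hzQ]
          exact ⟨z, hz, rfl⟩
      · rintro ⟨⟨_, hx2⟩, z, hz, hzx⟩
        refine ⟨z, hz, ?_⟩
        unfold pc
        rw [hzx, ← hx2]
        exact secC_fib x
    rw [this]
    exact (sheet a b i g).open_source.inter (hV.preimage continuous_pr)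

lemma measurableEmbedding_pc (i : Bool) (g : G) : MeasurableEmbedding (pc a b i g) :=
  (isOpenEmbedding_pc i g).measurableEmbedding

variable (a b) in
/-- the area measure of a piece -/
noncomputable def piece (i : Bool) (g : G) : Measure (Surf a b) :=
  Measure.map (pc a b i g) (Measure.comap Subtype.val volume)

lemma piece_apply (i : Bool) (g : G) (A : Set (Surf a b)) :
    piece a b i g A = volume (Hset i ∩ secC a b i g ⁻¹' A) := by
  unfold piece
  rw [(measurableEmbedding_pc i g).map_apply, comap_subtype_coe_apply (measurableSet_Hset i)]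
  congr 1
  ext z
  constructor
  · rintro ⟨w, hw, rfl⟩
    exact ⟨w.2, hw⟩
  · rintro ⟨h1, h2⟩
    exact ⟨⟨z, h1⟩, h2, rfl⟩

lemma integral_piece (i : Bool) (g : G) (f : Surf a b → ℝ) :
    ∫ x, f x ∂(piece a b i g) = ∫ z in Hset i, f (secC a b i g z) := by
  unfold piece
  rw [(measurableEmbedding_pc i g).integral_map]
  exact integral_subtype_comap (measurableSet_Hset i) (fun z => f (secC a b i g z))

lemma integrable_piece (i : Bool) (g : G) (f : Surf a b → ℝ) :
    Integrable f (piece a b i g) ↔ IntegrableOn (fun z => f (secC a b i g z)) (Hset i) := by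
  unfold piece
  rw [(measurableEmbedding_pc i g).integrable_map_iff]
  have := (MeasurableEmbedding.subtype_coe (measurableSet_Hset i)).integrable_map_iff
    (μ := Measure.comap Subtype.val (volume : Measure ℂ)) (g := fun z => f (secC a b i g z))
  rw [map_comap_subtype_coe (measurableSet_Hset i)] at this
  exact this.symm

variable [Fintype G]

variable (a b) in
/-- The area measure of the surface. -/
noncomputable def area : Measure (Surf a b) := ∑ p : Bool × G, piece a b p.1 p.2

lemma area_apply (A : Set (Surf a b)) :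
    area a b A = ∑ p : Bool × G, volume (Hset p.1 ∩ secC a b p.1 p.2 ⁻¹' A) := by
  unfold area
  rw [Measure.finsetSum_apply]
  exact Finset.sum_congr rfl fun p _ => piece_apply _ _ _

/-- area of a set on which the projection is injective -/
lemma area_eq_of_injOn (A : Set (Surf a b)) (hA : MeasurableSet A) (hinj : InjOn pr A) :
    area a b A = volume (pr '' A) := by
  rw [area_apply A]
  have hmeas : ∀ p : Bool × G, MeasurableSet (Hset p.1 ∩ secC a b p.1 p.2 ⁻¹' A) := by
    intro p
    have h1 : MeasurableSet ((Subtype.val : Hset p.1 → ℂ) '' (pc a b p.1 p.2 ⁻¹' A)) :=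
      (measurableSet_Hset p.1).subtype_image ((measurableEmbedding_pc p.1 p.2).measurable hA)
    convert h1 using 1
    ext z
    constructor
    · rintro ⟨h1, h2⟩
      exact ⟨⟨z, h1⟩, h2, rfl⟩
    · rintro ⟨w, hw, rfl⟩
      exact ⟨w.2, hw⟩
  have hdisj : Pairwise (Function.onFun Disjoint
      (fun p : Bool × G => Hset p.1 ∩ secC a b p.1 p.2 ⁻¹' A)) := by
    rintro ⟨i, g⟩ ⟨j, h⟩ hne
    rw [Function.onFun, Set.disjoint_left]
    rintro z ⟨h1, h2⟩ ⟨h3, h4⟩
    by_cases hij : i = j
    · subst hij
      apply hne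
      have hzQ := Hset_subset_Q i h1
      have h5 : secC a b i g z = secC a b i h z := by
        apply hinj h2 h4
        rw [pr_secC hzQ, pr_secC hzQ]
      have h6 := congrArg (fib i) h5
      rw [fib_secC hzQ, fib_secC hzQ] at h6
      rw [h6]
    · exact Hset_disjoint hij h1 h3
  have h1 := measure_iUnion hdisj hmeas (μ := (volume : Measure ℂ))
  rw [tsum_fintype] at h1
  rw [← h1]
  have h2 : (⋃ p : Bool × G, Hset p.1 ∩ secC a b p.1 p.2 ⁻¹' A) =
      pr '' A ∩ (Hset true ∪ Hset false) := by
    ext z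
    rw [mem_iUnion]
    constructor
    · rintro ⟨⟨i, g⟩, h1, h2⟩
      refine ⟨⟨_, h2, pr_secC (Hset_subset_Q i h1)⟩, ?_⟩
      cases i
      · exact Or.inr h1
      · exact Or.inl h1
    · rintro ⟨⟨x, hx, rfl⟩, h | h⟩
      · refine ⟨(true, fib true x), h, ?_⟩
        rw [mem_preimage, secC_fib]
        exact hx
      · refine ⟨(false, fib false x), h, ?_⟩
        rw [mem_preimage, secC_fib]
        exact hx
  rw [h2]
  have h3 : volume (pr '' A \ (Hset true ∪ Hset false)) = 0 := by
    apply measure_mono_null _ ae_Hset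
    rintro z ⟨⟨x, _, rfl⟩, h⟩
    exact ⟨pr_mem x, h⟩
  have h4 := measure_inter_add_sdiff (μ := (volume : Measure ℂ)) (pr '' A)
    ((measurableSet_Hset true).union (measurableSet_Hset false))
  rw [h3, add_zero] at h4
  exact h4

omit [Fintype G] in
lemma pr_injOn_chart (x₀ : Surf a b) :
    InjOn pr (chartAt (EuclideanHalfSpace 2) x₀).source := by
  intro x hx y hy hxy
  have h1 := mem_mchart_source.1 hx
  have h2 := mem_mchart_source.1 hy
  rw [← secC_fib (i := ind (pr x₀)) x, ← secC_fib (i := ind (pr x₀)) y, h1.2.1, h2.2.1, hxy]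

end surf

/-- the determinant of a Gram matrix in dimension two -/
lemma sqrt_det_gram (L : E2 →L[ℝ] E2) :
    Real.sqrt (Matrix.det (fun i j : Fin 2 => inner ℝ (L (EuclideanSpace.single i (1 : ℝ)))
      (L (EuclideanSpace.single j (1 : ℝ))))) = |L.det| := by
  set B := (EuclideanSpace.basisFun (Fin 2) ℝ).toBasis with hB
  have h1 : (fun i j : Fin 2 => inner ℝ (L (EuclideanSpace.single i (1 : ℝ)))
      (L (EuclideanSpace.single j (1 : ℝ)))) =
      (LinearMap.toMatrix B B L.toLinearMap).transpose * LinearMap.toMatrix B B L.toLinearMap := by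
    ext i j
    rw [Matrix.mul_apply]
    simp only [Matrix.transpose_apply, LinearMap.toMatrix_apply, hB,
      OrthonormalBasis.coe_toBasis_repr_apply, OrthonormalBasis.coe_toBasis,
      EuclideanSpace.basisFun_apply, EuclideanSpace.basisFun_repr]
    rw [PiLp.inner_apply]
    apply Finset.sum_congr rfl
    intro k _
    simp [mul_comm]
  rw [h1, Matrix.det_mul, Matrix.det_transpose, LinearMap.det_toMatrix, ← pow_two,
    Real.sqrt_sq_eq_abs]

section surf

variable {G : Type} [Group G] [TopologicalSpace G] [DiscreteTopology G] {a b : G}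

lemma gram_eq (x₀ : Surf a b) {y : E2} (hy : y ∈ (extChartAt (𝓡∂ 2) x₀).target) :
    Real.sqrt (gram gm x₀ y).det =
      |((kap.toContinuousLinearEquiv : ℂ →L[ℝ] E2).comp (fderiv ℝ (bc x₀).Φ.symm y)).det| := by
  rw [← sqrt_det_gram]
  congr 2
  ext i j
  have h1 := Df_comp x₀ hy (EuclideanSpace.single i (1 : ℝ))
  have h2 := Df_comp x₀ hy (EuclideanSpace.single j (1 : ℝ))
  have h3 : gram gm x₀ y i j = inner ℝ (Df (pr : Surf a b → ℂ) ((extChartAt (𝓡∂ 2) x₀).symm y)
      (mfderivWithin 𝓘(ℝ, E2) (𝓡∂ 2) (extChartAt (𝓡∂ 2) x₀).symm (range (𝓡∂ 2)) y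
        (EuclideanSpace.single i (1 : ℝ))))
      (Df (pr : Surf a b → ℂ) ((extChartAt (𝓡∂ 2) x₀).symm y)
      (mfderivWithin 𝓘(ℝ, E2) (𝓡∂ 2) (extChartAt (𝓡∂ 2) x₀).symm (range (𝓡∂ 2)) y
        (EuclideanSpace.single j (1 : ℝ)))) := rfl
  rw [h3, h1, h2]
  simp only [ContinuousLinearMap.comp_apply]
  exact (kap.inner_map_map _ _).symm

variable [Fintype G]

/-- `area` is the Riemannian area of the surface. -/
theorem isArea : IsArea (gm : RMetric (Surf a b)) (area a b) := by
  intro x₀ A hA hAs
  have hinj : InjOn pr A := (pr_injOn_chart x₀).mono hAs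
  rw [area_eq_of_injOn A hA hinj]
  set S : Set E2 := extChartAt (𝓡∂ 2) x₀ '' A with hS
  have hSt : S ⊆ (extChartAt (𝓡∂ 2) x₀).target := by
    rintro _ ⟨x, hx, rfl⟩
    apply (extChartAt (𝓡∂ 2) x₀).map_source
    rw [extChartAt_source]
    exact hAs hx
  -- measurability of S
  have hSm : MeasurableSet S := by
    have htm : MeasurableSet (extChartAt (𝓡∂ 2) x₀).target := by
      rw [extChartAt_target]
      apply MeasurableSet.inter
      · exact ((chartAt (EuclideanHalfSpace 2) x₀).open_target.preimage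
          (𝓡∂ 2).continuous_symm).measurableSet
      · exact (𝓡∂ 2).isClosed_range.measurableSet
    have hc : ContinuousOn (extChartAt (𝓡∂ 2) x₀).symm (extChartAt (𝓡∂ 2) x₀).target :=
      continuousOn_extChartAt_symm x₀
    have hc2 : Measurable ((extChartAt (𝓡∂ 2) x₀).target.domRestrict
        (extChartAt (𝓡∂ 2) x₀).symm) :=
      (continuousOn_iff_continuous_domRestrict.1 hc).measurable
    have h1 := htm.subtype_image (hc2 hA)
    convert h1 using 1
    ext y
    constructor
    · rintro ⟨x, hx, rfl⟩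
      have hxs : x ∈ (extChartAt (𝓡∂ 2) x₀).source := by
        rw [extChartAt_source]; exact hAs hx
      refine ⟨⟨_, (extChartAt (𝓡∂ 2) x₀).map_source hxs⟩, ?_, rfl⟩
      rw [mem_preimage, Set.domRestrict_apply, (extChartAt (𝓡∂ 2) x₀).left_inv hxs]
      exact hx
    · rintro ⟨⟨y, hy⟩, hy2, rfl⟩
      exact ⟨_, hy2, (extChartAt (𝓡∂ 2) x₀).right_inv hy⟩
  have h1 : ∫⁻ y in S, ENNReal.ofReal (Real.sqrt (gram gm x₀ y).det) =
      ∫⁻ y in S, ENNReal.ofReal |((kap.toContinuousLinearEquiv : ℂ →L[ℝ] E2).comp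
        (fderiv ℝ (bc x₀).Φ.symm y)).det| := by
    apply setLIntegral_congr_fun hSm
    intro y hy
    simp only
    rw [gram_eq x₀ (hSt hy)]
  rw [h1]
  have h2 := lintegral_abs_det_fderiv_eq_addHaar_image (volume : Measure E2)
    (s := S) (f := fun y => kap ((bc x₀).Φ.symm y))
    (f' := fun y => (kap.toContinuousLinearEquiv : ℂ →L[ℝ] E2).comp
      (fderiv ℝ (bc x₀).Φ.symm y)) hSm ?_ ?_
  · rw [h2]
    have h3 : (fun y => kap ((bc x₀).Φ.symm y)) '' S = kap.symm ⁻¹' (pr '' A) := by
      ext y
      constructor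
      · rintro ⟨_, ⟨x, hx, rfl⟩, rfl⟩
        rw [mem_preimage, LinearIsometryEquiv.symm_apply_apply]
        refine ⟨x, hx, ?_⟩
        rw [ext_apply (hAs hx), (bc x₀).Φ.left_inv (mem_mchart_source.1 (hAs hx)).2.2]
      · rintro ⟨x, hx, hxy⟩
        refine ⟨_, ⟨x, hx, rfl⟩, ?_⟩
        simp only
        rw [ext_apply (hAs hx), (bc x₀).Φ.left_inv (mem_mchart_source.1 (hAs hx)).2.2, hxy,
          LinearIsometryEquiv.apply_symm_apply]
    rw [h3]
    exact (kap.symm.measurePreserving.measure_preimage_emb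
      kap.symm.toHomeomorph.measurableEmbedding _).symm
  · intro y hy
    exact ((kap.toContinuousLinearEquiv.hasFDerivAt).comp y
      ((bc x₀).hasFDerivAt_symm (mem_ext_target (hSt hy)).2.1)).hasFDerivWithinAt
  · intro y hy w hw hyw
    exact (bc x₀).Φ.symm.injOn (mem_ext_target (hSt hy)).2.1 (mem_ext_target (hSt hw)).2.1
      (kap.injective hyw)

end surf

end Pool.Agent.Helper23.Dir
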