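import Mathlib
import Pool.Agent.Helper23.Dir.Area

set_option autoImplicit false

open Set Metric Bundle Topology MeasureTheory
open scoped Manifold ContDiff ENNReal

namespace Pool.Agent.Helper23.Dir

/-- the dual norm in the plane -/
lemma conorm_calc (m : ℂ →L[ℝ] ℝ) :
    sSup {t : ℝ | ∃ w : ℂ, ‖w‖ ^ 2 ≤ 1 ∧ t = (m w) ^ 2} = (m 1) ^ 2 + (m Complex.I) ^ 2 := by
  have hm : ∀ w : ℂ, m w = w.re * m 1 + w.im * m Complex.I := by
    intro w
    conv_lhs => rw [← Complex.re_add_im w]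
    rw [map_add]
    have h1 : m (w.re : ℂ) = w.re * m 1 := by
      have : (w.re : ℂ) = w.re • (1 : ℂ) := by simp
      rw [this, map_smul, smul_eq_mul]
    have h2 : m ((w.im : ℂ) * Complex.I) = w.im * m Complex.I := by
      have : (w.im : ℂ) * Complex.I = w.im • Complex.I := by simp
      rw [this, map_smul, smul_eq_mul]
    rw [h1, h2]
  have hn : ∀ w : ℂ, ‖w‖ ^ 2 = w.re ^ 2 + w.im ^ 2 := by
    intro w
    rw [← Complex.normSq_eq_norm_sq, Complex.normSq_apply]; ring
  have hub : ∀ t ∈ {t : ℝ | ∃ w : ℂ, ‖w‖ ^ 2 ≤ 1 ∧ t = (m w) ^ 2},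
      t ≤ (m 1) ^ 2 + (m Complex.I) ^ 2 := by
    rintro t ⟨w, hw, rfl⟩
    rw [hm w]
    rw [hn w] at hw
    have h3 : (w.re * m 1 + w.im * m Complex.I) ^ 2 ≤
        (w.re ^ 2 + w.im ^ 2) * ((m 1) ^ 2 + (m Complex.I) ^ 2) := by
      nlinarith [sq_nonneg (w.re * m Complex.I - w.im * m 1)]
    have h4 : 0 ≤ (m 1) ^ 2 + (m Complex.I) ^ 2 := by positivity
    nlinarith
  apply le_antisymm
  · exact csSup_le ⟨0, 0, by simp, by simp⟩ hub
  · apply le_csSup ⟨_, hub⟩
    by_cases h0 : (m 1) ^ 2 + (m Complex.I) ^ 2 = 0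
    · refine ⟨0, by simp, ?_⟩
      rw [h0]; simp
    · have hpos : 0 < (m 1) ^ 2 + (m Complex.I) ^ 2 := lt_of_le_of_ne (by positivity) (Ne.symm h0)
      set s := Real.sqrt ((m 1) ^ 2 + (m Complex.I) ^ 2) with hs
      have hs2 : s ^ 2 = (m 1) ^ 2 + (m Complex.I) ^ 2 := Real.sq_sqrt hpos.le
      have hspos : 0 < s := Real.sqrt_pos.2 hpos
      refine ⟨⟨m 1 / s, m Complex.I / s⟩, ?_, ?_⟩
      · rw [hn, div_pow, div_pow, ← add_div, hs2, div_self h0]
      · have h5 := hm ⟨m 1 / s, m Complex.I / s⟩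
        have : m 1 / s * m 1 + m Complex.I / s * m Complex.I = s := by
          field_simp
          rw [hs2]
        rw [h5]
        change _ = (m 1 / s * m 1 + m Complex.I / s * m Complex.I) ^ 2
        rw [this, hs2]

section surf

variable {G : Type} [Group G] [TopologicalSpace G] [DiscreteTopology G] {a b : G}

open Classical in
/-- A function on the surface read on a sheet, extended by zero outside the domain. -/
noncomputable def pull (i : Bool) (g : G) (u : Surf a b → ℝ) (z : ℂ) : ℝ :=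
  if z ∈ Qset then u (secC a b i g z) else 0

lemma pull_of_mem {i : Bool} {g : G} {u : Surf a b → ℝ} {z : ℂ} (h : z ∈ Qset) :
    pull i g u z = u (secC a b i g z) := by
  simp [pull, h]

lemma pull_of_notMem {i : Bool} {g : G} {u : Surf a b → ℝ} {z : ℂ} (h : z ∉ Qset) :
    pull i g u z = 0 := by
  simp [pull, h]

lemma pull_add (i : Bool) (g : G) (u v : Surf a b → ℝ) :
    pull i g (u + v) = pull i g u + pull i g v := by
  ext z
  by_cases h : z ∈ Qset
  · simp [pull_of_mem h]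
  · simp [pull_of_notMem h]

lemma pull_smul (i : Bool) (g : G) (c : ℝ) (u : Surf a b → ℝ) :
    pull i g (c • u) = c • pull i g u := by
  ext z
  by_cases h : z ∈ Qset
  · simp [pull_of_mem h]
  · simp [pull_of_notMem h]

/-- the projection of the support of a test function -/
lemma exists_supp {u : Surf a b → ℝ} (hu : u ∈ testFun (Surf a b)) :
    ∃ K : Set ℂ, IsCompact K ∧ K ⊆ Qint ∧ ∀ i g z, z ∉ K → pull i g u z = 0 := by
  obtain ⟨hu1, hu2, hu3⟩ := hu
  refine ⟨pr '' tsupport u, hu2.isCompact.image continuous_pr, ?_, ?_⟩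
  · rintro _ ⟨x, hx, rfl⟩
    exact (mem_interior_iff x).1 (hu3 hx)
  · intro i g z hz
    by_cases h : z ∈ Qset
    · rw [pull_of_mem h]
      by_contra hne
      apply hz
      refine ⟨secC a b i g z, subset_tsupport u hne, pr_secC h⟩
    · exact pull_of_notMem h

lemma pull_contDiffAt {u : Surf a b → ℝ} (hu : u ∈ testFun (Surf a b)) {i : Bool} (g : G) {z : ℂ}
    (hz : z ∉ slit i) : ContDiffAt ℝ ∞ (pull i g u) z := by
  by_cases hzi : z ∈ Qint
  · have hzO : z ∈ Oset i := ⟨hzi, hz⟩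
    have h1 : ContMDiffAt 𝓘(ℝ, ℂ) 𝓘(ℝ, ℝ) ∞ (u ∘ secC a b i g) z :=
      (hu.1 _).comp z (secC_contMDiffAt g hzO)
    have h2 : ContDiffAt ℝ ∞ (u ∘ secC a b i g) z := contMDiffAt_iff_contDiffAt.1 h1
    apply h2.congr_of_eventuallyEq
    filter_upwards [isOpen_Qint.mem_nhds hzi] with w hw
    exact pull_of_mem (Qint_subset hw)
  · obtain ⟨K, hK, hKQ, hK0⟩ := exists_supp hu
    have hzK : z ∉ K := fun h => hzi (hKQ h)
    have h3 : pull i g u =ᶠ[𝓝 z] fun _ => 0 := by
      filter_upwards [hK.isClosed.isOpen_compl.mem_nhds hzK] with w hw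
      exact hK0 i g w hw
    exact contDiffAt_const.congr_of_eventuallyEq h3

lemma pull_contDiffOn {u : Surf a b → ℝ} (hu : u ∈ testFun (Surf a b)) (i : Bool) (g : G) :
    ContDiffOn ℝ ∞ (pull i g u) (slit i)ᶜ := fun _ hz =>
  (pull_contDiffAt hu g hz).contDiffWithinAt

lemma pull_differentiableAt {u : Surf a b → ℝ} (hu : u ∈ testFun (Surf a b)) {i : Bool} (g : G)
    {z : ℂ} (hz : z ∉ slit i) : DifferentiableAt ℝ (pull i g u) z :=
  (pull_contDiffAt hu g hz).differentiableAt (by simp)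

/-- closed halves -/
def Kset (i : Bool) : Set ℂ := {z | z ∈ Qset ∧ 0 ≤ sg i * z.im}

lemma isCompact_Kset (i : Bool) : IsCompact (Kset i) := by
  change IsCompact (Qset ∩ {z : ℂ | 0 ≤ sg i * z.im})
  exact isCompact_Qset.inter_right (isClosed_le (by fun_prop) (by fun_prop))

lemma Hset_subset_Kset (i : Bool) : Hset i ⊆ Kset i := fun _ hz => ⟨Qint_subset hz.1, hz.2.le⟩

lemma Kset_subset (i : Bool) : Kset i ⊆ (slit i)ᶜ := fun _ hz => notMem_slit hz.1 hz.2

lemma fderiv_pull_continuousOn {u : Surf a b → ℝ} (hu : u ∈ testFun (Surf a b)) (i : Bool) (g : G)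
    (w : ℂ) : ContinuousOn (fun z => fderiv ℝ (pull i g u) z w) (Kset i) := by
  have h1 : ContinuousOn (fderiv ℝ (pull i g u)) (slit i)ᶜ :=
    (pull_contDiffOn hu i g).continuousOn_fderiv_of_isOpen (isClosed_slit i).isOpen_compl (by simp)
  exact (h1.mono (Kset_subset i)).clm_apply continuousOn_const

lemma pull_continuousOn {u : Surf a b → ℝ} (hu : u ∈ testFun (Surf a b)) (i : Bool) (g : G) :
    ContinuousOn (pull i g u) (Kset i) :=
  (pull_contDiffOn hu i g).continuousOn.mono (Kset_subset i)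

/-- the bilinear energy density -/
noncomputable def dens (U V : ℂ → ℝ) (z : ℂ) : ℝ :=
  fderiv ℝ U z 1 * fderiv ℝ V z 1 + fderiv ℝ U z Complex.I * fderiv ℝ V z Complex.I

lemma integrableOn_dens {u v : Surf a b → ℝ} (hu : u ∈ testFun (Surf a b))
    (hv : v ∈ testFun (Surf a b)) (i : Bool) (g : G) :
    IntegrableOn (dens (pull i g u) (pull i g v)) (Hset i) := by
  apply IntegrableOn.mono_set _ (Hset_subset_Kset i)
  apply ContinuousOn.integrableOn_compact (isCompact_Kset i)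
  exact ((fderiv_pull_continuousOn hu i g _).mul (fderiv_pull_continuousOn hv i g _)).add
    ((fderiv_pull_continuousOn hu i g _).mul (fderiv_pull_continuousOn hv i g _))

lemma integrableOn_mul {u v : Surf a b → ℝ} (hu : u ∈ testFun (Surf a b))
    (hv : v ∈ testFun (Surf a b)) (i : Bool) (g : G) :
    IntegrableOn (fun z => pull i g u z * pull i g v z) (Hset i) := by
  apply IntegrableOn.mono_set _ (Hset_subset_Kset i)
  apply ContinuousOn.integrableOn_compact (isCompact_Kset i)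
  exact (pull_continuousOn hu i g).mul (pull_continuousOn hv i g)

lemma conormSq_gm (x : Surf a b) (ℓ : Lin) (S : ℂ →L[ℝ] E2)
    (hDS : ∀ w : ℂ, Df (pr : Surf a b → ℂ) x (S w) = w) :
    conormSq gm x ℓ = (ℓ (S 1)) ^ 2 + (ℓ (S Complex.I)) ^ 2 := by
  have hSD : ∀ v : E2, S (Df (pr : Surf a b → ℂ) x v) = v := by
    intro v
    apply injective_Df x
    rw [hDS]
  have hin : ∀ v : E2, ip (gm : RMetric (Surf a b)) x v v =
      ‖Df (pr : Surf a b → ℂ) x v‖ ^ 2 := fun v => pullInner_self pr x v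
  have hset : {t : ℝ | ∃ v : E2, ip (gm : RMetric (Surf a b)) x v v ≤ 1 ∧
      t = (pairing ℓ v) ^ 2} =
      {t : ℝ | ∃ w : ℂ, ‖w‖ ^ 2 ≤ 1 ∧ t = ((ℓ.comp S) w) ^ 2} := by
    ext t
    constructor
    · rintro ⟨v, hv, rfl⟩
      refine ⟨Df pr x v, ?_, ?_⟩
      · rwa [hin] at hv
      · rw [ContinuousLinearMap.comp_apply, hSD]
        rfl
    · rintro ⟨w, hw, rfl⟩
      refine ⟨S w, ?_, ?_⟩
      · rw [hin, hDS]
        exact hw
      · rw [ContinuousLinearMap.comp_apply]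
        rfl
  have h2 := conorm_calc (ℓ.comp S)
  rw [← hset] at h2
  exact h2

/-- the energy density of a test function -/
lemma conormSq_eq {u : Surf a b → ℝ} (hu : u ∈ testFun (Surf a b)) {i : Bool} (g : G) {z : ℂ}
    (hz : z ∈ Oset i) :
    conormSq gm (secC a b i g z) (diff u (secC a b i g z)) =
      dens (pull i g u) (pull i g u) z := by
  set x := secC a b i g z with hx
  have hzQ : z ∈ Qset := Qint_subset hz.1
  -- the derivative of the section
  obtain ⟨S, hS⟩ : ∃ S : ℂ →L[ℝ] E2, S = mfderiv 𝓘(ℝ, ℂ) (𝓡∂ 2) (secC a b i g) z := ⟨_, rfl⟩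
  obtain ⟨ℓ, hℓ⟩ : ∃ ℓ : E2 →L[ℝ] ℝ, ℓ = mfderiv (𝓡∂ 2) 𝓘(ℝ, ℝ) u x := ⟨_, rfl⟩
  have hsd : MDifferentiableAt 𝓘(ℝ, ℂ) (𝓡∂ 2) (secC a b i g) z :=
    (secC_contMDiffAt g hz).mdifferentiableAt (by simp)
  have hpd : MDifferentiableAt (𝓡∂ 2) 𝓘(ℝ, ℂ) (pr : Surf a b → ℂ) x :=
    (contMDiff_pr x).mdifferentiableAt (by simp)
  have hud : MDifferentiableAt (𝓡∂ 2) 𝓘(ℝ, ℝ) u x := (hu.1 x).mdifferentiableAt (by simp)
  have hDS : ∀ w : ℂ, Df (pr : Surf a b → ℂ) x (S w) = w := by
    intro w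
    have h1 := mfderiv_comp z hpd hsd
    have h2 : ((pr : Surf a b → ℂ) ∘ secC a b i g) =ᶠ[𝓝 z] id := by
      filter_upwards [isOpen_Qint.mem_nhds hz.1] with y hy
      exact pr_secC (Qint_subset hy)
    rw [h2.mfderiv_eq, mfderiv_id] at h1
    have h3 := congrArg (fun L : ℂ →L[ℝ] ℂ => L w) h1
    rw [hS]
    exact h3.symm
  have hfd : ∀ w : ℂ, fderiv ℝ (pull i g u) z w = ℓ (S w) := by
    intro w
    have h1 := mfderiv_comp z hud hsd
    have h2 : pull i g u =ᶠ[𝓝 z] (u ∘ secC a b i g) := by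
      filter_upwards [isOpen_Qint.mem_nhds hz.1] with y hy
      exact pull_of_mem (Qint_subset hy)
    rw [h2.fderiv_eq, ← mfderiv_eq_fderiv, h1, hS, hℓ]
    rfl
  have h3 := conormSq_gm x ℓ S hDS
  unfold dens
  rw [hfd, hfd, ← pow_two, ← pow_two, ← h3, hℓ]
  rfl

variable [Fintype G]

/-- Energy of a test function in terms of the sheets. -/
theorem energy_eq {u : Surf a b → ℝ} (hu : u ∈ testFun (Surf a b)) :
    energy gm (area a b) u = ∑ p : Bool × G,
      ∫ z in Hset p.1, dens (pull p.1 p.2 u) (pull p.1 p.2 u) z := by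
  unfold energy area
  have hcongr : ∀ p : Bool × G, ∀ z ∈ Hset p.1,
      conormSq gm (secC a b p.1 p.2 z) (diff u (secC a b p.1 p.2 z)) =
      dens (pull p.1 p.2 u) (pull p.1 p.2 u) z :=
    fun p z hz => conormSq_eq hu p.2 (Hset_subset_Oset p.1 hz)
  rw [integral_finsetSum_measure]
  · apply Finset.sum_congr rfl
    intro p _
    rw [integral_piece]
    exact setIntegral_congr_fun (measurableSet_Hset p.1) (hcongr p)
  · intro p _
    rw [integrable_piece]
    exact (integrableOn_dens hu hu p.1 p.2).congr_fun (fun z hz => (hcongr p z hz).symm)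
      (measurableSet_Hset p.1)

/-- Mass of a test function in terms of the sheets. -/
theorem mass_eq {u : Surf a b → ℝ} (hu : u ∈ testFun (Surf a b)) :
    mass (area a b) u = ∑ p : Bool × G,
      ∫ z in Hset p.1, pull p.1 p.2 u z * pull p.1 p.2 u z := by
  unfold mass area
  have hcongr : ∀ p : Bool × G, ∀ z ∈ Hset p.1,
      u (secC a b p.1 p.2 z) ^ 2 = pull p.1 p.2 u z * pull p.1 p.2 u z := by
    intro p z hz
    rw [pull_of_mem (Hset_subset_Q p.1 hz), pow_two]
  rw [integral_finsetSum_measure]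
  · apply Finset.sum_congr rfl
    intro p _
    rw [integral_piece]
    exact setIntegral_congr_fun (measurableSet_Hset p.1) (hcongr p)
  · intro p _
    rw [integrable_piece]
    exact (integrableOn_mul hu hu p.1 p.2).congr_fun (fun z hz => (hcongr p z hz).symm)
      (measurableSet_Hset p.1)

end surf

end Pool.Agent.Helper23.Dir
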