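import Mathlib
import Pool.Agent.Helper23.Dir.Pull

set_option autoImplicit false

open Set Metric Bundle Topology MeasureTheory
open scoped Manifold ContDiff ENNReal

namespace Pool.Agent.Helper23.Dir

section surf

variable {G : Type} [Group G] [TopologicalSpace G] [DiscreteTopology G] {a b : G}

lemma fderiv_pull_add {u v : Surf a b → ℝ} (hu : u ∈ testFun (Surf a b))
    (hv : v ∈ testFun (Surf a b)) {i : Bool} (g : G) {z : ℂ} (hz : z ∈ Hset i) (w : ℂ) :
    fderiv ℝ (pull i g (u + v)) z w = fderiv ℝ (pull i g u) z w + fderiv ℝ (pull i g v) z w := by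
  have hz' : z ∉ slit i := (Hset_subset_Oset i hz).2
  rw [pull_add, fderiv_add (pull_differentiableAt hu g hz') (pull_differentiableAt hv g hz')]
  rfl

lemma fderiv_pull_smul {u : Surf a b → ℝ} (hu : u ∈ testFun (Surf a b))
    {i : Bool} (g : G) {z : ℂ} (hz : z ∈ Hset i) (c : ℝ) (w : ℂ) :
    fderiv ℝ (pull i g (c • u)) z w = c * fderiv ℝ (pull i g u) z w := by
  have hz' : z ∉ slit i := (Hset_subset_Oset i hz).2
  rw [pull_smul, fderiv_const_smul (pull_differentiableAt hu g hz')]
  rfl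

lemma dens_comm (U V : ℂ → ℝ) (z : ℂ) : dens U V z = dens V U z := by
  unfold dens; ring

variable [Fintype G]

/-- the energy form as a function -/
noncomputable def Efun (u v : Surf a b → ℝ) : ℝ :=
  ∑ p : Bool × G, ∫ z in Hset p.1, dens (pull p.1 p.2 u) (pull p.1 p.2 v) z

/-- the mass form as a function -/
noncomputable def Bfun (u v : Surf a b → ℝ) : ℝ :=
  ∑ p : Bool × G, ∫ z in Hset p.1, pull p.1 p.2 u z * pull p.1 p.2 v z

lemma Efun_comm (u v : Surf a b → ℝ) : Efun u v = Efun v u := by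
  unfold Efun
  apply Finset.sum_congr rfl
  intro p _
  congr 1
  ext z
  exact dens_comm _ _ z

lemma Bfun_comm (u v : Surf a b → ℝ) : Bfun u v = Bfun v u := by
  unfold Bfun
  apply Finset.sum_congr rfl
  intro p _
  congr 1
  ext z
  ring

lemma Efun_add {u u' v : Surf a b → ℝ} (hu : u ∈ testFun (Surf a b))
    (hu' : u' ∈ testFun (Surf a b)) (hv : v ∈ testFun (Surf a b)) :
    Efun (u + u') v = Efun u v + Efun u' v := by
  unfold Efun
  rw [← Finset.sum_add_distrib]
  apply Finset.sum_congr rfl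
  intro p _
  rw [← integral_add (integrableOn_dens hu hv p.1 p.2) (integrableOn_dens hu' hv p.1 p.2)]
  apply setIntegral_congr_fun (measurableSet_Hset p.1)
  intro z hz
  simp only [dens]
  rw [fderiv_pull_add hu hu' p.2 hz, fderiv_pull_add hu hu' p.2 hz]
  ring

lemma Efun_smul {u v : Surf a b → ℝ} (hu : u ∈ testFun (Surf a b)) (c : ℝ) :
    Efun (c • u) v = c * Efun u v := by
  unfold Efun
  rw [Finset.mul_sum]
  apply Finset.sum_congr rfl
  intro p _
  rw [← integral_const_mul]
  apply setIntegral_congr_fun (measurableSet_Hset p.1)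
  intro z hz
  simp only [dens]
  rw [fderiv_pull_smul hu p.2 hz, fderiv_pull_smul hu p.2 hz]
  ring

lemma Bfun_add {u u' v : Surf a b → ℝ} (hu : u ∈ testFun (Surf a b))
    (hu' : u' ∈ testFun (Surf a b)) (hv : v ∈ testFun (Surf a b)) :
    Bfun (u + u') v = Bfun u v + Bfun u' v := by
  unfold Bfun
  rw [← Finset.sum_add_distrib]
  apply Finset.sum_congr rfl
  intro p _
  rw [← integral_add (integrableOn_mul hu hv p.1 p.2) (integrableOn_mul hu' hv p.1 p.2)]
  apply setIntegral_congr_fun (measurableSet_Hset p.1)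
  intro z hz
  simp only
  rw [pull_add, Pi.add_apply]
  ring

lemma Bfun_smul (u v : Surf a b → ℝ) (c : ℝ) :
    Bfun (c • u) v = c * Bfun u v := by
  unfold Bfun
  rw [Finset.mul_sum]
  apply Finset.sum_congr rfl
  intro p _
  rw [← integral_const_mul]
  apply setIntegral_congr_fun (measurableSet_Hset p.1)
  intro z hz
  simp only
  rw [pull_smul, Pi.smul_apply, smul_eq_mul]
  ring

variable (a b) in
/-- the energy form -/
noncomputable def Eform : testFun (Surf a b) →ₗ[ℝ] testFun (Surf a b) →ₗ[ℝ] ℝ :=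
  LinearMap.mk₂ ℝ (fun u v => Efun (u : Surf a b → ℝ) (v : Surf a b → ℝ))
    (fun u u' v => Efun_add u.2 u'.2 v.2)
    (fun c u v => by rw [smul_eq_mul]; exact Efun_smul u.2 c)
    (fun u v v' => by
      rw [Efun_comm, Submodule.coe_add, Efun_add v.2 v'.2 u.2, Efun_comm,
        Efun_comm (v' : Surf a b → ℝ)])
    (fun c u v => by
      rw [Efun_comm, Submodule.coe_smul, Efun_smul v.2, Efun_comm, smul_eq_mul])

variable (a b) in
/-- the mass form -/
noncomputable def Bform : testFun (Surf a b) →ₗ[ℝ] testFun (Surf a b) →ₗ[ℝ] ℝ :=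
  LinearMap.mk₂ ℝ (fun u v => Bfun (u : Surf a b → ℝ) (v : Surf a b → ℝ))
    (fun u u' v => Bfun_add u.2 u'.2 v.2)
    (fun c u v => by rw [smul_eq_mul]; exact Bfun_smul _ _ c)
    (fun u v v' => by
      rw [Bfun_comm, Submodule.coe_add, Bfun_add v.2 v'.2 u.2, Bfun_comm,
        Bfun_comm (v' : Surf a b → ℝ)])
    (fun c u v => by
      rw [Bfun_comm, Submodule.coe_smul, Bfun_smul, Bfun_comm, smul_eq_mul])

lemma Eform_apply (u v : testFun (Surf a b)) :
    Eform a b u v = Efun (u : Surf a b → ℝ) (v : Surf a b → ℝ) := rfl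

lemma Bform_apply (u v : testFun (Surf a b)) :
    Bform a b u v = Bfun (u : Surf a b → ℝ) (v : Surf a b → ℝ) := rfl

lemma energy_eq_form (u : testFun (Surf a b)) :
    energy gm (area a b) (u : Surf a b → ℝ) = Eform a b u u := energy_eq u.2

lemma mass_eq_form (u : testFun (Surf a b)) :
    mass (area a b) (u : Surf a b → ℝ) = Bform a b u u := mass_eq u.2

lemma Eform_nonneg (u : testFun (Surf a b)) : 0 ≤ Eform a b u u := by
  rw [Eform_apply]
  unfold Efun
  apply Finset.sum_nonneg
  intro p _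
  apply integral_nonneg
  intro z
  unfold dens
  have h1 := mul_self_nonneg (fderiv ℝ (pull p.1 p.2 (u : Surf a b → ℝ)) z 1)
  have h2 := mul_self_nonneg (fderiv ℝ (pull p.1 p.2 (u : Surf a b → ℝ)) z Complex.I)
  simp only [Pi.zero_apply]
  linarith

/-- The mass form is positive definite. -/
lemma Bform_pos (u : testFun (Surf a b)) (hu : u ≠ 0) : 0 < Bform a b u u := by
  rw [Bform_apply]
  unfold Bfun
  -- a point where u is nonzero
  obtain ⟨x, hx⟩ : ∃ x, (u : Surf a b → ℝ) x ≠ 0 := by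
    by_contra hcon
    push Not at hcon
    exact hu (Subtype.ext (funext hcon))
  have hxint : pr x ∈ Qint := (mem_interior_iff x).1 (u.2.2.2 (subset_tsupport _ hx))
  set i := ind (pr x)
  set g := fib i x
  have hxs : pr x ∉ slit i := ind_notMem (pr_mem x)
  have hpx : pull i g (u : Surf a b → ℝ) (pr x) ≠ 0 := by
    rw [pull_of_mem (pr_mem x), secC_fib]
    exact hx
  have hcont : ContinuousAt (pull i g (u : Surf a b → ℝ)) (pr x) :=
    (pull_contDiffAt u.2 g hxs).continuousAt
  -- a nearby point of the open half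
  have hsg : (0 : ℝ) ≤ sg i * (pr x).im := by
    simp only [i, ind]
    split_ifs with h
    · simpa using h
    · push Not at h
      simp only [sg_false]
      linarith
  have hev : ∀ᶠ t : ℝ in 𝓝[>] 0, pull i g (u : Surf a b → ℝ)
      (pr x + ((sg i * t : ℝ) : ℂ) * Complex.I) ≠ 0 ∧
      (pr x + ((sg i * t : ℝ) : ℂ) * Complex.I) ∈ Hset i := by
    have hc : Continuous fun t : ℝ => pr x + ((sg i * t : ℝ) : ℂ) * Complex.I := by fun_prop
    have hc0 : Filter.Tendsto (fun t : ℝ => pr x + ((sg i * t : ℝ) : ℂ) * Complex.I) (𝓝[>] 0)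
        (𝓝 (pr x)) := by
      have h1 : Filter.Tendsto (fun t : ℝ => pr x + ((sg i * t : ℝ) : ℂ) * Complex.I) (𝓝 0)
          (𝓝 (pr x + ((sg i * 0 : ℝ) : ℂ) * Complex.I)) := hc.tendsto 0
      rw [mul_zero, Complex.ofReal_zero, zero_mul, add_zero] at h1
      exact h1.mono_left nhdsWithin_le_nhds
    have h1 : ∀ᶠ t : ℝ in 𝓝[>] 0, pull i g (u : Surf a b → ℝ)
        (pr x + ((sg i * t : ℝ) : ℂ) * Complex.I) ≠ 0 :=
      hc0.eventually (hcont.eventually_ne hpx)
    have h2 : ∀ᶠ t : ℝ in 𝓝[>] 0, (pr x + ((sg i * t : ℝ) : ℂ) * Complex.I) ∈ Qint :=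
      hc0.eventually (isOpen_Qint.mem_nhds hxint)
    filter_upwards [h1, h2, self_mem_nhdsWithin] with t ht1 ht2 ht3
    refine ⟨ht1, ht2, ?_⟩
    have : (pr x + ((sg i * t : ℝ) : ℂ) * Complex.I).im = (pr x).im + sg i * t := by simp
    rw [this, mul_add, ← mul_assoc, sg_sq, one_mul]
    have ht3' : 0 < t := ht3
    linarith
  obtain ⟨t, ht1, ht2⟩ := hev.exists
  set w := pr x + ((sg i * t : ℝ) : ℂ) * Complex.I
  -- positivity of the integral
  have hpos : 0 < ∫ z in Hset i, pull i g (u : Surf a b → ℝ) z * pull i g (u : Surf a b → ℝ) z := by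
    have hnn : ∀ z, 0 ≤ pull i g (u : Surf a b → ℝ) z * pull i g (u : Surf a b → ℝ) z :=
      fun z => mul_self_nonneg _
    rw [setIntegral_pos_iff_support_of_nonneg_ae (Filter.Eventually.of_forall hnn)
      (integrableOn_mul u.2 u.2 i g)]
    have hcw : ContinuousAt (pull i g (u : Surf a b → ℝ)) w :=
      (pull_contDiffAt u.2 g (Hset_subset_Oset i ht2).2).continuousAt
    have hnhds : (Function.support fun z => pull i g (u : Surf a b → ℝ) z *
        pull i g (u : Surf a b → ℝ) z) ∩ Hset i ∈ 𝓝 w := by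
      filter_upwards [hcw.eventually_ne ht1, (isOpen_Hset i).mem_nhds ht2] with z hz1 hz2
      exact ⟨mul_ne_zero hz1 hz1, hz2⟩
    exact Measure.measure_pos_of_mem_nhds _ hnhds
  calc (0 : ℝ) < ∫ z in Hset i, pull i g (u : Surf a b → ℝ) z * pull i g (u : Surf a b → ℝ) z := hpos
    _ ≤ ∑ p : Bool × G, ∫ z in Hset p.1, pull p.1 p.2 (u : Surf a b → ℝ) z *
        pull p.1 p.2 (u : Surf a b → ℝ) z := by
      apply Finset.single_le_sum (f := fun p : Bool × G => ∫ z in Hset p.1,
        pull p.1 p.2 (u : Surf a b → ℝ) z * pull p.1 p.2 (u : Surf a b → ℝ) z)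
        (fun p _ => integral_nonneg fun z => mul_self_nonneg _) (Finset.mem_univ (i, g))

end surf

end Pool.Agent.Helper23.Dir
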