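import Mathlib

set_option autoImplicit false

open MeasureTheory Set Real
open scoped Interval

namespace Pool.Agent.Helper23.Dir

lemma memLp_two_of_cont {a b : ℝ} (f : ℝ → ℂ) (hf : ContinuousOn f (Icc a b)) :
    MemLp f 2 (volume.restrict (Ioc a b)) := by
  have h1 : MemLp f 2 (volume.restrict (Icc a b)) := by
    obtain ⟨C, hC⟩ := isCompact_Icc.exists_bound_of_continuousOn hf
    refine MemLp.of_bound (hf.aestronglyMeasurable measurableSet_Icc) C ?_
    filter_upwards [ae_restrict_mem measurableSet_Icc] with x hx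
    exact hC x hx
  exact h1.mono_measure (Measure.restrict_mono Ioc_subset_Icc_self le_rfl)

/-- **Wirtinger's inequality** on an interval with equal boundary values. -/
theorem wirtinger1 {a b : ℝ} (hab : a < b) (f f' : ℝ → ℝ)
    (hf : ∀ x ∈ Icc a b, HasDerivAt f (f' x) x) (hf' : ContinuousOn f' (Icc a b))
    (hper : f a = f b) :
    (2 * π / (b - a)) ^ 2 * ((∫ x in a..b, f x ^ 2) - (b - a)⁻¹ * (∫ x in a..b, f x) ^ 2) ≤
      ∫ x in a..b, f' x ^ 2 := by
  have hba : 0 < b - a := sub_pos.2 hab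
  have hfc : ContinuousOn f (Icc a b) := fun x hx => (hf x hx).continuousAt.continuousWithinAt
  set F : ℝ → ℂ := fun x => (f x : ℂ) with hF
  set F' : ℝ → ℂ := fun x => (f' x : ℂ) with hF'
  have hFc : ContinuousOn F (Icc a b) := Complex.continuous_ofReal.comp_continuousOn hfc
  have hF'c : ContinuousOn F' (Icc a b) := Complex.continuous_ofReal.comp_continuousOn hf'
  have hs1 := hasSum_sq_fourierCoeffOn hab (memLp_two_of_cont F hFc)
  have hs2 := hasSum_sq_fourierCoeffOn hab (memLp_two_of_cont F' hF'c)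
  have hF'int : IntervalIntegrable F' volume a b := by
    apply ContinuousOn.intervalIntegrable
    rw [uIcc_of_le hab.le]; exact hF'c
  have hderiv : ∀ x, x ∈ [[a, b]] → HasDerivAt F (F' x) x := by
    intro x hx
    rw [uIcc_of_le hab.le] at hx
    exact (hf x hx).ofReal_comp
  have hcoef : ∀ n : ℤ, n ≠ 0 →
      ‖fourierCoeffOn hab F' n‖ ^ 2 =
        (2 * π / (b - a)) ^ 2 * (n : ℝ) ^ 2 * ‖fourierCoeffOn hab F n‖ ^ 2 := by
    intro n hn
    have h := fourierCoeffOn_of_hasDerivAt hab hn hderiv hF'int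
    have hFab : F b - F a = 0 := by simp [hF, hper]
    rw [hFab, mul_zero, zero_sub] at h
    have hnorm : ‖fourierCoeffOn hab F n‖ =
        (1 / (2 * π * |(n : ℝ)|)) * ((b - a) * ‖fourierCoeffOn hab F' n‖) := by
      rw [h, norm_mul, norm_neg, norm_mul]
      congr 1
      · simp [abs_of_pos Real.pi_pos]
      · congr 1
        rw [← Complex.ofReal_sub, Complex.norm_real, Real.norm_eq_abs, abs_of_pos hba]
    have hn' : (0 : ℝ) < |(n : ℝ)| := abs_pos.2 (Int.cast_ne_zero.2 hn)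
    have hpi := Real.pi_pos
    rw [hnorm, ← sq_abs (n : ℝ)]
    field_simp
  -- compare the sums
  have hs3 : HasSum (fun i : ℤ => if i = 0 then ‖fourierCoeffOn hab F 0‖ ^ 2 else 0)
      (‖fourierCoeffOn hab F 0‖ ^ 2) := by
    exact hasSum_ite_eq 0 _
  have hs4 := (hs1.sub hs3).mul_left ((2 * π / (b - a)) ^ 2)
  have hcmp := hasSum_le (fun i : ℤ => by
    show (2 * π / (b - a)) ^ 2 * (‖fourierCoeffOn hab F i‖ ^ 2 -
      (if i = 0 then ‖fourierCoeffOn hab F 0‖ ^ 2 else 0)) ≤ ‖fourierCoeffOn hab F' i‖ ^ 2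
    by_cases hi : i = 0
    · subst hi
      simp
    · rw [if_neg hi, sub_zero, hcoef i hi]
      have h1 : (1 : ℝ) ≤ (i : ℝ) ^ 2 := by
        have : (1 : ℤ) ≤ i ^ 2 := by
          have := sq_pos_of_ne_zero hi
          omega
        exact_mod_cast this
      have h2 : 0 ≤ (2 * π / (b - a)) ^ 2 * ‖fourierCoeffOn hab F i‖ ^ 2 := by positivity
      nlinarith) hs4 hs2
  -- compute coefficient zero
  have hc0 : fourierCoeffOn hab F 0 = (((b - a)⁻¹ * ∫ x in a..b, f x : ℝ) : ℂ) := by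
    rw [fourierCoeffOn_eq_integral]
    simp only [neg_zero, fourier_zero, one_smul, hF]
    rw [intervalIntegral.integral_ofReal]
    push_cast
    rw [one_div]
    simp [Complex.real_smul]
  have hn0 : ‖fourierCoeffOn hab F 0‖ ^ 2 = ((b - a)⁻¹) ^ 2 * (∫ x in a..b, f x) ^ 2 := by
    rw [hc0, Complex.norm_real, Real.norm_eq_abs, sq_abs, mul_pow]
  have hi1 : ∫ x in a..b, ‖F x‖ ^ 2 = ∫ x in a..b, f x ^ 2 := by
    congr 1; ext x; simp [hF]
  have hi2 : ∫ x in a..b, ‖F' x‖ ^ 2 = ∫ x in a..b, f' x ^ 2 := by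
    congr 1; ext x; simp [hF']
  rw [hn0, hi1, hi2, smul_eq_mul, smul_eq_mul] at hcmp
  have hinv : 0 < (b - a)⁻¹ := inv_pos.2 hba
  have : (b - a)⁻¹ * ((2 * π / (b - a)) ^ 2 * ((∫ x in a..b, f x ^ 2) -
      (b - a)⁻¹ * (∫ x in a..b, f x) ^ 2)) ≤ (b - a)⁻¹ * ∫ x in a..b, f' x ^ 2 := by
    calc _ = (2 * π / (b - a)) ^ 2 * ((b - a)⁻¹ * (∫ x in a..b, f x ^ 2) -
        ((b - a)⁻¹) ^ 2 * (∫ x in a..b, f x) ^ 2) := by ring
      _ ≤ _ := hcmp
  exact le_of_mul_le_mul_left this hinv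

end Pool.Agent.Helper23.Dir
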