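import Mathlib
import Pool.Agent.Helper23.Dir.Wirtinger1

set_option autoImplicit false

open MeasureTheory Set Real
open scoped Interval

namespace Pool.Agent.Helper23.Dir

lemma integral_eq_interval {R : ℝ} (f : ℝ → ℝ) (hs : ∀ x, x ∉ Ioo (-R) R → f x = 0) :
    ∫ x in (-R)..R, f x = ∫ x, f x := by
  apply intervalIntegral.integral_eq_integral_of_support_subset
  intro x hx
  by_contra hcon
  exact hx (hs x fun h => hcon (Ioo_subset_Ioc_self h))

/-- Cauchy-Schwarz. -/
lemma sq_integral_le {R : ℝ} (hR : 0 < R) (f : ℝ → ℝ) (hf : Continuous f)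
    (hs : ∀ x, x ∉ Ioo (-R) R → f x = 0) : (∫ x, f x) ^ 2 ≤ 2 * R * ∫ x, f x ^ 2 := by
  rw [← integral_eq_interval f hs, ← integral_eq_interval (fun x => f x ^ 2)
    (fun x hx => by simp [hs x hx])]
  set m : ℝ := (∫ x in (-R)..R, f x) / (2 * R) with hm
  have hm' : ∫ x in (-R)..R, f x = 2 * R * m := by rw [hm]; field_simp
  have h1 : 0 ≤ ∫ x in (-R)..R, (f x - m) ^ 2 :=
    intervalIntegral.integral_nonneg (by linarith) (fun x _ => sq_nonneg _)
  have h2 : ∫ x in (-R)..R, (f x - m) ^ 2 =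
      (∫ x in (-R)..R, f x ^ 2) - 2 * m * (∫ x in (-R)..R, f x) + 2 * R * m ^ 2 := by
    have e : ∀ x, (f x - m) ^ 2 = f x ^ 2 - 2 * m * f x + m ^ 2 := fun x => by ring
    simp_rw [e]
    rw [intervalIntegral.integral_add, intervalIntegral.integral_sub,
      intervalIntegral.integral_const_mul, intervalIntegral.integral_const, smul_eq_mul]
    · ring
    · exact (hf.pow 2).intervalIntegrable _ _
    · exact (hf.const_mul _).intervalIntegrable _ _
    · exact ((hf.pow 2).sub (hf.const_mul _)).intervalIntegrable _ _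
    · exact continuous_const.intervalIntegrable _ _
  rw [hm'] at h2 ⊢
  nlinarith

lemma cpt_supp {R : ℝ} (f : ℝ × ℝ → ℝ)
    (hs : ∀ p, p ∉ Ioo (-R) R ×ˢ Ioo (-R) R → f p = 0) : HasCompactSupport f := by
  apply HasCompactSupport.intro (isCompact_Icc.prod isCompact_Icc : IsCompact (Icc (-R) R ×ˢ
    Icc (-R) R))
  intro p hp
  exact hs p fun h => hp ⟨Ioo_subset_Icc_self h.1, Ioo_subset_Icc_self h.2⟩

lemma cpt_supp1 {R : ℝ} (f : ℝ → ℝ)
    (hs : ∀ p, p ∉ Ioo (-R) R → f p = 0) : HasCompactSupport f := by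
  apply HasCompactSupport.intro (isCompact_Icc : IsCompact (Icc (-R) R))
  intro p hp
  exact hs p fun h => hp (Ioo_subset_Icc_self h)

/-- parametric integrals -/
lemma cont_param {R : ℝ} (f : ℝ × ℝ → ℝ) (hf : Continuous f)
    (hs : ∀ p, p ∉ Ioo (-R) R ×ˢ Ioo (-R) R → f p = 0) :
    Continuous fun x => ∫ y, f (x, y) := by
  have h1 : (fun x => ∫ y, f (x, y)) = fun x => ∫ y in (-R)..R, f (x, y) := by
    ext x
    rw [integral_eq_interval (fun y => f (x, y)) (fun y hy => hs _ fun h => hy h.2)]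
  rw [h1]
  exact intervalIntegral.continuous_parametric_intervalIntegral_of_continuous'
    (f := fun x y => f (x, y)) (by exact hf) _ _

lemma deriv_param {R : ℝ} (u ux : ℝ × ℝ → ℝ) (hu : Continuous u) (hux : Continuous ux)
    (hx : ∀ x y, HasDerivAt (fun x => u (x, y)) (ux (x, y)) x)
    (hs : ∀ p, p ∉ Ioo (-R) R ×ˢ Ioo (-R) R → u p = 0)
    (hsx : ∀ p, p ∉ Ioo (-R) R ×ˢ Ioo (-R) R → ux p = 0) (x₀ : ℝ) :
    HasDerivAt (fun x => ∫ y, u (x, y)) (∫ y, ux (x₀, y)) x₀ := by
  obtain ⟨C, hC⟩ := hux.bounded_above_of_compact_support (cpt_supp ux hsx)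
  have h := hasDerivAt_integral_of_dominated_loc_of_deriv_le (μ := (volume : Measure ℝ))
    (F := fun x y => u (x, y)) (F' := fun x y => ux (x, y)) (x₀ := x₀) (s := univ)
    (bound := (Icc (-R) R).indicator fun _ => C) Filter.univ_mem ?_ ?_ ?_ ?_ ?_ ?_
  · exact h.2
  · exact Filter.Eventually.of_forall fun x =>
      (hu.comp (by fun_prop : Continuous fun y : ℝ => (x, y))).aestronglyMeasurable
  · exact (hu.comp (by fun_prop : Continuous fun y : ℝ => (x₀, y))).integrable_of_hasCompactSupport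
      (cpt_supp1 _ fun y hy => hs _ fun h => hy h.2)
  · exact (hux.comp (by fun_prop : Continuous fun y : ℝ => (x₀, y))).aestronglyMeasurable
  · refine Filter.Eventually.of_forall fun y x _ => ?_
    by_cases hy : y ∈ Icc (-R) R
    · rw [indicator_of_mem hy]; exact hC _
    · rw [indicator_of_notMem hy, hsx _ fun h => hy (Ioo_subset_Icc_self h.2)]
      simp
  · exact (integrable_indicator_iff measurableSet_Icc).2 (integrableOn_const (by simp) )
  · exact Filter.Eventually.of_forall fun y x _ => hx x y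

theorem wirtinger2_prod {R : ℝ} (hR : 0 < R) (u ux uy : ℝ × ℝ → ℝ) (hu : Continuous u)
    (hux : Continuous ux) (huy : Continuous uy)
    (hx : ∀ x y, HasDerivAt (fun x => u (x, y)) (ux (x, y)) x)
    (hy : ∀ x y, HasDerivAt (fun y => u (x, y)) (uy (x, y)) y)
    (hs : ∀ p, p ∉ Ioo (-R) R ×ˢ Ioo (-R) R → u p = 0)
    (hsx : ∀ p, p ∉ Ioo (-R) R ×ˢ Ioo (-R) R → ux p = 0)
    (hsy : ∀ p, p ∉ Ioo (-R) R ×ˢ Ioo (-R) R → uy p = 0)
    (h0 : ∫ p, u p = 0) :
    (π / R) ^ 2 * ∫ p, u p ^ 2 ≤ ∫ p, (ux p ^ 2 + uy p ^ 2) := by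
  have hint : ∀ f : ℝ × ℝ → ℝ, Continuous f →
      (∀ p, p ∉ Ioo (-R) R ×ˢ Ioo (-R) R → f p = 0) →
      Integrable f ((volume : Measure ℝ).prod (volume : Measure ℝ)) := by
    intro f hf hfs
    have := hf.integrable_of_hasCompactSupport (μ := (volume : Measure (ℝ × ℝ))) (cpt_supp f hfs)
    rwa [Measure.volume_eq_prod] at this
  have hsq : ∀ f : ℝ × ℝ → ℝ, (∀ p, p ∉ Ioo (-R) R ×ˢ Ioo (-R) R → f p = 0) →
      (∀ p, p ∉ Ioo (-R) R ×ˢ Ioo (-R) R → f p ^ 2 = 0) := fun f hf p hp => by simp [hf p hp]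
  have iu := hint u hu hs
  have iu2 := hint (fun p => u p ^ 2) (hu.pow 2) (hsq u hs)
  have ix2 := hint (fun p => ux p ^ 2) (hux.pow 2) (hsq ux hsx)
  have iy2 := hint (fun p => uy p ^ 2) (huy.pow 2) (hsq uy hsy)
  set V : ℝ → ℝ := fun x => ∫ y, u (x, y) with hV
  set V' : ℝ → ℝ := fun x => ∫ y, ux (x, y) with hV'
  have hVd : ∀ x, HasDerivAt V (V' x) x := fun x => deriv_param u ux hu hux hx hs hsx x
  have hVc : Continuous V := cont_param u hu hs
  have hV'c : Continuous V' := cont_param ux hux hsx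
  have hVs : ∀ x, x ∉ Ioo (-R) R → V x = 0 := by
    intro x hx
    simp only [hV]
    rw [show (fun y => u (x, y)) = fun _ => 0 from funext fun y => hs _ fun h => hx h.1]
    simp
  have hV's : ∀ x, x ∉ Ioo (-R) R → V' x = 0 := by
    intro x hx
    simp only [hV']
    rw [show (fun y => ux (x, y)) = fun _ => 0 from funext fun y => hsx _ fun h => hx h.1]
    simp
  have hc : 2 * π / (R - -R) = π / R := by field_simp; ring
  -- step 1
  have step1 : ∀ x, (π / R) ^ 2 * ((∫ y, u (x, y) ^ 2) - (2 * R)⁻¹ * V x ^ 2) ≤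
      ∫ y, uy (x, y) ^ 2 := by
    intro x
    have h := wirtinger1 (a := -R) (b := R) (by linarith) (fun y => u (x, y))
      (fun y => uy (x, y)) (fun y _ => hy x y)
      (huy.comp (by fun_prop : Continuous fun y : ℝ => (x, y))).continuousOn
      (by rw [hs (x, -R) (by simp), hs (x, R) (by simp)])
    rw [hc, show R - -R = 2 * R by ring] at h
    rw [integral_eq_interval (fun y => u (x, y) ^ 2)
      (fun y hy => hsq u hs _ fun h => hy h.2),
      integral_eq_interval (fun y => u (x, y)) (fun y hy => hs _ fun h => hy h.2),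
      integral_eq_interval (fun y => uy (x, y) ^ 2)
      (fun y hy => hsq uy hsy _ fun h => hy h.2)] at h
    exact h
  have iV2 : Integrable fun x => V x ^ 2 := (hVc.pow 2).integrable_of_hasCompactSupport
    (cpt_supp1 (R := R) _ fun x hx => by simp [hVs x hx])
  have step2 : (π / R) ^ 2 * ((∫ p, u p ^ 2) - (2 * R)⁻¹ * ∫ x, V x ^ 2) ≤ ∫ p, uy p ^ 2 := by
    have h := integral_mono (μ := (volume : Measure ℝ)) ?_ ?_ step1
    · rw [integral_const_mul, integral_sub, integral_const_mul] at h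
      · rw [Measure.volume_eq_prod, integral_prod _ iu2, integral_prod _ iy2]
        exact h
      · exact iu2.integral_prod_left
      · exact iV2.const_mul _
    · exact (iu2.integral_prod_left.sub (iV2.const_mul _)).const_mul _
    · exact iy2.integral_prod_left
  have step3 : (π / R) ^ 2 * ∫ x, V x ^ 2 ≤ ∫ x, V' x ^ 2 := by
    have h := wirtinger1 (a := -R) (b := R) (by linarith) V V' (fun y _ => hVd y)
      hV'c.continuousOn (by rw [hVs (-R) (by simp), hVs R (by simp)])
    rw [hc, integral_eq_interval (fun x => V x ^ 2) (fun x hx => by simp [hVs x hx]),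
      integral_eq_interval V hVs,
      integral_eq_interval (fun x => V' x ^ 2) (fun x hx => by simp [hV's x hx])] at h
    have h3 : ∫ x, V x = 0 := by
      rw [← h0, Measure.volume_eq_prod, integral_prod _ iu]
    rw [h3] at h
    simpa using h
  have step4 : ∫ x, V' x ^ 2 ≤ 2 * R * ∫ p, ux p ^ 2 := by
    have h : ∀ x, V' x ^ 2 ≤ 2 * R * ∫ y, ux (x, y) ^ 2 := by
      intro x
      exact sq_integral_le hR (fun y => ux (x, y))
        (hux.comp (by fun_prop : Continuous fun y : ℝ => (x, y)))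
        (fun y hy => hsx _ fun h => hy h.2)
    have h2 := integral_mono (μ := (volume : Measure ℝ)) ?_ ?_ h
    · rw [integral_const_mul] at h2
      rw [Measure.volume_eq_prod, integral_prod _ ix2]
      exact h2
    · exact (hV'c.pow 2).integrable_of_hasCompactSupport
        (cpt_supp1 (R := R) _ fun x hx => by simp [hV's x hx])
    · exact ix2.integral_prod_left.const_mul _
  rw [Measure.volume_eq_prod] at step2 step4 ⊢
  rw [integral_add ix2 iy2]
  have h5 : (π / R) ^ 2 * ((2 * R)⁻¹ * ∫ x, V x ^ 2) ≤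
      ∫ p, ux p ^ 2 ∂((volume : Measure ℝ).prod (volume : Measure ℝ)) := by
    have h6 := mul_le_mul_of_nonneg_left (step3.trans step4) (by positivity : 0 ≤ (2 * R)⁻¹)
    calc _ = (2 * R)⁻¹ * ((π / R) ^ 2 * ∫ x, V x ^ 2) := by ring
      _ ≤ _ := h6
      _ = _ := by field_simp
  linarith

/-- **Wirtinger's inequality in the plane.** -/
theorem wirtinger2 {R : ℝ} (hR : 0 < R) (U : ℂ → ℝ) (hU : ContDiff ℝ 1 U)
    (hs : ∀ z, U z ≠ 0 → ‖z‖ < R) (hs' : ∀ z, fderiv ℝ U z ≠ 0 → ‖z‖ < R)
    (h0 : ∫ z, U z = 0) :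
    (π / R) ^ 2 * ∫ z, U z ^ 2 ≤
      ∫ z, ((fderiv ℝ U z 1) ^ 2 + (fderiv ℝ U z Complex.I) ^ 2) := by
  have key : ∀ f : ℂ → ℝ, ∫ z, f z = ∫ p : ℝ × ℝ, f (Complex.equivRealProd.symm p) := by
    intro f
    rw [← (Complex.volume_preserving_equiv_real_prod.symm).integral_comp
      Complex.measurableEquivRealProd.symm.measurableEmbedding f]
    rfl
  have hfd : Continuous (fderiv ℝ U) := hU.continuous_fderiv (by norm_num)
  have hmk : Continuous fun p : ℝ × ℝ => Complex.equivRealProd.symm p :=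
    Complex.equivRealProdCLM.symm.continuous
  have hnorm : ∀ p : ℝ × ℝ, ‖Complex.equivRealProd.symm p‖ < R → p ∈ Ioo (-R) R ×ˢ Ioo (-R) R := by
    intro p hp
    have h1 := Complex.abs_re_le_norm (Complex.equivRealProd.symm p)
    have h2 := Complex.abs_im_le_norm (Complex.equivRealProd.symm p)
    rw [show (Complex.equivRealProd.symm p).re = p.1 from rfl] at h1
    rw [show (Complex.equivRealProd.symm p).im = p.2 from rfl] at h2
    exact ⟨abs_lt.1 (h1.trans_lt hp), abs_lt.1 (h2.trans_lt hp)⟩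
  rw [key] at h0
  rw [key, key]
  have hUd : Differentiable ℝ U := hU.differentiable (by norm_num)
  apply wirtinger2_prod hR (fun p => U (Complex.equivRealProd.symm p))
    (fun p => fderiv ℝ U (Complex.equivRealProd.symm p) 1)
    (fun p => fderiv ℝ U (Complex.equivRealProd.symm p) Complex.I)
  · exact hU.continuous.comp hmk
  · exact (hfd.comp hmk).clm_apply continuous_const
  · exact (hfd.comp hmk).clm_apply continuous_const
  · intro x y
    have h1 : HasDerivAt (fun x : ℝ => (Complex.equivRealProd.symm (x, y) : ℂ)) 1 x := by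
      have : (fun x : ℝ => (Complex.equivRealProd.symm (x, y) : ℂ)) =
          fun x : ℝ => (x : ℂ) + (y : ℂ) * Complex.I := by
        ext x
        exact Complex.equivRealProd_symm_apply (x, y)
      rw [this]
      exact (Complex.ofRealCLM.hasDerivAt (x := x)).add_const _
    exact (hUd _).hasFDerivAt.comp_hasDerivAt x h1
  · intro x y
    have h1 : HasDerivAt (fun y : ℝ => (Complex.equivRealProd.symm (x, y) : ℂ)) Complex.I y := by
      have : (fun y : ℝ => (Complex.equivRealProd.symm (x, y) : ℂ)) =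
          fun y : ℝ => (x : ℂ) + (y : ℂ) * Complex.I := by
        ext y
        exact Complex.equivRealProd_symm_apply (x, y)
      rw [this]
      have h2 := ((Complex.ofRealCLM.hasDerivAt (x := y)).mul_const Complex.I).const_add (x : ℂ)
      simpa using h2
    exact (hUd _).hasFDerivAt.comp_hasDerivAt y h1
  · intro p hp
    by_contra hcon
    exact hp (hnorm p (hs _ hcon))
  · intro p hp
    by_contra hcon
    exact hp (hnorm p (hs' _ fun h => hcon (by rw [h]; rfl)))
  · intro p hp
    by_contra hcon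
    exact hp (hnorm p (hs' _ fun h => hcon (by rw [h]; rfl)))
  · exact h0

end Pool.Agent.Helper23.Dir
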