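import Mathlib
import Pool.Agent.Helper23.Dir.Forms
import Pool.Agent.Helper23.Dir.Wirtinger2

set_option autoImplicit false

open Set Metric Bundle Topology MeasureTheory
open scoped Manifold ContDiff ENNReal

namespace Pool.Agent.Helper23.Dir

section surf

variable {G : Type} [Group G] [TopologicalSpace G] [DiscreteTopology G] {a b : G}

/-- the deck transformations -/
def act (g : G) (x : Surf a b) : Surf a b := ⟨x.proj, (g * rawf x : G)⟩

@[simp] lemma pr_act (g : G) (x : Surf a b) : pr (act g x) = pr x := rfl

@[simp] lemma rawf_act (g : G) (x : Surf a b) : rawf (act g x) = g * rawf x := rfl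

lemma proj_act (g : G) (x : Surf a b) : (act g x).proj = x.proj := rfl

lemma fib_act (i : Bool) (g : G) (x : Surf a b) : fib i (act g x) = g * fib i x := by
  simp [fib, mul_assoc]

lemma act_one (x : Surf a b) : act 1 x = x := surf_ext rfl (by simp)

lemma act_act (g h : G) (x : Surf a b) : act g (act h x) = act (g * h) x :=
  surf_ext rfl (by simp [mul_assoc])

lemma act_sec (i : Bool) (g h : G) (q : Qset) : act g (sec a b i h q) = sec a b i (g * h) q :=
  surf_ext rfl (by simp [mul_assoc])

lemma act_secC (i : Bool) (g h : G) (z : ℂ) : act g (secC a b i h z) = secC a b i (g * h) z := by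
  by_cases hz : z ∈ Qset
  · rw [secC_of_mem hz, secC_of_mem hz, act_sec]
  · simp only [secC, hz, dif_neg, not_false_eq_true, act_sec]

lemma continuous_act (g : G) : Continuous (act g : Surf a b → Surf a b) := by
  rw [continuous_iff_continuousAt]
  intro x₀
  set i := ind (pr x₀)
  have hx₀ : pr x₀ ∉ slit i := ind_notMem (pr_mem x₀)
  have ho : IsOpen {x : Surf a b | pr x ∉ slit i} :=
    (isClosed_slit i).isOpen_compl.preimage continuous_pr
  have hc : ContinuousOn (act g : Surf a b → Surf a b) {x | pr x ∉ slit i} := by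
    have h := ((core a b).localTriv i).toOpenPartialHomeomorph.continuousOn_symm
    have h0 : ContinuousOn (fun x : Surf a b => g * fib i x) {x | pr x ∉ slit i} :=
      (continuous_of_discreteTopology (f := fun y : G => g * y)).comp_continuousOn
        (fib_continuousOn i)
    have h2 : ContinuousOn (fun x : Surf a b => ((x.proj : Qset), g * fib i x))
        {x | pr x ∉ slit i} := (core a b).continuous_proj.continuousOn.prodMk h0
    have h3 := h.comp h2 (fun x hx => ((core a b).mem_localTriv_target i _).2 hx)
    apply h3.congr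
    intro x hx
    change act g x = sec a b i (g * fib i x) x.proj
    rw [← act_sec, sec_fib]
  exact hc.continuousAt (ho.mem_nhds hx₀)

/-- a continuous map over the plane is smooth -/
lemma contMDiff_of_lift (f : Surf a b → Surf a b) (hf : Continuous f) (hpf : ∀ x, pr (f x) = pr x) :
    ContMDiff (𝓡∂ 2) (𝓡∂ 2) ∞ f := by
  intro x
  rw [contMDiffAt_iff_target]
  refine ⟨hf.continuousAt, ?_⟩
  have h1 : pr x ∈ (bc (f x)).Φ.source := by
    rw [← hpf]; exact bc_mem (f x)
  have h2 : ContMDiffAt (𝓡∂ 2) 𝓘(ℝ, E2) ∞ ((bc (f x)).Φ ∘ pr) x :=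
    (((bc (f x)).smooth.contDiffAt ((bc (f x)).Φ.open_source.mem_nhds h1)).contMDiffAt).comp x
      (contMDiff_pr x)
  apply h2.congr_of_eventuallyEq
  have h3 : f ⁻¹' (chartAt (EuclideanHalfSpace 2) (f x)).source ∈ 𝓝 x :=
    hf.continuousAt.preimage_mem_nhds
      ((chartAt (EuclideanHalfSpace 2) (f x)).open_source.mem_nhds (mem_chart_source _ _))
  filter_upwards [h3] with y hy
  change extChartAt (𝓡∂ 2) (f x) (f y) = (bc (f x)).Φ (pr y)
  rw [ext_apply hy, hpf]

lemma comp_act_mem {u : Surf a b → ℝ} (hu : u ∈ testFun (Surf a b)) [Finite G] (g : G) :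
    u ∘ act g ∈ testFun (Surf a b) := by
  refine ⟨hu.1.comp (contMDiff_of_lift (act g) (continuous_act g) fun x => rfl),
    (isClosed_tsupport _).isCompact, ?_⟩
  have h1 : tsupport (u ∘ act g) ⊆ (act g) ⁻¹' tsupport u := by
    apply closure_minimal
    · intro x hx
      exact subset_tsupport u hx
    · exact (isClosed_tsupport u).preimage (continuous_act g)
  intro x hx
  rw [mem_interior_iff]
  have := hu.2.2 (h1 hx)
  rwa [mem_interior_iff, pr_act] at this

lemma pull_comp_act (i : Bool) (g h : G) (u : Surf a b → ℝ) :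
    pull i h (u ∘ act g) = pull i (g * h) u := by
  ext z
  by_cases hz : z ∈ Qset
  · rw [pull_of_mem hz, pull_of_mem hz, Function.comp_apply, act_secC]
  · rw [pull_of_notMem hz, pull_of_notMem hz]

variable [Fintype G]

variable (a b) in
/-- the representation of the group on test functions -/
noncomputable def rep : G →* (testFun (Surf a b) →ₗ[ℝ] testFun (Surf a b)) where
  toFun g :=
    { toFun := fun u => ⟨(u : Surf a b → ℝ) ∘ act g⁻¹, comp_act_mem u.2 g⁻¹⟩
      map_add' := fun u v => rfl
      map_smul' := fun c u => rfl }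
  map_one' := by
    apply LinearMap.ext
    intro u
    apply Subtype.ext
    funext x
    simp [act_one]
  map_mul' g h := by
    apply LinearMap.ext
    intro u
    apply Subtype.ext
    funext x
    simp [act_act]

lemma rep_apply (g : G) (u : testFun (Surf a b)) :
    ((rep a b g u : testFun (Surf a b)) : Surf a b → ℝ) = (u : Surf a b → ℝ) ∘ act g⁻¹ := rfl

lemma Eform_rep (g : G) (u v : testFun (Surf a b)) :
    Eform a b (rep a b g u) (rep a b g v) = Eform a b u v := by
  rw [Eform_apply, Eform_apply, rep_apply, rep_apply]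
  unfold Efun
  simp only [pull_comp_act]
  exact (Equiv.prodCongr (Equiv.refl Bool) (Equiv.mulLeft g⁻¹)).sum_comp
    (fun p : Bool × G => ∫ z in Hset p.1, dens (pull p.1 p.2 (u : Surf a b → ℝ))
      (pull p.1 p.2 (v : Surf a b → ℝ)) z)

lemma Bform_rep (g : G) (u v : testFun (Surf a b)) :
    Bform a b (rep a b g u) (rep a b g v) = Bform a b u v := by
  rw [Bform_apply, Bform_apply, rep_apply, rep_apply]
  unfold Bfun
  simp only [pull_comp_act]
  exact (Equiv.prodCongr (Equiv.refl Bool) (Equiv.mulLeft g⁻¹)).sum_comp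
    (fun p : Bool × G => ∫ z in Hset p.1, pull p.1 p.2 (u : Surf a b → ℝ) z *
      pull p.1 p.2 (v : Surf a b → ℝ) z)

/-- integrals over the two halves -/
lemma integral_halves (f : ℂ → ℝ) (hf : Integrable f) (h0 : ∀ z, z ∉ Qset → f z = 0) :
    (∫ z in Hset true, f z) + ∫ z in Hset false, f z = ∫ z, f z := by
  rw [← setIntegral_union _ (measurableSet_Hset false) hf.integrableOn hf.integrableOn]
  · have h1 : ∫ z in Hset true ∪ Hset false, f z = ∫ z in Qset, f z := by
      apply setIntegral_congr_set
      have h2 : Hset true ∪ Hset false ⊆ Qset :=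
        union_subset (Hset_subset_Q true) (Hset_subset_Q false)
      rw [ae_eq_set]
      refine ⟨?_, ae_Hset⟩
      rw [sdiff_eq_empty.2 h2]
      simp
    rw [h1]
    exact setIntegral_eq_integral_of_forall_compl_eq_zero fun z hz => h0 z hz
  · rw [Set.disjoint_left]
    intro z h1 h2
    exact Hset_disjoint (by decide) h1 h2

/-- descent of invariant functions -/
lemma pull_invariant (u : testFun (Surf a b)) (hu : ∀ g, rep a b g u = u) (i : Bool) (g : G) :
    pull i g (u : Surf a b → ℝ) = pull true 1 (u : Surf a b → ℝ) := by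
  have hinv : ∀ g x, (u : Surf a b → ℝ) (act g x) = (u : Surf a b → ℝ) x := by
    intro g x
    have h1 := congrArg (fun v : testFun (Surf a b) => (v : Surf a b → ℝ) x) (hu g⁻¹)
    simp only [rep_apply, inv_inv, Function.comp_apply] at h1
    exact h1
  ext z
  by_cases hz : z ∈ Qset
  · rw [pull_of_mem hz, pull_of_mem hz]
    have h2 : secC a b i g z = act (rawf (secC a b i g z) * (rawf (secC a b true 1 z))⁻¹)
        (secC a b true 1 z) := by
      apply surf_ext
      · rw [proj_act, secC_of_mem hz, secC_of_mem hz]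
        rfl
      · simp
    rw [h2, hinv]
  · rw [pull_of_notMem hz, pull_of_notMem hz]

/-- the descended function -/
lemma contDiff_invariant (u : testFun (Surf a b)) (hu : ∀ g, rep a b g u = u) :
    ContDiff ℝ ∞ (pull true 1 (u : Surf a b → ℝ)) := by
  rw [contDiff_iff_contDiffAt]
  intro z
  by_cases h1 : z ∈ slit true
  · by_cases h2 : z ∈ slit false
    · have hzQ : z ∉ Qset := fun h => slit_inter h h1 h2
      obtain ⟨K, hK, hKQ, hK0⟩ := exists_supp u.2
      have hzK : z ∉ K := fun h => hzQ (Qint_subset (hKQ h))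
      have h3 : pull true 1 (u : Surf a b → ℝ) =ᶠ[𝓝 z] fun _ => 0 := by
        filter_upwards [hK.isClosed.isOpen_compl.mem_nhds hzK] with w hw
        exact hK0 _ _ w hw
      exact contDiffAt_const.congr_of_eventuallyEq h3
    · rw [← pull_invariant u hu false 1]
      exact pull_contDiffAt u.2 1 h2
  · exact pull_contDiffAt u.2 1 h1

omit [Fintype G] in
lemma compact_invariant (u : testFun (Surf a b)) :
    HasCompactSupport (pull true 1 (u : Surf a b → ℝ)) := by
  obtain ⟨K, hK, _, hK0⟩ := exists_supp u.2
  exact HasCompactSupport.intro hK fun z hz => hK0 _ _ z hz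

omit [Fintype G] in
lemma fderiv_zero_of {u : Surf a b → ℝ} (hu : u ∈ testFun (Surf a b)) {z : ℂ} (hz : z ∉ Qint)
    (i : Bool) (g : G) : fderiv ℝ (pull i g u) z = 0 := by
  obtain ⟨K, hK, hKQ, hK0⟩ := exists_supp hu
  have hzK : z ∉ K := fun h => hz (hKQ h)
  have h3 : pull i g u =ᶠ[𝓝 z] fun _ => 0 := by
    filter_upwards [hK.isClosed.isOpen_compl.mem_nhds hzK] with w hw
    exact hK0 _ _ w hw
  rw [h3.fderiv_eq]
  simp

lemma Eform_invariant (u : testFun (Surf a b)) (hu : ∀ g, rep a b g u = u) :
    Eform a b u u = Fintype.card G * ∫ z, dens (pull true 1 (u : Surf a b → ℝ))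
      (pull true 1 (u : Surf a b → ℝ)) z := by
  rw [Eform_apply]
  unfold Efun
  simp only [pull_invariant u hu]
  rw [Fintype.sum_prod_type]
  simp only [Finset.sum_const, Finset.card_univ, nsmul_eq_mul]
  rw [← Finset.mul_sum]
  congr 1
  rw [Fintype.sum_bool]
  apply integral_halves
  · have h1 := contDiff_invariant u hu
    have hc : ∀ w : ℂ, Continuous fun z => fderiv ℝ (pull true 1 (u : Surf a b → ℝ)) z w :=
      fun w => (h1.continuous_fderiv (by simp)).clm_apply continuous_const
    have h2 : Continuous (dens (pull true 1 (u : Surf a b → ℝ)) (pull true 1 (u : Surf a b → ℝ))) :=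
      ((hc 1).mul (hc 1)).add ((hc _).mul (hc _))
    apply h2.integrable_of_hasCompactSupport
    apply HasCompactSupport.intro isCompact_Qset
    intro z hz
    unfold dens
    rw [fderiv_zero_of u.2 (fun h => hz (Qint_subset h))]
    simp
  · intro z hz
    unfold dens
    rw [fderiv_zero_of u.2 (fun h => hz (Qint_subset h))]
    simp

lemma Bform_invariant (u : testFun (Surf a b)) (hu : ∀ g, rep a b g u = u) :
    Bform a b u u = Fintype.card G * ∫ z, pull true 1 (u : Surf a b → ℝ) z *
      pull true 1 (u : Surf a b → ℝ) z := by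
  rw [Bform_apply]
  unfold Bfun
  simp only [pull_invariant u hu]
  rw [Fintype.sum_prod_type]
  simp only [Finset.sum_const, Finset.card_univ, nsmul_eq_mul]
  rw [← Finset.mul_sum]
  congr 1
  rw [Fintype.sum_bool]
  apply integral_halves
  · have h1 := (contDiff_invariant u hu).continuous
    apply (h1.mul h1).integrable_of_hasCompactSupport
    exact (compact_invariant u).mul_right
  · intro z hz
    rw [pull_of_notMem hz, zero_mul]

/-- Invariant functions of mean zero have large energy. -/
theorem wirtinger_invariant (u : testFun (Surf a b)) (hu : ∀ g, rep a b g u = u)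
    (h0 : ∫ z, pull true 1 (u : Surf a b → ℝ) z = 0) :
    (Real.pi / 10) ^ 2 * Bform a b u u ≤ Eform a b u u := by
  rw [Eform_invariant u hu, Bform_invariant u hu]
  have h1 := wirtinger2 (R := 10) (by norm_num) (pull true 1 (u : Surf a b → ℝ))
    ((contDiff_invariant u hu).of_le (by simp)) ?_ ?_ h0
  · have h2 : ∫ z, dens (pull true 1 (u : Surf a b → ℝ)) (pull true 1 (u : Surf a b → ℝ)) z =
        ∫ z, ((fderiv ℝ (pull true 1 (u : Surf a b → ℝ)) z 1) ^ 2 +
          (fderiv ℝ (pull true 1 (u : Surf a b → ℝ)) z Complex.I) ^ 2) := by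
      congr 1
      ext z
      unfold dens
      ring
    have h3 : ∫ z, pull true 1 (u : Surf a b → ℝ) z * pull true 1 (u : Surf a b → ℝ) z =
        ∫ z, pull true 1 (u : Surf a b → ℝ) z ^ 2 := by
      congr 1
      ext z
      ring
    rw [h2, h3]
    have h4 : (0 : ℝ) ≤ Fintype.card G := by positivity
    calc _ = (Fintype.card G : ℝ) * ((Real.pi / 10) ^ 2 *
        ∫ z, pull true 1 (u : Surf a b → ℝ) z ^ 2) := by ring
      _ ≤ _ := mul_le_mul_of_nonneg_left h1 h4
  · intro z hz
    obtain ⟨K, hK, hKQ, hK0⟩ := exists_supp u.2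
    have : z ∈ K := by
      by_contra hcon
      exact hz (hK0 _ _ z hcon)
    exact (hKQ this).1
  · intro z hz
    by_contra hcon
    apply hz
    exact fderiv_zero_of u.2 (fun h => hcon h.1) _ _

/-- Two-dimensional spaces of invariant test functions contain functions of large energy. -/
theorem H1_surf (L : Submodule ℝ (testFun (Surf a b))) (hL : Module.finrank ℝ L = 2)
    (hinv : ∀ u ∈ L, ∀ g, rep a b g u = u) :
    ∃ u ∈ L, u ≠ 0 ∧ (Real.pi / 10) ^ 2 * Bform a b u u ≤ Eform a b u u := by
  have hint : ∀ u : L, Integrable (pull true 1 ((u : testFun (Surf a b)) : Surf a b → ℝ)) := by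
    intro u
    exact (contDiff_invariant u.1 (hinv u.1 u.2)).continuous.integrable_of_hasCompactSupport
      (compact_invariant u.1)
  let φ : L →ₗ[ℝ] ℝ :=
    { toFun := fun u => ∫ z, pull true 1 ((u : testFun (Surf a b)) : Surf a b → ℝ) z
      map_add' := fun u v => by
        rw [← integral_add (hint u) (hint v)]
        congr 1
        ext z
        have := pull_add (a := a) (b := b) true 1 ((u : testFun (Surf a b)) : Surf a b → ℝ)
          ((v : testFun (Surf a b)) : Surf a b → ℝ)
        exact congrFun this z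
      map_smul' := fun c u => by
        rw [RingHom.id_apply, smul_eq_mul, ← integral_const_mul]
        congr 1
        ext z
        have := pull_smul (a := a) (b := b) true 1 c ((u : testFun (Surf a b)) : Surf a b → ℝ)
        exact congrFun this z }
  have hfin : FiniteDimensional ℝ L := FiniteDimensional.of_finrank_pos (by omega)
  have hker : LinearMap.ker φ ≠ ⊥ := by
    intro hbot
    have hinj : Function.Injective φ := by
      intro x y hxy
      have h2 : φ (x - y) = φ x - φ y := LinearMap.map_sub φ x y
      have hmem : x - y ∈ LinearMap.ker φ := by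
        rw [LinearMap.mem_ker, h2, hxy, sub_self]
      rw [hbot, Submodule.mem_bot] at hmem
      exact sub_eq_zero.1 hmem
    have h1 := LinearMap.finrank_le_finrank_of_injective hinj
    rw [hL, Module.finrank_self] at h1
    omega
  obtain ⟨u, hu, hu0⟩ := (LinearMap.ker φ).exists_mem_ne_zero_of_ne_bot hker
  refine ⟨u.1, u.2, fun h => hu0 (Subtype.ext h), ?_⟩
  exact wirtinger_invariant u.1 (hinv u.1 u.2) hu

end surf

end Pool.Agent.Helper23.Dir
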