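import Mathlib

set_option autoImplicit false

/-!
Finite two-generated groups all of whose low-dimensional real representations are trivial.
-/

open Module

namespace Pool.Agent.Helper23.Dir

section rep

variable {G : Type} [Group G]

/-- The determinant trick: if `Z = [X, Y]` commutes with `X` and `Y` and `Z ^ p = 1` then
`Z = 1` in dimension `< p`. -/
lemma complex_trick {V : Type} [AddCommGroup V] [Module ℂ V] [FiniteDimensional ℂ V]
    (p : ℕ) [hp : Fact p.Prime] (hV : finrank ℂ V < p)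
    (X X' Y Y' Z : V →ₗ[ℂ] V) (hX : X * X' = 1) (hX' : X' * X = 1) (hY : Y * Y' = 1)
    (hY' : Y' * Y = 1)
    (hZ : Z = X * Y * X' * Y') (hZX : Z * X = X * Z) (hZY : Z * Y = Y * Z)
    (hZp : Z ^ p = 1) : Z = 1 := by
  by_contra hne
  -- the range of `Z - 1` is nonzero
  set K : Submodule ℂ V := LinearMap.range (Z - 1) with hK
  have hKne : K ≠ ⊥ := by
    intro h
    rw [hK, LinearMap.range_eq_bot] at h
    exact hne (sub_eq_zero.1 h)
  have hZK : ∀ v ∈ K, Z v ∈ K := by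
    rintro _ ⟨v, rfl⟩
    refine ⟨Z v, ?_⟩
    simp only [LinearMap.sub_apply, Module.End.one_apply, map_sub]
  have : Nontrivial K := Submodule.nontrivial_iff_ne_bot.2 hKne
  obtain ⟨ζ, hζ⟩ := Module.End.exists_eigenvalue (Z.restrict hZK)
  obtain ⟨⟨w, hwK⟩, hw⟩ := hζ.exists_hasEigenvector
  have hw0 : w ≠ 0 := fun h => hw.2 (by ext; exact h)
  have hwZ : Z w = ζ • w := by
    have := hw.apply_eq_smul
    have h2 := congrArg Subtype.val this
    simpa using h2
  -- powers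
  have hpow : ∀ n : ℕ, (Z ^ n) w = ζ ^ n • w := by
    intro n
    induction n with
    | zero => simp
    | succ n ih => rw [pow_succ', Module.End.mul_apply, ih, map_smul, hwZ, smul_smul, pow_succ]
  have hζp : ζ ^ p = 1 := by
    have h1 := hpow p
    rw [hZp, Module.End.one_apply] at h1
    have h2 : (ζ ^ p - 1) • w = 0 := by rw [sub_smul, one_smul, ← h1, sub_self]
    rcases smul_eq_zero.1 h2 with h | h
    · exact sub_eq_zero.1 h
    · exact absurd h hw0
  -- eigenspace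
  set W : Submodule ℂ V := Module.End.eigenspace Z ζ with hW
  have hmemW : ∀ v, v ∈ W ↔ Z v = ζ • v := fun v => Module.End.mem_eigenspace_iff
  have hWX : ∀ v ∈ W, X v ∈ W := by
    intro v hv
    rw [hmemW] at hv ⊢
    rw [← Module.End.mul_apply, hZX, Module.End.mul_apply, hv, map_smul]
  have hWY : ∀ v ∈ W, Y v ∈ W := by
    intro v hv
    rw [hmemW] at hv ⊢
    rw [← Module.End.mul_apply, hZY, Module.End.mul_apply, hv, map_smul]
  have hZX' : Z * X' = X' * Z := by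
    calc Z * X' = X' * X * Z * X' := by rw [hX', one_mul]
      _ = X' * (X * Z) * X' := by simp only [mul_assoc]
      _ = X' * (Z * X) * X' := by rw [hZX]
      _ = X' * Z * (X * X') := by simp only [mul_assoc]
      _ = X' * Z := by rw [hX, mul_one]
  have hZY' : Z * Y' = Y' * Z := by
    calc Z * Y' = Y' * Y * Z * Y' := by rw [hY', one_mul]
      _ = Y' * (Y * Z) * Y' := by simp only [mul_assoc]
      _ = Y' * (Z * Y) * Y' := by rw [hZY]
      _ = Y' * Z * (Y * Y') := by simp only [mul_assoc]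
      _ = Y' * Z := by rw [hY, mul_one]
  have hWX' : ∀ v ∈ W, X' v ∈ W := by
    intro v hv
    rw [hmemW] at hv ⊢
    rw [← Module.End.mul_apply, hZX', Module.End.mul_apply, hv, map_smul]
  have hWY' : ∀ v ∈ W, Y' v ∈ W := by
    intro v hv
    rw [hmemW] at hv ⊢
    rw [← Module.End.mul_apply, hZY', Module.End.mul_apply, hv, map_smul]
  -- determinants on W
  have e1 : X.restrict hWX * X'.restrict hWX' = 1 := by
    ext v
    have := LinearMap.congr_fun hX v.1
    simpa using this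
  have e2 : Y.restrict hWY * Y'.restrict hWY' = 1 := by
    ext v
    have := LinearMap.congr_fun hY v.1
    simpa using this
  have e3 : X.restrict hWX * Y.restrict hWY * X'.restrict hWX' * Y'.restrict hWY' =
      ζ • (1 : W →ₗ[ℂ] W) := by
    ext v
    have h1 := (hmemW v.1).1 v.2
    rw [hZ] at h1
    simpa using h1
  have e4 := congrArg LinearMap.det e3
  have d1 := congrArg LinearMap.det e1
  have d2 := congrArg LinearMap.det e2
  simp only [map_mul, map_one, LinearMap.det_smul, mul_one] at e4 d1 d2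
  have e5 : ζ ^ finrank ℂ W = 1 := by
    rw [← e4]
    calc LinearMap.det (X.restrict hWX) * LinearMap.det (Y.restrict hWY) *
          LinearMap.det (X'.restrict hWX') * LinearMap.det (Y'.restrict hWY')
        = (LinearMap.det (X.restrict hWX) * LinearMap.det (X'.restrict hWX')) *
          (LinearMap.det (Y.restrict hWY) * LinearMap.det (Y'.restrict hWY')) := by ring
      _ = 1 := by rw [d1, d2, mul_one]
  have hWpos : 0 < finrank ℂ W := by
    have : Nontrivial W := by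
      refine ⟨⟨⟨w, (hmemW w).2 hwZ⟩, 0, fun h => hw0 ?_⟩⟩
      exact congrArg Subtype.val h
    exact finrank_pos
  have hWlt : finrank ℂ W < p := (Submodule.finrank_le W).trans_lt hV
  have hζ1 : ζ = 1 := by
    have hcop : Nat.Coprime p (finrank ℂ W) :=
      (Nat.Prime.coprime_iff_not_dvd hp.out).2 (Nat.not_dvd_of_pos_of_lt hWpos hWlt)
    have h1 : orderOf ζ ∣ p := orderOf_dvd_of_pow_eq_one hζp
    have h2 : orderOf ζ ∣ finrank ℂ W := orderOf_dvd_of_pow_eq_one e5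
    have h3 : orderOf ζ ∣ 1 := by
      rw [← hcop.gcd_eq_one]
      exact Nat.dvd_gcd h1 h2
    exact orderOf_eq_one_iff.1 (Nat.dvd_one.1 h3)
  -- final contradiction
  rw [hζ1, one_smul] at hwZ
  obtain ⟨v, hv⟩ := hwK
  have hZv : Z v = v + w := by
    rw [← hv]; simp
  have hpow2 : ∀ n : ℕ, (Z ^ n) v = v + n • w := by
    intro n
    induction n with
    | zero => simp
    | succ n ih =>
      rw [pow_succ', Module.End.mul_apply, ih, map_add, map_nsmul, hZv, hwZ, succ_nsmul]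
      abel
  have h1 := hpow2 p
  rw [hZp, Module.End.one_apply] at h1
  have h2 : p • w = 0 := by
    have : v + p • w = v + 0 := by rw [← h1, add_zero]
    exact add_left_cancel this
  rw [← Nat.cast_smul_eq_nsmul ℂ] at h2
  rcases smul_eq_zero.1 h2 with h | h
  · have : (p : ℂ) ≠ 0 := by
      exact_mod_cast hp.out.ne_zero
    exact this h
  · exact hw0 h

/-- The same over the reals, for a homomorphism into linear endomorphisms. -/
lemma real_trick {V : Type} [AddCommGroup V] [Module ℝ V] [FiniteDimensional ℝ V]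
    (p : ℕ) [hp : Fact p.Prime] (hV : finrank ℝ V < p) (ρ : G →* (V →ₗ[ℝ] V))
    (x y z : G) (hz : z = x * y * x⁻¹ * y⁻¹) (hzx : z * x = x * z) (hzy : z * y = y * z)
    (hzp : z ^ p = 1) : ρ z = 1 := by
  classical
  let b := Module.finBasis ℝ V
  let d := finrank ℝ V
  let φ₁ : (V →ₗ[ℝ] V) →* Matrix (Fin d) (Fin d) ℝ :=
    ((LinearMap.toMatrixAlgEquiv b : (V →ₗ[ℝ] V) ≃ₐ[ℝ] Matrix (Fin d) (Fin d) ℝ) :
      (V →ₗ[ℝ] V) →* Matrix (Fin d) (Fin d) ℝ)
  let φ₂ : Matrix (Fin d) (Fin d) ℝ →* Matrix (Fin d) (Fin d) ℂ :=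
    ((algebraMap ℝ ℂ).mapMatrix : Matrix (Fin d) (Fin d) ℝ →+* Matrix (Fin d) (Fin d) ℂ)
  let φ₃ : Matrix (Fin d) (Fin d) ℂ →* ((Fin d → ℂ) →ₗ[ℂ] (Fin d → ℂ)) :=
    ((Matrix.toLinAlgEquiv' : Matrix (Fin d) (Fin d) ℂ ≃ₐ[ℂ] _) :
      Matrix (Fin d) (Fin d) ℂ →* ((Fin d → ℂ) →ₗ[ℂ] (Fin d → ℂ)))
  let Φ : G →* ((Fin d → ℂ) →ₗ[ℂ] (Fin d → ℂ)) := φ₃.comp (φ₂.comp (φ₁.comp ρ))
  have key : Φ z = 1 := by
    apply complex_trick p (by simpa using hV) (Φ x) (Φ x⁻¹) (Φ y) (Φ y⁻¹) (Φ z)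
    · rw [← map_mul]; simp
    · rw [← map_mul]; simp
    · rw [← map_mul]; simp
    · rw [← map_mul]; simp
    · rw [hz]; simp only [map_mul]
    · rw [← map_mul, hzx, map_mul]
    · rw [← map_mul, hzy, map_mul]
    · rw [← map_pow, hzp, map_one]
  have h3 : φ₂ (φ₁ (ρ z)) = 1 := by
    have : φ₃ (φ₂ (φ₁ (ρ z))) = φ₃ 1 := by rw [map_one]; exact key
    exact (Matrix.toLinAlgEquiv' : Matrix (Fin d) (Fin d) ℂ ≃ₐ[ℂ] _).injective this
  have h2 : φ₁ (ρ z) = 1 := by
    have : φ₂ (φ₁ (ρ z)) = φ₂ 1 := by rw [map_one]; exact h3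
    exact Matrix.map_injective (algebraMap ℝ ℂ).injective this
  have : φ₁ (ρ z) = φ₁ 1 := by rw [map_one]; exact h2
  exact (LinearMap.toMatrixAlgEquiv b).injective this

end rep

section matrices

variable (p : ℕ)

/-- matrices over `ZMod p` -/
abbrev Mt : Type := Matrix (Fin 3) (Fin 3) (ZMod p)

lemma mt_ext {A B : Mt p} (h00 : A 0 0 = B 0 0) (h01 : A 0 1 = B 0 1) (h02 : A 0 2 = B 0 2)
    (h10 : A 1 0 = B 1 0) (h11 : A 1 1 = B 1 1) (h12 : A 1 2 = B 1 2)
    (h20 : A 2 0 = B 2 0) (h21 : A 2 1 = B 2 1) (h22 : A 2 2 = B 2 2) : A = B := by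
  ext i j
  fin_cases i <;> fin_cases j <;> assumption

/-- the elementary matrix `1 + t E₀₁` -/
def x01 (t : ZMod p) : (Mt p)ˣ where
  val := !![1, t, 0; 0, 1, 0; 0, 0, 1]
  inv := !![1, -t, 0; 0, 1, 0; 0, 0, 1]
  val_inv := by
    apply mt_ext <;> simp [Matrix.mul_apply, Fin.sum_univ_three]
  inv_val := by
    apply mt_ext <;> simp [Matrix.mul_apply, Fin.sum_univ_three]

/-- the cyclic permutation matrix -/
def wM : (Mt p)ˣ where
  val := !![0, 0, 1; 1, 0, 0; 0, 1, 0]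
  inv := !![0, 1, 0; 0, 0, 1; 1, 0, 0]
  val_inv := by
    apply mt_ext <;> simp [Matrix.mul_apply, Fin.sum_univ_three]
  inv_val := by
    apply mt_ext <;> simp [Matrix.mul_apply, Fin.sum_univ_three]

/-- `1 + E₁₂` etc., defined by conjugation -/
def x12 : (Mt p)ˣ := wM p * x01 p 1 * (wM p)⁻¹
/-- `1 + E₂₀` -/
def x20 : (Mt p)ˣ := wM p * x12 p * (wM p)⁻¹
/-- `1 + E₀₂` -/
def x02 : (Mt p)ˣ := x01 p 1 * x12 p * (x01 p 1)⁻¹ * (x12 p)⁻¹
/-- `1 + E₁₀` -/
def x10 : (Mt p)ˣ := wM p * x02 p * (wM p)⁻¹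
/-- `1 + E₂₁` -/
def x21 : (Mt p)ˣ := wM p * x10 p * (wM p)⁻¹

lemma val_x01 (t : ZMod p) : (x01 p t : Mt p) = !![1, t, 0; 0, 1, 0; 0, 0, 1] := rfl
lemma inv_x01 (t : ZMod p) : (((x01 p t)⁻¹ : (Mt p)ˣ) : Mt p) = !![1, -t, 0; 0, 1, 0; 0, 0, 1] := rfl
lemma val_w : (wM p : Mt p) = !![0, 0, 1; 1, 0, 0; 0, 1, 0] := rfl
lemma inv_w : (((wM p)⁻¹ : (Mt p)ˣ) : Mt p) = !![0, 1, 0; 0, 0, 1; 1, 0, 0] := rfl

lemma val_x12 : (x12 p : Mt p) = !![1, 0, 0; 0, 1, 1; 0, 0, 1] := by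
  rw [x12, Units.val_mul, Units.val_mul, val_w, val_x01, inv_w]
  apply mt_ext <;> simp [Matrix.mul_apply, Fin.sum_univ_three]

lemma inv_x12 : (((x12 p)⁻¹ : (Mt p)ˣ) : Mt p) = !![1, 0, 0; 0, 1, -1; 0, 0, 1] := by
  have : (x12 p)⁻¹ = wM p * (x01 p 1)⁻¹ * (wM p)⁻¹ := by rw [x12]; group
  rw [this, Units.val_mul, Units.val_mul, val_w, inv_x01, inv_w]
  apply mt_ext <;> simp [Matrix.mul_apply, Fin.sum_univ_three]

lemma val_x02 : (x02 p : Mt p) = !![1, 0, 1; 0, 1, 0; 0, 0, 1] := by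
  rw [x02, Units.val_mul, Units.val_mul, Units.val_mul, val_x01, val_x12, inv_x01, inv_x12]
  apply mt_ext <;> simp [Matrix.mul_apply, Fin.sum_univ_three]

lemma inv_x02 : (((x02 p)⁻¹ : (Mt p)ˣ) : Mt p) = !![1, 0, -1; 0, 1, 0; 0, 0, 1] := by
  have : (x02 p)⁻¹ = x12 p * x01 p 1 * (x12 p)⁻¹ * (x01 p 1)⁻¹ := by rw [x02]; group
  rw [this, Units.val_mul, Units.val_mul, Units.val_mul, val_x01, val_x12, inv_x01, inv_x12]
  apply mt_ext <;> simp [Matrix.mul_apply, Fin.sum_univ_three]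

lemma val_x10 : (x10 p : Mt p) = !![1, 0, 0; 1, 1, 0; 0, 0, 1] := by
  rw [x10, Units.val_mul, Units.val_mul, val_w, val_x02, inv_w]
  apply mt_ext <;> simp [Matrix.mul_apply, Fin.sum_univ_three]

lemma inv_x10 : (((x10 p)⁻¹ : (Mt p)ˣ) : Mt p) = !![1, 0, 0; -1, 1, 0; 0, 0, 1] := by
  have : (x10 p)⁻¹ = wM p * (x02 p)⁻¹ * (wM p)⁻¹ := by rw [x10]; group
  rw [this, Units.val_mul, Units.val_mul, val_w, inv_x02, inv_w]
  apply mt_ext <;> simp [Matrix.mul_apply, Fin.sum_univ_three]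

lemma val_x21 : (x21 p : Mt p) = !![1, 0, 0; 0, 1, 0; 0, 1, 1] := by
  rw [x21, Units.val_mul, Units.val_mul, val_w, val_x10, inv_w]
  apply mt_ext <;> simp [Matrix.mul_apply, Fin.sum_univ_three]

lemma inv_x21 : (((x21 p)⁻¹ : (Mt p)ˣ) : Mt p) = !![1, 0, 0; 0, 1, 0; 0, -1, 1] := by
  have : (x21 p)⁻¹ = wM p * (x10 p)⁻¹ * (wM p)⁻¹ := by rw [x21]; group
  rw [this, Units.val_mul, Units.val_mul, val_w, inv_x10, inv_w]
  apply mt_ext <;> simp [Matrix.mul_apply, Fin.sum_univ_three]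

/-- `x02` commutes with `x01` -/
lemma comm1 : x02 p * x01 p 1 = x01 p 1 * x02 p := by
  apply Units.ext
  rw [Units.val_mul, Units.val_mul, val_x02, val_x01]
  apply mt_ext <;> simp [Matrix.mul_apply, Fin.sum_univ_three]

lemma comm2 : x02 p * x12 p = x12 p * x02 p := by
  apply Units.ext
  rw [Units.val_mul, Units.val_mul, val_x02, val_x12]
  apply mt_ext <;> simp [Matrix.mul_apply, Fin.sum_univ_three]

lemma pow_x02 (n : ℕ) : ((x02 p ^ n : (Mt p)ˣ) : Mt p) = !![1, 0, (n : ZMod p); 0, 1, 0; 0, 0, 1] := by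
  induction n with
  | zero =>
    rw [pow_zero]
    apply mt_ext <;> simp
  | succ n ih =>
    rw [pow_succ, Units.val_mul, ih, val_x02]
    apply mt_ext <;> simp [Matrix.mul_apply, Fin.sum_univ_three, add_comm]

lemma pow_p_x02 : x02 p ^ p = 1 := by
  apply Units.ext
  rw [pow_x02]
  apply mt_ext <;> simp

lemma x01_eq : x01 p 1 = x02 p * x21 p * (x02 p)⁻¹ * (x21 p)⁻¹ := by
  apply Units.ext
  rw [Units.val_mul, Units.val_mul, Units.val_mul, val_x01, val_x02, val_x21, inv_x02, inv_x21]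
  apply mt_ext <;> simp [Matrix.mul_apply, Fin.sum_univ_three]

/-- `n₀₁` and `n₁₂` -/
def n01 : (Mt p)ˣ := x01 p 1 * (x10 p)⁻¹ * x01 p 1
/-- `n₁₂` -/
def n12 : (Mt p)ˣ := x12 p * (x21 p)⁻¹ * x12 p

lemma val_n01 : (n01 p : Mt p) = !![0, 1, 0; -1, 0, 0; 0, 0, 1] := by
  rw [n01, Units.val_mul, Units.val_mul, val_x01, inv_x10]
  apply mt_ext <;> simp [Matrix.mul_apply, Fin.sum_univ_three]

lemma val_n12 : (n12 p : Mt p) = !![1, 0, 0; 0, 0, 1; 0, -1, 0] := by
  rw [n12, Units.val_mul, Units.val_mul, val_x12, inv_x21]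
  apply mt_ext <;> simp [Matrix.mul_apply, Fin.sum_univ_three]

lemma w_eq : wM p = n01 p * n12 p * n01 p * n01 p := by
  apply Units.ext
  rw [Units.val_mul, Units.val_mul, Units.val_mul, val_n01, val_n12, val_w]
  apply mt_ext <;> simp [Matrix.mul_apply, Fin.sum_univ_three]

end matrices

/-- Abstract version: a group with two generators and the relations above has no nontrivial
real representation of dimension `< p`. -/
lemma trivial_rep {G : Type} [Group G] (p : ℕ) [Fact p.Prime] (a w : G)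
    (hgen : Subgroup.closure {a, w} = ⊤)
    (b : G) (hb : b = w * a * w⁻¹)
    (z : G) (hz : z = a * b * a⁻¹ * b⁻¹) (hza : z * a = a * z) (hzb : z * b = b * z)
    (hzp : z ^ p = 1)
    (z1 : G) (hz1 : z1 = w * z * w⁻¹) (z2 : G) (hz2 : z2 = w * z1 * w⁻¹)
    (ha : a = z * z2 * z⁻¹ * z2⁻¹)
    (hw : w = (a * z1⁻¹ * a) * (b * z2⁻¹ * b) * (a * z1⁻¹ * a) * (a * z1⁻¹ * a))
    {V : Type} [AddCommGroup V] [Module ℝ V] [FiniteDimensional ℝ V]
    (hV : finrank ℝ V < p) (ρ : G →* (V →ₗ[ℝ] V)) (g : G) : ρ g = 1 := by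
  have hinv : ∀ x : G, ρ x = 1 → ρ x⁻¹ = 1 := by
    intro x hx
    have : ρ x⁻¹ * ρ x = 1 := by rw [← map_mul]; simp
    rwa [hx, mul_one] at this
  have h0 : ρ z = 1 := real_trick p hV ρ a b z hz hza hzb hzp
  have hconj : ∀ x y : G, ρ x = 1 → ρ (y * x * y⁻¹) = 1 := by
    intro x y hx
    rw [map_mul, map_mul, hx, mul_one, ← map_mul]; simp
  have h1 : ρ z1 = 1 := by rw [hz1]; exact hconj _ _ h0
  have h2 : ρ z2 = 1 := by rw [hz2]; exact hconj _ _ h1
  have h3 : ρ a = 1 := by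
    rw [ha]; simp only [map_mul, h0, h2, hinv _ h0, hinv _ h2, mul_one]
  have h4 : ρ b = 1 := by rw [hb]; exact hconj _ _ h3
  have h5 : ρ w = 1 := by
    rw [hw]; simp only [map_mul, h3, h4, hinv _ h1, hinv _ h2, mul_one]
  have hker : ∀ x ∈ Subgroup.closure {a, w}, ρ x = 1 := by
    intro x hx
    induction hx using Subgroup.closure_induction with
    | mem x hx =>
      rcases hx with rfl | hx
      · exact h3
      · rw [Set.mem_singleton_iff.1 hx]; exact h5
    | one => exact map_one ρ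
    | mul x y _ _ hx hy => rw [map_mul, hx, hy, mul_one]
    | inv x _ hx => exact hinv x hx
  exact hker g (by rw [hgen]; trivial)

/-- For every `N` there is a finite group with two generators all of whose real representations
of dimension `≤ N` are trivial. -/
theorem exists_group (N : ℕ) : ∃ (G : Type) (_ : Group G) (_ : Finite G) (a b : G),
    Subgroup.closure {a, b} = ⊤ ∧ a ≠ 1 ∧
    ∀ (V : Type) [AddCommGroup V] [Module ℝ V] [FiniteDimensional ℝ V] (ρ : G →* (V →ₗ[ℝ] V)),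
      finrank ℝ V ≤ N → ∀ g, ρ g = 1 := by
  obtain ⟨p, hpN, hp⟩ := Nat.exists_infinite_primes (N + 1)
  have : Fact p.Prime := ⟨hp⟩
  let S : Set (Mt p)ˣ := {x01 p 1, wM p}
  let G := Subgroup.closure S
  have ma : x01 p 1 ∈ G := Subgroup.subset_closure (Set.mem_insert _ _)
  have mw : wM p ∈ G := Subgroup.subset_closure (Set.mem_insert_of_mem _ rfl)
  have m12 : x12 p ∈ G := G.mul_mem (G.mul_mem mw ma) (G.inv_mem mw)
  have m02 : x02 p ∈ G :=
    G.mul_mem (G.mul_mem (G.mul_mem ma m12) (G.inv_mem ma)) (G.inv_mem m12)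
  have m10 : x10 p ∈ G := G.mul_mem (G.mul_mem mw m02) (G.inv_mem mw)
  have m21 : x21 p ∈ G := G.mul_mem (G.mul_mem mw m10) (G.inv_mem mw)
  have hgen : Subgroup.closure {(⟨x01 p 1, ma⟩ : G), ⟨wM p, mw⟩} = ⊤ := by
    rw [eq_top_iff]
    rintro ⟨x, hx⟩ _
    induction hx using Subgroup.closure_induction with
    | mem x hx =>
      rcases hx with rfl | hx
      · exact Subgroup.subset_closure (Set.mem_insert _ _)
      · rw [Set.mem_singleton_iff] at hx
        subst hx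
        exact Subgroup.subset_closure (Set.mem_insert_of_mem _ rfl)
    | one => exact Subgroup.one_mem _
    | mul x y hx hy h1 h2 => exact Subgroup.mul_mem _ (h1 trivial) (h2 trivial)
    | inv x hx h1 => exact Subgroup.inv_mem _ (h1 trivial)
  refine ⟨G, inferInstance, inferInstance, ⟨x01 p 1, ma⟩, ⟨wM p, mw⟩, hgen, ?_, ?_⟩
  · intro h
    have h1 : (x01 p 1 : Mt p) = 1 := by
      have h2 : x01 p 1 = 1 := congrArg Subtype.val h
      rw [h2]
      rfl
    rw [val_x01] at h1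
    have h3 := congrFun (congrFun h1 0) 1
    simp at h3
  intro V _ _ _ ρ hV g
  refine trivial_rep p (⟨x01 p 1, ma⟩ : G) ⟨wM p, mw⟩ hgen ⟨x12 p, m12⟩ rfl ⟨x02 p, m02⟩ rfl
    ?_ ?_ ?_ ⟨x10 p, m10⟩ rfl ⟨x21 p, m21⟩ rfl ?_ ?_ (by omega) ρ g
  · exact Subtype.ext (comm1 p)
  · exact Subtype.ext (comm2 p)
  · exact Subtype.ext (pow_p_x02 p)
  · exact Subtype.ext (x01_eq p)
  · exact Subtype.ext (w_eq p)

/-- A group without small nontrivial representations is large. -/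
theorem card_gt {G : Type} [Group G] [Finite G] (N : ℕ) (a : G) (ha : a ≠ 1)
    (h : ∀ (V : Type) [AddCommGroup V] [Module ℝ V] [FiniteDimensional ℝ V]
      (ρ : G →* (V →ₗ[ℝ] V)), finrank ℝ V ≤ N → ∀ g, ρ g = 1) : N + 1 ≤ Nat.card G := by
  classical
  by_contra hcon
  have := Fintype.ofFinite G
  let ρ : G →* ((G → ℝ) →ₗ[ℝ] (G → ℝ)) :=
    { toFun := fun g =>
        { toFun := fun f x => f (g⁻¹ * x)
          map_add' := fun f f' => rfl
          map_smul' := fun c f => rfl }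
      map_one' := by ext f x; simp
      map_mul' := fun g g' => by ext f x; simp [mul_assoc] }
  have h1 := h (G → ℝ) ρ (by
    rw [Module.finrank_fintype_fun_eq_card, ← Nat.card_eq_fintype_card]
    omega) a
  have h2 : ρ a (Pi.single 1 1) a = (Pi.single 1 1 : G → ℝ) a := by rw [h1]; rfl
  have h3 : ρ a (Pi.single 1 1) a = (Pi.single 1 1 : G → ℝ) (a⁻¹ * a) := rfl
  rw [h3, inv_mul_cancel] at h2
  simp [ha] at h2

end Pool.Agent.Helper23.Dir
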