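import Mathlib

set_option autoImplicit false

open MeasureTheory Set Real
open scoped Interval ContDiff

namespace Pool.Agent.Helper23.Dir

/-- a smooth step, `0` for `s ≤ 1/4` and `1` for `s ≥ 1/2` -/
noncomputable def chi (s : ℝ) : ℝ := smoothTransition (4 * s - 1)

lemma chi_contDiff : ContDiff ℝ ∞ chi :=
  smoothTransition.contDiff.comp (by fun_prop)

lemma chi_nonneg (s : ℝ) : 0 ≤ chi s := smoothTransition.nonneg _
lemma chi_le_one (s : ℝ) : chi s ≤ 1 := smoothTransition.le_one _
lemma chi_zero {s : ℝ} (h : s ≤ 1 / 4) : chi s = 0 := smoothTransition.zero_of_nonpos (by linarith)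
lemma chi_one {s : ℝ} (h : 1 / 2 ≤ s) : chi s = 1 := smoothTransition.one_of_one_le (by linarith)

/-- antiderivative of `chi` -/
noncomputable def psi (t : ℝ) : ℝ := ∫ s in (0 : ℝ)..t, chi s

lemma psi_hasDerivAt (t : ℝ) : HasDerivAt psi (chi t) t :=
  intervalIntegral.integral_hasDerivAt_right (chi_contDiff.continuous.intervalIntegrable _ _)
    (chi_contDiff.continuous.stronglyMeasurableAtFilter _ _) chi_contDiff.continuous.continuousAt

lemma psi_contDiff : ContDiff ℝ ∞ psi := by
  rw [contDiff_infty_iff_deriv]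
  refine ⟨fun t => (psi_hasDerivAt t).differentiableAt, ?_⟩
  rw [show deriv psi = chi from funext fun t => (psi_hasDerivAt t).deriv]
  exact chi_contDiff

lemma psi_zero {t : ℝ} (h : t ≤ 1 / 4) : psi t = 0 := by
  unfold psi
  rw [intervalIntegral.integral_congr (g := fun _ => 0)]
  · simp
  · intro s hs
    simp only
    apply chi_zero
    rcases le_total 0 t with h0 | h0
    · rw [uIcc_of_le h0] at hs
      linarith [hs.2]
    · rw [uIcc_of_ge h0] at hs
      linarith [hs.2]

lemma psi_ge {t : ℝ} (h : 1 / 2 ≤ t) : t - 1 / 2 ≤ psi t := by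
  unfold psi
  rw [← intervalIntegral.integral_add_adjacent_intervals (b := 1 / 2)
    (chi_contDiff.continuous.intervalIntegrable _ _)
    (chi_contDiff.continuous.intervalIntegrable _ _)]
  have h1 : 0 ≤ ∫ s in (0 : ℝ)..(1 / 2), chi s :=
    intervalIntegral.integral_nonneg (by norm_num) fun s _ => chi_nonneg s
  have h2 : ∫ s in (1 / 2 : ℝ)..t, chi s = t - 1 / 2 := by
    rw [intervalIntegral.integral_congr (g := fun _ => 1)]
    · simp
    · intro s hs
      rw [uIcc_of_le h] at hs
      exact chi_one hs.1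
  linarith

/-- the test function on the plane -/
noncomputable def phi (z : ℂ) : ℝ := psi (64 - ‖z‖ ^ 2)

lemma phi_contDiff : ContDiff ℝ ∞ phi :=
  psi_contDiff.comp (contDiff_const.sub (contDiff_norm_sq ℝ))

lemma phi_zero {z : ℂ} (h : 64 - 1 / 4 ≤ ‖z‖ ^ 2) : phi z = 0 := psi_zero (by linarith)

lemma phi_hasFDerivAt (z : ℂ) :
    HasFDerivAt phi (chi (64 - ‖z‖ ^ 2) • (-((2 : ℕ) • (innerSL ℝ z : ℂ →L[ℝ] ℝ)))) z := by
  have h1 : HasFDerivAt (fun z : ℂ => 64 - ‖z‖ ^ 2) (-((2 : ℕ) • (innerSL ℝ z : ℂ →L[ℝ] ℝ))) z :=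
    (hasStrictFDerivAt_norm_sq z).hasFDerivAt.const_sub 64
  exact (psi_hasDerivAt (64 - ‖z‖ ^ 2)).comp_hasFDerivAt z h1

lemma phi_grad (z : ℂ) : (fderiv ℝ phi z 1) ^ 2 + (fderiv ℝ phi z Complex.I) ^ 2 =
    4 * ‖z‖ ^ 2 * chi (64 - ‖z‖ ^ 2) ^ 2 := by
  rw [(phi_hasFDerivAt z).fderiv]
  have h1 : (innerSL ℝ z) (1 : ℂ) = z.re := by
    simp [Complex.inner]
  have h2 : (innerSL ℝ z) Complex.I = z.im := by
    simp [Complex.inner]
  have h3 : ‖z‖ ^ 2 = z.re ^ 2 + z.im ^ 2 := by
    rw [← Complex.normSq_eq_norm_sq, Complex.normSq_apply]; ring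
  simp only [smul_apply, neg_apply, h1, h2, smul_eq_mul,
    nsmul_eq_mul]
  rw [h3]
  push_cast
  ring

lemma radial (f : ℝ → ℝ) : ∫ z : ℂ, f ‖z‖ = 2 * π * ∫ r in Ioi (0 : ℝ), r * f r := by
  rw [integral_fun_norm_addHaar (volume : Measure ℂ) f]
  have h1 : (volume : Measure ℂ).real (Metric.ball 0 1) = π := by
    rw [Measure.real, Complex.volume_ball]
    simp
  rw [h1, Complex.finrank_real_complex]
  simp [nsmul_eq_mul]
  ring

lemma radial_cut (g : ℝ → ℝ) (h : ∀ r, 8 ≤ r → g r = 0) :
    ∫ r in Ioi (0 : ℝ), g r = ∫ r in (0 : ℝ)..8, g r := by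
  rw [intervalIntegral.integral_of_le (by norm_num)]
  apply setIntegral_eq_of_subset_of_forall_sdiff_eq_zero measurableSet_Ioi Ioc_subset_Ioi_self
  intro r hr
  apply h
  have h1 := hr.1
  have h2 := hr.2
  simp only [mem_Ioi] at h1
  simp only [mem_Ioc, not_and, not_le] at h2
  exact (h2 h1).le

lemma phi_energy : ∫ z, ((fderiv ℝ phi z 1) ^ 2 + (fderiv ℝ phi z Complex.I) ^ 2) ≤
    2 * π * 4096 := by
  simp_rw [phi_grad]
  rw [radial (fun r => 4 * r ^ 2 * chi (64 - r ^ 2) ^ 2), radial_cut]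
  · apply mul_le_mul_of_nonneg_left _ (by positivity)
    calc ∫ r in (0 : ℝ)..8, r * (4 * r ^ 2 * chi (64 - r ^ 2) ^ 2)
        ≤ ∫ r in (0 : ℝ)..8, 4 * r ^ 3 := by
          apply intervalIntegral.integral_mono_on (by norm_num)
          · apply Continuous.intervalIntegrable
            have := chi_contDiff.continuous
            fun_prop
          · exact Continuous.intervalIntegrable (by fun_prop) _ _
          · intro r hr
            have h1 := chi_nonneg (64 - r ^ 2)
            have h2 := chi_le_one (64 - r ^ 2)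
            have h3 : chi (64 - r ^ 2) ^ 2 ≤ 1 := pow_le_one₀ h1 h2
            have h4 : 0 ≤ r := hr.1
            calc r * (4 * r ^ 2 * chi (64 - r ^ 2) ^ 2) =
                4 * r ^ 3 * chi (64 - r ^ 2) ^ 2 := by ring
              _ ≤ 4 * r ^ 3 * 1 := mul_le_mul_of_nonneg_left h3 (by positivity)
              _ = _ := by ring
      _ = 4096 := by
          rw [intervalIntegral.integral_const_mul, integral_pow]
          norm_num
  · intro r hr
    rw [chi_zero (by nlinarith)]
    ring

lemma phi_mass : 2 * π * 42674 ≤ ∫ z, phi z ^ 2 := by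
  unfold phi
  rw [radial (fun r => psi (64 - r ^ 2) ^ 2), radial_cut]
  · apply mul_le_mul_of_nonneg_left _ (by positivity)
    have hc : Continuous fun r : ℝ => r * psi (64 - r ^ 2) ^ 2 := by
      have := psi_contDiff.continuous
      fun_prop
    rw [← intervalIntegral.integral_add_adjacent_intervals (b := 199 / 25)
      (hc.intervalIntegrable _ _) (hc.intervalIntegrable _ _)]
    have h1 : 0 ≤ ∫ r in (199 / 25 : ℝ)..8, r * psi (64 - r ^ 2) ^ 2 :=
      intervalIntegral.integral_nonneg (by norm_num) fun r hr => by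
        have : 0 ≤ r := by linarith [hr.1]
        positivity
    have h2 : ∫ r in (0 : ℝ)..(199 / 25), r * (127 / 2 - r ^ 2) ^ 2 ≤
        ∫ r in (0 : ℝ)..(199 / 25), r * psi (64 - r ^ 2) ^ 2 := by
      apply intervalIntegral.integral_mono_on (by norm_num)
      · exact Continuous.intervalIntegrable (by fun_prop) _ _
      · exact hc.intervalIntegrable _ _
      · intro r hr
        have h5 : r ^ 2 ≤ (199 / 25) ^ 2 := by
          have := hr.1
          have := hr.2
          gcongr
        have h3 : 0 ≤ 127 / 2 - r ^ 2 := by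
          norm_num at h5 ⊢
          linarith
        have h4 : 127 / 2 - r ^ 2 ≤ psi (64 - r ^ 2) := by
          have := psi_ge (t := 64 - r ^ 2) (by linarith)
          linarith
        apply mul_le_mul_of_nonneg_left _ hr.1
        exact pow_le_pow_left₀ h3 h4 2
    have h3 : ∫ r in (0 : ℝ)..(199 / 25), r * (127 / 2 - r ^ 2) ^ 2 =
        ((127 / 2) ^ 3 - (127 / 2 - (199 / 25) ^ 2) ^ 3) / 6 := by
      have hd : ∀ r ∈ uIcc (0 : ℝ) (199 / 25),
          HasDerivAt (fun r : ℝ => - (127 / 2 - r ^ 2) ^ 3 / 6) (r * (127 / 2 - r ^ 2) ^ 2) r := by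
        intro r _
        have h1 : HasDerivAt (fun r : ℝ => 127 / 2 - r ^ 2) (-(2 * r)) r := by
          have := (hasDerivAt_pow 2 r).const_sub (127 / 2)
          simpa using this
        have h2 := ((h1.fun_pow 3).fun_neg).div_const 6
        refine h2.congr_deriv ?_
        push_cast
        ring
      rw [intervalIntegral.integral_eq_sub_of_hasDerivAt hd
        (Continuous.intervalIntegrable (by fun_prop) _ _)]
      ring
    rw [h3] at h2
    norm_num at h2 ⊢
    linarith
  · intro r hr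
    rw [psi_zero (by nlinarith)]
    ring

/-- the Rayleigh quotient of the test function is less than `π² / 100` -/
lemma phi_quot : ∫ z, ((fderiv ℝ phi z 1) ^ 2 + (fderiv ℝ phi z Complex.I) ^ 2) ≤
    (96 / 1000) * ∫ z, phi z ^ 2 := by
  have h1 := phi_energy
  have h2 := phi_mass
  have h3 := Real.pi_pos
  nlinarith

lemma quot_lt : (96 / 1000 : ℝ) < (π / 10) ^ 2 := by
  have := Real.pi_gt_d2
  nlinarith

lemma phi_mass_pos : 0 < ∫ z, phi z ^ 2 := by
  have h2 := phi_mass
  have h3 := Real.pi_pos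
  nlinarith

end Pool.Agent.Helper23.Dir
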