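import Mathlib
import Pool.Agent.Helper23.Dir.Action
import Pool.Agent.Helper23.Dir.TestFn

set_option autoImplicit false

open Set Metric Bundle Topology MeasureTheory
open scoped Manifold ContDiff ENNReal

namespace Pool.Agent.Helper23.Dir

lemma phi_zero_of {z : ℂ} (h : 8 ≤ ‖z‖) : phi z = 0 := phi_zero (by nlinarith)

lemma mem_Q_of {z : ℂ} (h : ‖z‖ ≤ 8) : z ∈ Qint := by
  have h9 : ‖(9 : ℂ)‖ = 9 := by simp
  refine ⟨by linarith, ?_, ?_⟩
  · have h2 : ‖(9 : ℂ)‖ ≤ ‖z - 9‖ + ‖z‖ := by
      have : (9 : ℂ) = z - (z - 9) := by ring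
      calc ‖(9 : ℂ)‖ = ‖z - (z - 9)‖ := by rw [← this]
        _ ≤ ‖z‖ + ‖z - 9‖ := norm_sub_le _ _
        _ = _ := add_comm _ _
    linarith
  · have h2 : ‖(9 : ℂ)‖ ≤ ‖z + 9‖ + ‖z‖ := by
      have : (9 : ℂ) = (z + 9) - z := by ring
      calc ‖(9 : ℂ)‖ = ‖(z + 9) - z‖ := by rw [← this]
        _ ≤ ‖z + 9‖ + ‖z‖ := norm_sub_le _ _
    linarith

lemma re_lt_of {z : ℂ} (h : ‖z‖ < 9) : |z.re| < 9 + |z.im| := by
  have h1 := Complex.abs_re_le_norm z
  have h2 := abs_nonneg z.im
  linarith

lemma notMem_slit_of {z : ℂ} (h : ‖z‖ < 9) (i : Bool) : z ∉ slit i := by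
  rintro ⟨h1, _⟩
  have := re_lt_of h
  linarith

section surf

variable {G : Type} [Group G] [TopologicalSpace G] [DiscreteTopology G] {a b : G}

variable (a b) in
/-- lifts of the planar test function to the sheets, with coefficients -/
noncomputable def lift (c : G → ℝ) (x : Surf a b) : ℝ := c (fib true x) * phi (pr x)

lemma contMDiff_lift (c : G → ℝ) : ContMDiff (𝓡∂ 2) 𝓘(ℝ, ℝ) ∞ (lift a b c) := by
  intro x
  by_cases hx : ‖pr x‖ < 9
  · -- locally a constant multiple
    have h1 : ContMDiffAt (𝓡∂ 2) 𝓘(ℝ, ℝ) ∞ (fun y : Surf a b => c (fib true x) * phi (pr y)) x := by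
      have h2 : ContMDiffAt (𝓡∂ 2) 𝓘(ℝ, ℝ) ∞
          ((fun z : ℂ => c (fib true x) * phi z) ∘ pr) x := by
        apply ContMDiffAt.comp x _ (contMDiff_pr x)
        exact (contDiff_const.mul phi_contDiff).contMDiff.contMDiffAt
      exact h2
    apply h1.congr_of_eventuallyEq
    have ho : IsOpen {y : Surf a b | pr y ∉ slit true} :=
      (isClosed_slit true).isOpen_compl.preimage continuous_pr
    have hfx : ContinuousAt (fib true : Surf a b → G) x :=
      (fib_continuousOn true).continuousAt (ho.mem_nhds (notMem_slit_of hx true))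
    have h3 : (fib true) ⁻¹' {fib true x} ∈ 𝓝 x :=
      hfx.preimage_mem_nhds ((isOpen_discrete _).mem_nhds rfl)
    filter_upwards [h3] with y hy
    rw [mem_preimage, mem_singleton_iff] at hy
    simp only [lift, hy]
  · push Not at hx
    have h2 : lift a b c =ᶠ[𝓝 x] fun _ => 0 := by
      have ho : IsOpen {y : Surf a b | 8 < ‖pr y‖} :=
        isOpen_lt continuous_const (continuous_norm.comp continuous_pr)
      filter_upwards [ho.mem_nhds (show 8 < ‖pr x‖ by linarith)] with y hy
      unfold lift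
      rw [phi_zero_of (le_of_lt hy), mul_zero]
    exact contMDiffAt_const.congr_of_eventuallyEq h2

lemma lift_mem [Finite G] (c : G → ℝ) : lift a b c ∈ testFun (Surf a b) := by
  refine ⟨contMDiff_lift c, (isClosed_tsupport _).isCompact, ?_⟩
  have h1 : tsupport (lift a b c) ⊆ {x | ‖pr x‖ ≤ 8} := by
    apply closure_minimal
    · intro x hx
      by_contra hcon
      simp only [mem_ofPred_eq, not_le] at hcon
      apply hx
      simp only [lift]
      rw [phi_zero_of hcon.le, mul_zero]
    · exact isClosed_le (continuous_norm.comp continuous_pr) continuous_const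
  intro x hx
  rw [mem_interior_iff]
  exact mem_Q_of (h1 hx)

lemma pull_lift_true (c : G → ℝ) (g : G) : pull true g (lift a b c) = fun z => c g * phi z := by
  ext z
  by_cases hz : z ∈ Qset
  · rw [pull_of_mem hz]
    unfold lift
    rw [fib_secC hz, pr_secC hz]
  · rw [pull_of_notMem hz]
    have : 8 ≤ ‖z‖ := by
      by_contra hcon
      push Not at hcon
      exact hz (Qint_subset (mem_Q_of hcon.le))
    rw [phi_zero_of this, mul_zero]

lemma pull_lift_false (c : G → ℝ) (g : G) :
    pull false g (lift a b c) = fun z => c (g * a⁻¹) * phi z := by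
  ext z
  by_cases hz8 : 8 ≤ ‖z‖
  · rw [phi_zero_of hz8, mul_zero]
    by_cases hz : z ∈ Qset
    · rw [pull_of_mem hz]
      unfold lift
      rw [pr_secC hz, phi_zero_of hz8, mul_zero]
    · exact pull_of_notMem hz
  · push Not at hz8
    have hz : z ∈ Qset := Qint_subset (mem_Q_of hz8.le)
    rw [pull_of_mem hz]
    unfold lift
    rw [pr_secC hz, secC_of_mem hz]
    congr 2
    have h1 : hfun a b z = a := by
      simp [hfun, re_lt_of (show ‖z‖ < 9 by linarith)]
    have h2 := sec_true_eq (a := a) (b := b) (g * a⁻¹) ⟨z, hz⟩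
    simp only [h1, inv_mul_cancel_right] at h2
    rw [← h2, fib_sec]

lemma fderiv_const_mul_phi (c : ℝ) (z w : ℂ) :
    fderiv ℝ (fun z => c * phi z) z w = c * fderiv ℝ phi z w := by
  have hd : DifferentiableAt ℝ phi z := phi_contDiff.contDiffAt.differentiableAt (by simp)
  rw [fderiv_const_mul hd]
  rfl

lemma dens_lift (c : ℝ) (z : ℂ) : dens (fun z => c * phi z) (fun z => c * phi z) z =
    c ^ 2 * dens phi phi z := by
  unfold dens
  rw [fderiv_const_mul_phi, fderiv_const_mul_phi]
  ring

variable [Fintype G]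

lemma Efun_lift (c : G → ℝ) : Efun (lift a b c) (lift a b c) =
    (∑ g, c g ^ 2) * ∫ z, dens phi phi z := by
  unfold Efun
  rw [Fintype.sum_prod_type, Fintype.sum_bool]
  simp only [pull_lift_true, pull_lift_false, dens_lift, integral_const_mul]
  have h1 : ∑ g : G, c (g * a⁻¹) ^ 2 * ∫ z in Hset false, dens phi phi z =
      ∑ g : G, c g ^ 2 * ∫ z in Hset false, dens phi phi z :=
    Equiv.sum_comp (Equiv.mulRight a⁻¹) (fun g => c g ^ 2 * ∫ z in Hset false, dens phi phi z)
  rw [h1, ← Finset.sum_mul, ← Finset.sum_mul, ← mul_add]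
  congr 1
  have hc : ∀ w : ℂ, Continuous fun z => fderiv ℝ phi z w :=
    fun w => (phi_contDiff.continuous_fderiv (by simp)).clm_apply continuous_const
  have h0 : ∀ z, z ∉ Qset → dens phi phi z = 0 := by
    intro z hz
    have hz8 : 8 < ‖z‖ := by
      by_contra hcon
      push Not at hcon
      exact hz (Qint_subset (mem_Q_of hcon))
    have h3 : phi =ᶠ[𝓝 z] fun _ => 0 := by
      have ho : IsOpen {y : ℂ | 8 < ‖y‖} := isOpen_lt continuous_const continuous_norm
      filter_upwards [ho.mem_nhds hz8] with y hy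
      exact phi_zero_of (le_of_lt hy)
    unfold dens
    rw [h3.fderiv_eq]
    simp
  apply integral_halves
  · have h2 : Continuous (dens phi phi) := ((hc 1).mul (hc 1)).add ((hc _).mul (hc _))
    exact h2.integrable_of_hasCompactSupport (HasCompactSupport.intro isCompact_Qset h0)
  · exact h0

lemma Bfun_lift (c : G → ℝ) : Bfun (lift a b c) (lift a b c) =
    (∑ g, c g ^ 2) * ∫ z, phi z ^ 2 := by
  unfold Bfun
  rw [Fintype.sum_prod_type, Fintype.sum_bool]
  have e1 : ∀ (t : ℝ) (z : ℂ), t * phi z * (t * phi z) = t ^ 2 * phi z ^ 2 := fun t z => by ring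
  simp only [pull_lift_true, pull_lift_false, e1, integral_const_mul]
  have h1 : ∑ g : G, c (g * a⁻¹) ^ 2 * ∫ z in Hset false, phi z ^ 2 =
      ∑ g : G, c g ^ 2 * ∫ z in Hset false, phi z ^ 2 :=
    Equiv.sum_comp (Equiv.mulRight a⁻¹) (fun g => c g ^ 2 * ∫ z in Hset false, phi z ^ 2)
  rw [h1, ← Finset.sum_mul, ← Finset.sum_mul, ← mul_add]
  congr 1
  have h0 : ∀ z, z ∉ Qset → phi z ^ 2 = 0 := by
    intro z hz
    have hz8 : 8 < ‖z‖ := by
      by_contra hcon
      push Not at hcon
      exact hz (Qint_subset (mem_Q_of hcon))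
    rw [phi_zero_of hz8.le]; simp
  apply integral_halves
  · exact (phi_contDiff.continuous.pow 2).integrable_of_hasCompactSupport
      (HasCompactSupport.intro isCompact_Qset h0)
  · exact h0

/-- the Rayleigh quotient of the lifted functions -/
lemma lift_quot (c : G → ℝ) : energy gm (area a b) (lift a b c) ≤
    (96 / 1000) * mass (area a b) (lift a b c) := by
  have h1 : energy gm (area a b) (lift a b c) = Efun (lift a b c) (lift a b c) :=
    energy_eq (lift_mem c)
  have h2 : mass (area a b) (lift a b c) = Bfun (lift a b c) (lift a b c) := mass_eq (lift_mem c)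
  rw [h1, h2, Efun_lift, Bfun_lift]
  have h3 : ∫ z, dens phi phi z =
      ∫ z, ((fderiv ℝ phi z 1) ^ 2 + (fderiv ℝ phi z Complex.I) ^ 2) := by
    congr 1
    ext z
    unfold dens
    ring
  rw [h3]
  have h4 := phi_quot
  have h5 : 0 ≤ ∑ g, c g ^ 2 := Finset.sum_nonneg fun g _ => sq_nonneg _
  calc _ ≤ (∑ g, c g ^ 2) * ((96 / 1000) * ∫ z, phi z ^ 2) := mul_le_mul_of_nonneg_left h4 h5
    _ = _ := by ring

lemma phi_zero_pos : 0 < phi 0 := by
  unfold phi
  have := psi_ge (t := 64 - ‖(0 : ℂ)‖ ^ 2) (by norm_num)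
  norm_num at this ⊢
  linarith

/-- A large space of test functions with small Rayleigh quotient. -/
theorem H2_surf (N : ℕ) (hN : N + 1 ≤ Nat.card G) :
    ∃ L : Submodule ℝ (Surf a b → ℝ), L ≤ testFun (Surf a b) ∧ FiniteDimensional ℝ L ∧
      N + 1 ≤ Module.finrank ℝ L ∧
      ∀ u ∈ L, energy gm (area a b) u ≤ (96 / 1000) * mass (area a b) u := by
  let Λ : (G → ℝ) →ₗ[ℝ] (Surf a b → ℝ) :=
    { toFun := fun c => lift a b c
      map_add' := fun c d => by
        ext x
        simp only [lift, Pi.add_apply]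
        ring
      map_smul' := fun t c => by
        ext x
        simp only [lift, Pi.smul_apply, smul_eq_mul, RingHom.id_apply]
        ring }
  have hinj : Function.Injective Λ := by
    intro c d hcd
    ext g
    have h1 := congrFun hcd (sec a b true g qM)
    change lift a b c _ = lift a b d _ at h1
    simp only [lift, fib_sec, pr_sec] at h1
    have h2 : phi (qM : ℂ) ≠ 0 := phi_zero_pos.ne'
    exact mul_right_cancel₀ h2 h1
  refine ⟨LinearMap.range Λ, ?_, inferInstance, ?_, ?_⟩
  · rintro _ ⟨c, rfl⟩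
    exact lift_mem c
  · rw [LinearMap.finrank_range_of_inj hinj, Module.finrank_fintype_fun_eq_card,
      ← Nat.card_eq_fintype_card]
    exact hN
  · rintro _ ⟨c, rfl⟩
    exact lift_quot c

end surf

end Pool.Agent.Helper23.Dir
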