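import Mathlib

set_option autoImplicit false

/-!
Finite-dimensional linear algebra: simultaneous diagonalisation and a multiplicity theorem for
min-max values of forms invariant under a finite group without small nontrivial representations.
-/

open Module

namespace Pool.Agent.Helper23.Dir

/-- Simultaneous diagonalisation of a positive definite form `B` and a symmetric form `E`. -/
lemma exists_diag {W : Type} [AddCommGroup W] [Module ℝ W] [FiniteDimensional ℝ W]
    (E B : W →ₗ[ℝ] W →ₗ[ℝ] ℝ) (hE : ∀ u v, E u v = E v u) (hB : ∀ u v, B u v = B v u)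
    (hBpos : ∀ u, u ≠ 0 → 0 < B u u) :
    ∃ (b : Basis (Fin (finrank ℝ W)) ℝ W) (μ : Fin (finrank ℝ W) → ℝ),
      (∀ i k, B (b i) (b k) = if i = k then 1 else 0) ∧
      (∀ i v, E (b i) v = μ i * B (b i) v) := by
  classical
  let core : InnerProductSpace.Core ℝ W :=
    { inner := fun u v => B u v
      conj_inner_symm := fun u v => by simp only [conj_trivial]; exact hB v u
      re_inner_nonneg := fun u => by
        simp only [RCLike.re_to_real]
        by_cases h : u = 0
        · rw [h]; simp
        · exact (hBpos u h).le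
      add_left := fun u v w => by simp only [map_add, LinearMap.add_apply]
      smul_left := fun u v r => by
        simp only [map_smul, LinearMap.smul_apply, smul_eq_mul, conj_trivial]
      definite := fun u h => by
        by_contra hne
        exact (hBpos u hne).ne' h }
  let _ : NormedAddCommGroup W := core.toNormedAddCommGroup
  let _ : InnerProductSpace ℝ W := InnerProductSpace.ofCore core.toCore
  have hinner : ∀ u v : W, inner ℝ u v = B u v := fun u v => rfl
  -- the operator representing E
  have hex : ∀ u : W, ∃ a : W, ∀ v, B a v = E u v := by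
    intro u
    let ℓ : W →L[ℝ] ℝ := LinearMap.toContinuousLinearMap (E u)
    refine ⟨(InnerProductSpace.toDual ℝ W).symm ℓ, fun v => ?_⟩
    rw [← hinner, InnerProductSpace.toDual_symm_apply]
    rfl
  have hBinj : ∀ a a' : W, (∀ v, B a v = B a' v) → a = a' := by
    intro a a' h
    by_contra hne
    have h1 := hBpos (a - a') (sub_ne_zero.2 hne)
    have h2 : B (a - a') (a - a') = 0 := by
      rw [LinearMap.map_sub B, LinearMap.sub_apply, h, sub_self]
    exact h1.ne' h2
  choose A hA using hex
  let T : W →ₗ[ℝ] W :=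
    { toFun := A
      map_add' := fun u v => hBinj _ _ fun w => by
        rw [hA, map_add, map_add, LinearMap.add_apply, LinearMap.add_apply, hA, hA]
      map_smul' := fun c u => hBinj _ _ fun w => by
        rw [hA, map_smul, RingHom.id_apply, map_smul, LinearMap.smul_apply, LinearMap.smul_apply,
          hA] }
  have hT : ∀ u v, B (T u) v = E u v := hA
  have hsym : T.IsSymmetric := by
    intro u v
    rw [hinner, hinner, hT, hB, hT, hE]
  let b := hsym.eigenvectorBasis rfl
  refine ⟨b.toBasis, hsym.eigenvalues rfl, ?_, ?_⟩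
  · intro i k
    rw [← hinner]
    simp only [OrthonormalBasis.coe_toBasis]
    exact orthonormal_iff_ite.1 b.orthonormal i k
  · intro i v
    rw [← hT]
    have h1 : T (b i) = (hsym.eigenvalues rfl i : ℝ) • b i := hsym.apply_eigenvectorBasis rfl i
    simp only [OrthonormalBasis.coe_toBasis]
    rw [h1, map_smul, LinearMap.smul_apply, smul_eq_mul]

section main

variable {V : Type} [AddCommGroup V] [Module ℝ V]

/-- the min-max values of a pair of functions on a subspace -/
noncomputable def mm (T : Submodule ℝ V) (e m : V → ℝ) (k : ℕ) : ℝ :=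
  sInf {r : ℝ | ∃ L : Submodule ℝ V, L ≤ T ∧ finrank ℝ L = k + 1 ∧ ∀ u ∈ L, e u ≤ r * m u}

variable (T : Submodule ℝ V) (e m : V → ℝ)
  (E B : T →ₗ[ℝ] T →ₗ[ℝ] ℝ) (hEs : ∀ u v, E u v = E v u) (hBs : ∀ u v, B u v = B v u)
  (he : ∀ u : T, e u = E u u) (hm : ∀ u : T, m u = B u u)
  (hBpos : ∀ u : T, u ≠ 0 → 0 < B u u) (hEnn : ∀ u : T, 0 ≤ E u u)

include he hm hBpos hEnn in
lemma mm_bdd (k : ℕ) : ∀ r ∈ {r : ℝ | ∃ L : Submodule ℝ V, L ≤ T ∧ finrank ℝ L = k + 1 ∧
    ∀ u ∈ L, e u ≤ r * m u}, 0 ≤ r := by
  rintro r ⟨L, hLT, hL, hr⟩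
  have hne : L ≠ ⊥ := by
    rintro rfl
    simp at hL
  obtain ⟨u, huL, hu0⟩ := L.exists_mem_ne_zero_of_ne_bot hne
  have h1 := hr u huL
  have h2 := he ⟨u, hLT huL⟩
  have h3 := hm ⟨u, hLT huL⟩
  have h4 := hBpos ⟨u, hLT huL⟩ (fun h => hu0 (congrArg Subtype.val h))
  have h5 := hEnn ⟨u, hLT huL⟩
  simp only at h2 h3
  rw [h2, h3] at h1
  by_contra hcon
  push Not at hcon
  nlinarith

include he hm hBpos hEnn in
lemma mm_le_of (k : ℕ) (r : ℝ) (L : Submodule ℝ V) (hLT : L ≤ T) (hL : finrank ℝ L = k + 1)
    (hr : ∀ u ∈ L, e u ≤ r * m u) : mm T e m k ≤ r := by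
  apply csInf_le
  · exact ⟨0, fun r hr => mm_bdd T e m E B he hm hBpos hEnn k r hr⟩
  · exact ⟨L, hLT, hL, hr⟩

/-- subspaces of prescribed smaller dimension -/
lemma exists_sub (L : Submodule ℝ V) [FiniteDimensional ℝ L] (k : ℕ) (hk : k ≤ finrank ℝ L) :
    ∃ L' : Submodule ℝ V, L' ≤ L ∧ finrank ℝ L' = k := by
  obtain ⟨F, hF⟩ := exists_linearIndependent_of_le_finrank hk
  refine ⟨Submodule.span ℝ (Set.range (fun i => (F i : V))), ?_, ?_⟩
  · rw [Submodule.span_le]
    rintro _ ⟨i, rfl⟩
    exact (F i).2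
  · have h2 : LinearIndependent ℝ (fun i => (F i : V)) :=
      hF.map' L.subtype (Submodule.ker_subtype L)
    have := finrank_span_eq_card h2
    simpa using this

/-- **Multiplicity theorem.** -/
theorem mult_theorem {G : Type} [Group G] [Finite G] (ρ : G →* (T →ₗ[ℝ] T))
    (hρE : ∀ g u v, E (ρ g u) (ρ g v) = E u v) (hρB : ∀ g u v, B (ρ g u) (ρ g v) = B u v)
    (hEs : ∀ u v, E u v = E v u) (hBs : ∀ u v, B u v = B v u)
    (he : ∀ u : T, e u = E u u) (hm : ∀ u : T, m u = B u u)
    (hBpos : ∀ u : T, u ≠ 0 → 0 < B u u) (hEnn : ∀ u : T, 0 ≤ E u u)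
    (N : ℕ) (hG : ∀ (W : Type) [AddCommGroup W] [Module ℝ W] [FiniteDimensional ℝ W]
      (σ : G →* (W →ₗ[ℝ] W)), finrank ℝ W ≤ N → ∀ g, σ g = 1)
    (lam r₀ : ℝ) (hr₀ : r₀ < lam)
    (H1 : ∀ L : Submodule ℝ T, finrank ℝ L = 2 → (∀ u ∈ L, ∀ g, ρ g u = u) →
      ∃ u ∈ L, u ≠ 0 ∧ lam * B u u ≤ E u u)
    (H2 : ∃ L : Submodule ℝ V, L ≤ T ∧ FiniteDimensional ℝ L ∧ N + 1 ≤ finrank ℝ L ∧
      ∀ u ∈ L, e u ≤ r₀ * m u)
    (j : ℕ) (hj1 : 1 ≤ j) (hjN : j ≤ N) : mm T e m j = mm T e m 1 := by
  classical
  obtain ⟨L₀, hL₀T, hL₀fin, hL₀dim, hL₀⟩ := H2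
  have hne : ∀ k ≤ N, ∃ L : Submodule ℝ V, L ≤ T ∧ finrank ℝ L = k + 1 ∧
      ∀ u ∈ L, e u ≤ r₀ * m u := by
    intro k hk
    obtain ⟨L', hL'L, hL'⟩ := exists_sub L₀ (k + 1) (by omega)
    exact ⟨L', hL'L.trans hL₀T, hL', fun u hu => hL₀ u (hL'L hu)⟩
  have hle0 : ∀ k ≤ N, mm T e m k ≤ r₀ := by
    intro k hk
    obtain ⟨L, h1, h2, h3⟩ := hne k hk
    exact mm_le_of T e m E B he hm hBpos hEnn k r₀ L h1 h2 h3
  have hmono : ∀ k, k + 1 ≤ N → mm T e m k ≤ mm T e m (k + 1) := by
    intro k hk
    apply le_csInf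
    · obtain ⟨L, h1, h2, h3⟩ := hne (k + 1) hk
      exact ⟨r₀, L, h1, h2, h3⟩
    · rintro r ⟨L, h1, h2, h3⟩
      have : FiniteDimensional ℝ L := FiniteDimensional.of_finrank_pos (by omega)
      obtain ⟨L', h4, h5⟩ := exists_sub L (k + 1) (by omega)
      exact mm_le_of T e m E B he hm hBpos hEnn k r L' (h4.trans h1) h5 fun u hu => h3 u (h4 hu)
  -- key step
  have key : ∀ k, 2 ≤ k → k ≤ N → mm T e m k ≤ mm T e m (k - 1) := by
    intro k hk2 hkN
    by_contra hcon
    push Not at hcon
    have hlam : mm T e m (k - 1) < lam := (hle0 (k - 1) (by omega)).trans_lt hr₀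
    obtain ⟨ν, hν1, hν2⟩ := exists_between (lt_min hcon hlam)
    rw [lt_min_iff] at hν2
    -- the subspace L of dimension k
    have hSne : {r : ℝ | ∃ L : Submodule ℝ V, L ≤ T ∧ finrank ℝ L = k - 1 + 1 ∧
        ∀ u ∈ L, e u ≤ r * m u}.Nonempty := by
      obtain ⟨L, h1, h2, h3⟩ := hne (k - 1) (by omega)
      exact ⟨r₀, L, h1, h2, h3⟩
    obtain ⟨r, ⟨L, hLT, hLdim, hLr⟩, hrν⟩ := exists_lt_of_csInf_lt hSne hν1
    have hLdim' : finrank ℝ L = k := by omega
    have hLfin : FiniteDimensional ℝ L := FiniteDimensional.of_finrank_pos (by omega)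
    -- pull back to T
    let L' : Submodule ℝ T := L.comap T.subtype
    let eqv : L' ≃ₗ[ℝ] L := Submodule.comapSubtypeEquivOfLe hLT
    have hL'fin : FiniteDimensional ℝ L' := eqv.symm.finiteDimensional
    have hL'dim : finrank ℝ L' = k := by rw [eqv.finrank_eq, hLdim']
    -- the invariant space W
    let W : Submodule ℝ T := ⨆ g : G, L'.map (ρ g)
    have hWfin : FiniteDimensional ℝ W := by
      have : ∀ g : G, FiniteDimensional ℝ (L'.map (ρ g)) := fun g => inferInstance
      exact Submodule.finiteDimensional_iSup _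
    have hL'W : L' ≤ W := by
      refine le_trans ?_ (le_iSup (fun g : G => L'.map (ρ g)) 1)
      intro u hu
      exact ⟨u, hu, by rw [map_one]; rfl⟩
    have hWinv : ∀ g : G, ∀ u ∈ W, ρ g u ∈ W := by
      intro g u hu
      have h1 : W.map (ρ g) ≤ W := by
        rw [Submodule.map_iSup]
        apply iSup_le
        intro g'
        refine le_trans ?_ (le_iSup (fun g : G => L'.map (ρ g)) (g * g'))
        rw [← Submodule.map_comp]
        have : (ρ g) ∘ₗ (ρ g') = ρ (g * g') := by rw [map_mul]; rfl
        rw [this]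
      exact h1 ⟨u, hu, rfl⟩
    -- forms on W
    let EW : W →ₗ[ℝ] W →ₗ[ℝ] ℝ := (E.domRestrict₁₂ W W)
    let BW : W →ₗ[ℝ] W →ₗ[ℝ] ℝ := (B.domRestrict₁₂ W W)
    have hEW : ∀ u v : W, EW u v = E u v := fun u v => rfl
    have hBW : ∀ u v : W, BW u v = B u v := fun u v => rfl
    obtain ⟨b, μ, hb1, hb2⟩ := exists_diag EW BW (fun u v => hEs _ _) (fun u v => hBs _ _)
      (fun u hu => hBpos u (fun h => hu (Subtype.ext h)))
    -- expansions
    have hcoef : ∀ (v : W) i, BW (b i) v = b.repr v i := by
      intro v i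
      conv_lhs => rw [← b.sum_repr v]
      rw [map_sum]
      simp only [map_smul, hb1, smul_eq_mul]
      simp
    have hBexp : ∀ v : W, BW v v = ∑ i, (b.repr v i) ^ 2 := by
      intro v
      have h0 : BW v = BW (∑ i, b.repr v i • b i) := by rw [b.sum_repr v]
      rw [h0, _root_.map_sum, LinearMap.sum_apply]
      apply Finset.sum_congr rfl
      intro i _
      rw [LinearMap.map_smul BW, LinearMap.smul_apply, hcoef, smul_eq_mul, pow_two]
    have hEexp : ∀ v : W, EW v v = ∑ i, μ i * (b.repr v i) ^ 2 := by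
      intro v
      have h0 : EW v = EW (∑ i, b.repr v i • b i) := by rw [b.sum_repr v]
      rw [h0, _root_.map_sum, LinearMap.sum_apply]
      apply Finset.sum_congr rfl
      intro i _
      rw [LinearMap.map_smul EW, LinearMap.smul_apply, hb2, hcoef, smul_eq_mul]
      ring
    -- the negative part
    let S : Finset (Fin (finrank ℝ W)) := Finset.univ.filter fun i => μ i < ν
    let Wm : Submodule ℝ W := Submodule.span ℝ (b '' (S : Set (Fin (finrank ℝ W))))
    let Wp : Submodule ℝ W := Submodule.span ℝ (b '' ((Sᶜ : Finset _) : Set (Fin (finrank ℝ W))))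
    have hWm_mem : ∀ v : W, v ∈ Wm ↔ ∀ i, ¬ μ i < ν → b.repr v i = 0 := by
      intro v
      rw [b.mem_span_image]
      constructor
      · intro h i hi
        by_contra hne
        have := h (Finsupp.mem_support_iff.2 hne)
        simp only [S, Finset.coe_filter, Finset.mem_univ, true_and, Set.mem_ofPred_eq] at this
        exact hi this
      · intro h i hi
        simp only [S, Finset.coe_filter, Finset.mem_univ, true_and, Set.mem_ofPred_eq]
        by_contra hcon
        exact (Finsupp.mem_support_iff.1 hi) (h i hcon)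
    have hWp_mem : ∀ v : W, v ∈ Wp ↔ ∀ i, μ i < ν → b.repr v i = 0 := by
      intro v
      rw [b.mem_span_image]
      constructor
      · intro h i hi
        by_contra hne
        have := h (Finsupp.mem_support_iff.2 hne)
        simp only [S, Finset.coe_compl, Finset.coe_filter, Finset.mem_univ, true_and,
          Set.mem_compl_iff, Set.mem_ofPred_eq] at this
        exact this hi
      · intro h i hi
        simp only [S, Finset.coe_compl, Finset.coe_filter, Finset.mem_univ, true_and,
          Set.mem_compl_iff, Set.mem_ofPred_eq]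
        intro hcon
        exact (Finsupp.mem_support_iff.1 hi) (h i hcon)
    have hWmdim : finrank ℝ Wm = S.card := by
      have h1 : LinearIndependent ℝ (fun i : (S : Set (Fin (finrank ℝ W))) => b i) :=
        b.linearIndependent.comp _ Subtype.val_injective
      have h2 := finrank_span_eq_card h1
      have h3 : Set.range (fun i : (S : Set (Fin (finrank ℝ W))) => b i) =
          b '' (S : Set (Fin (finrank ℝ W))) := by
        rw [Set.image_eq_range]
      rw [h3] at h2
      simpa [Wm] using h2
    have hWpdim : finrank ℝ Wp = Sᶜ.card := by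
      have h1 : LinearIndependent ℝ
          (fun i : ((Sᶜ : Finset _) : Set (Fin (finrank ℝ W))) => b i) :=
        b.linearIndependent.comp _ Subtype.val_injective
      have h2 := finrank_span_eq_card h1
      have h3 : Set.range (fun i : ((Sᶜ : Finset _) : Set (Fin (finrank ℝ W))) => b i) =
          b '' ((Sᶜ : Finset _) : Set (Fin (finrank ℝ W))) := by
        rw [Set.image_eq_range]
      rw [h3] at h2
      have h4 : finrank ℝ Wp = Fintype.card ((Sᶜ : Finset _) : Set (Fin (finrank ℝ W))) := h2
      rw [h4]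
      exact Fintype.card_coe _
    have hcard : S.card + Sᶜ.card = finrank ℝ W := by
      rw [Finset.card_add_card_compl, Fintype.card_fin]
    -- strict negativity on Wm
    have hWmneg : ∀ v ∈ Wm, v ≠ 0 → EW v v < ν * BW v v := by
      intro v hv hv0
      rw [hWm_mem] at hv
      rw [hEexp, hBexp, Finset.mul_sum]
      have hex : ∃ i, b.repr v i ≠ 0 := by
        by_contra hcon
        push Not at hcon
        apply hv0
        apply b.repr.injective
        ext i
        rw [hcon i]; simp
      obtain ⟨i₀, hi₀⟩ := hex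
      apply Finset.sum_lt_sum
      · intro i _
        by_cases hi : μ i < ν
        · exact mul_le_mul_of_nonneg_right hi.le (sq_nonneg _)
        · rw [hv i hi]; simp
      · refine ⟨i₀, Finset.mem_univ _, ?_⟩
        have : μ i₀ < ν := by
          by_contra hcon
          exact hi₀ (hv i₀ hcon)
        exact mul_lt_mul_of_pos_right this (by positivity)
    have hWpnn : ∀ v ∈ Wp, ν * BW v v ≤ EW v v := by
      intro v hv
      rw [hWp_mem] at hv
      rw [hEexp, hBexp, Finset.mul_sum]
      apply Finset.sum_le_sum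
      intro i _
      by_cases hi : μ i < ν
      · rw [hv i hi]; simp
      · exact mul_le_mul_of_nonneg_right (not_lt.1 hi) (sq_nonneg _)
    -- lower bound for the dimension
    let L'' : Submodule ℝ W := L'.comap W.subtype
    let eqv2 : L'' ≃ₗ[ℝ] L' := Submodule.comapSubtypeEquivOfLe hL'W
    have hL''dim : finrank ℝ L'' = k := by rw [eqv2.finrank_eq, hL'dim]
    have hdisj : L'' ⊓ Wp = ⊥ := by
      rw [eq_bot_iff]
      rintro v ⟨hv1, hv2⟩
      rw [Submodule.mem_bot]
      by_contra hv0
      have h1 := hWpnn v hv2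
      have h2 : ((v : T) : V) ∈ L := hv1
      have h3 := hLr _ h2
      rw [he, hm] at h3
      have h4 := hBpos (v : T) (fun h => hv0 (Subtype.ext h))
      rw [hEW, hBW] at h1
      nlinarith
    have hdimge : k ≤ S.card := by
      have h1 := Submodule.finrank_add_finrank_le_of_disjoint (disjoint_iff.2 hdisj)
      rw [hL''dim, hWpdim] at h1
      omega
    -- upper bound
    have hdimle : S.card ≤ k := by
      by_contra hgt
      push Not at hgt
      -- the largest eigenvalue below ν
      have hSne : S.Nonempty := Finset.card_pos.1 (by omega)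
      obtain ⟨i₁, hi₁, hmax⟩ := S.exists_max_image μ hSne
      have hi₁' : μ i₁ < ν := by simpa [S] using hi₁
      obtain ⟨Wk, hWk1, hWk2⟩ := exists_sub Wm (k + 1) (by rw [hWmdim]; omega)
      let Lk : Submodule ℝ V := (Wk.map W.subtype).map T.subtype
      have hLkdim : finrank ℝ Lk = k + 1 := by
        rw [← (Submodule.equivMapOfInjective T.subtype T.injective_subtype _).finrank_eq,
          ← (Submodule.equivMapOfInjective W.subtype W.injective_subtype _).finrank_eq, hWk2]
      have h1 : mm T e m k ≤ μ i₁ := by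
        apply mm_le_of T e m E B he hm hBpos hEnn k (μ i₁) Lk ?_ hLkdim
        · rintro _ ⟨_, ⟨w, hw, rfl⟩, rfl⟩
          change e ((w : T) : V) ≤ μ i₁ * m ((w : T) : V)
          rw [he, hm, ← hEW, ← hBW, hEexp, hBexp, Finset.mul_sum]
          apply Finset.sum_le_sum
          intro i _
          by_cases hi : μ i < ν
          · exact mul_le_mul_of_nonneg_right (hmax i (by simpa [S] using hi)) (sq_nonneg _)
          · rw [(hWm_mem w).1 (hWk1 hw) i hi]; simp
        · rintro _ ⟨w, _, rfl⟩
          exact w.2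
      linarith [hν2.1]
    have hScard : S.card = k := le_antisymm hdimle hdimge
    -- invariance of Wm
    have hWminv : ∀ g : G, ∀ v ∈ Wm, (⟨ρ g v.1, hWinv g v.1 v.2⟩ : W) ∈ Wm := by
      intro g v hv
      rw [hWm_mem]
      intro i hi
      rw [← hcoef]
      -- coefficient of ρ g v along b i
      have hv' := (hWm_mem v).1 hv
      have hcomp : ∀ l, μ l < ν → BW (b i) (⟨ρ g (b l).1, hWinv g _ (b l).2⟩ : W) = 0 := by
        intro l hl
        have e1 : EW (b i) (⟨ρ g (b l).1, hWinv g _ (b l).2⟩ : W) =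
            μ i * BW (b i) (⟨ρ g (b l).1, hWinv g _ (b l).2⟩ : W) := hb2 _ _
        have e2 : EW (b i) (⟨ρ g (b l).1, hWinv g _ (b l).2⟩ : W) =
            μ l * BW (b i) (⟨ρ g (b l).1, hWinv g _ (b l).2⟩ : W) := by
          have hgg : ∀ x : T, ρ g (ρ g⁻¹ x) = x := by
            intro x
            have : ρ g * ρ g⁻¹ = 1 := by rw [← map_mul]; simp
            exact LinearMap.congr_fun this x
          have s1 : EW (b i) (⟨ρ g (b l).1, hWinv g _ (b l).2⟩ : W) =
              E (ρ g⁻¹ (b i).1) (b l).1 := by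
            change E (b i).1 (ρ g (b l).1) = _
            rw [← hρE g (ρ g⁻¹ (b i).1) (b l).1, hgg]
          have s2 : BW (b i) (⟨ρ g (b l).1, hWinv g _ (b l).2⟩ : W) =
              B (ρ g⁻¹ (b i).1) (b l).1 := by
            change B (b i).1 (ρ g (b l).1) = _
            rw [← hρB g (ρ g⁻¹ (b i).1) (b l).1, hgg]
          have s3 := hb2 l (⟨ρ g⁻¹ (b i).1, hWinv g⁻¹ _ (b i).2⟩ : W)
          change E (b l).1 (ρ g⁻¹ (b i).1) = μ l * B (b l).1 (ρ g⁻¹ (b i).1) at s3
          rw [s1, s2, hEs, hBs (ρ g⁻¹ (b i).1), s3]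
        have e3 : (μ i - μ l) * BW (b i) (⟨ρ g (b l).1, hWinv g _ (b l).2⟩ : W) = 0 := by
          rw [sub_mul, ← e1, ← e2, sub_self]
        rcases mul_eq_zero.1 e3 with h | h
        · exfalso
          have : μ i = μ l := by linarith
          exact hi (this ▸ hl)
        · exact h
      have hsum : (⟨ρ g v.1, hWinv g v.1 v.2⟩ : W) =
          ∑ l, b.repr v l • (⟨ρ g (b l).1, hWinv g _ (b l).2⟩ : W) := by
        apply Subtype.ext
        have hv2 : (v : T) = ∑ l, b.repr v l • (b l : T) := by
          have h5 := congrArg (fun w : W => (w : T)) (b.sum_repr v).symm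
          simp only [Submodule.coe_sum, Submodule.coe_smul] at h5
          exact h5
        simp only [Submodule.coe_sum, Submodule.coe_smul]
        conv_lhs => rw [hv2]
        rw [map_sum]
        simp only [map_smul]
      rw [hsum, map_sum]
      apply Finset.sum_eq_zero
      intro l _
      rw [map_smul, smul_eq_mul]
      by_cases hl : μ l < ν
      · rw [hcomp l hl, mul_zero]
      · rw [hv' l hl, zero_mul]
    -- the representation on Wm
    let σ : G →* (Wm →ₗ[ℝ] Wm) :=
      { toFun := fun g =>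
          { toFun := fun v => ⟨⟨ρ g v.1.1, hWinv g v.1.1 v.1.2⟩, hWminv g v.1 v.2⟩
            map_add' := fun u v => by
              apply Subtype.ext; apply Subtype.ext
              simp
            map_smul' := fun c v => by
              apply Subtype.ext; apply Subtype.ext
              simp }
        map_one' := by
          ext v
          simp
        map_mul' := fun g h => by
          ext v
          simp }
    have hσ := hG Wm σ (by rw [hWmdim, hScard]; exact hkN)
    have hfix : ∀ v ∈ Wm, ∀ g, ρ g v.1 = v.1 := by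
      intro v hv g
      have := LinearMap.congr_fun (hσ g) ⟨v, hv⟩
      have h2 := congrArg (fun x : Wm => ((x : W) : T)) this
      exact h2
    -- a two-dimensional space of invariants
    obtain ⟨W2, hW21, hW22⟩ := exists_sub Wm 2 (by rw [hWmdim]; omega)
    let L2 : Submodule ℝ T := W2.map W.subtype
    have hL2dim : finrank ℝ L2 = 2 := by
      rw [← (Submodule.equivMapOfInjective W.subtype W.injective_subtype _).finrank_eq, hW22]
    obtain ⟨u, huL, hu0, hu⟩ := H1 L2 hL2dim (by
      rintro _ ⟨w, hw, rfl⟩ g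
      exact hfix w (hW21 hw) g)
    obtain ⟨w, hw, rfl⟩ := huL
    have h1 := hWmneg w (hW21 hw) (fun h => hu0 (by rw [h]; simp))
    have h2 := hBpos (W.subtype w) hu0
    change lam * B w.1 w.1 ≤ E w.1 w.1 at hu
    change 0 < B w.1 w.1 at h2
    rw [hEW, hBW] at h1
    nlinarith [hν2.2]
  -- conclusion by induction
  have hall : ∀ k, 1 ≤ k → k ≤ N → mm T e m k = mm T e m 1 := by
    intro k hk1 hkN
    induction k with
    | zero => omega
    | succ k ih =>
      by_cases hk : k = 0
      · rw [hk]
      · have h1 := ih (by omega) (by omega)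
        have h2 := key (k + 1) (by omega) hkN
        have h3 := hmono k hkN
        simp only [Nat.add_sub_cancel] at h2
        rw [← h1]
        exact le_antisymm h2 h3
  exact hall j hj1 hjN

end main

end Pool.Agent.Helper23.Dir
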